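import Mathlib.RingTheory.Ideal.Norm.AbsNorm
import Mathlib.Algebra.QuadraticAlgebra.NormDeterminant
import Mathlib.Analysis.Complex.Polynomial.Basic
import Mathlib.Tactic.NormNum.Prime
import Mathlib.NumberTheory.ModularForms.JacobiTheta.TwoVariable
import Mathlib.NumberTheory.Padics.Hensel
import Mathlib.Topology.UniformSpace.Uniformizable
import Pool.Agent.MP_59efd2_nt.lz.Lii
import Pool.Agent.MP_db1c88_nt.qrh.th.Defs
import Pool.Agent.MP_cbf1af_ag.ell.Scale

-- ======== part 0: formerly Pool.Agent.MP_59efd2_nt.cm.Spec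
section MrgPart0

/-!
The instance of level 9, weight 4, prime 7: definitions and the statements of the modules.
-/

noncomputable section

namespace Pool.Agent.MP_59efd2_nt.CM

open Complex PeriodPair Filter Topology
open scoped Real Manifold ModularForm MatrixGroups UpperHalfPlane
open Pool.Agent.MP_db1c88_nt.QRH (O om lam wC io Primary norm_eq)

instance fact7 : Fact (Nat.Prime 7) := ⟨by norm_num⟩

/-! ### the coefficients -/

theorem pset_finite (n : ℕ) : {x : O | Primary x ∧ x.norm = n}.Finite := by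
  have hinj : Function.Injective (fun x : O => (x.re, x.im)) := fun x y h => by
    ext
    · exact congrArg Prod.fst h
    · exact congrArg Prod.snd h
  refine Set.Finite.of_finite_image (f := fun x : O => (x.re, x.im))
    (((Set.finite_Icc (-(2 * n + 1 : ℤ)) (2 * n + 1)).prod
      (Set.finite_Icc (-(2 * n + 1 : ℤ)) (2 * n + 1))).subset ?_) hinj.injOn
  rintro _ ⟨x, ⟨-, hx⟩, rfl⟩
  rw [norm_eq] at hx
  have hn : (0 : ℤ) ≤ n := Int.natCast_nonneg n
  refine ⟨⟨?_, ?_⟩, ⟨?_, ?_⟩⟩ <;>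
    nlinarith [sq_nonneg (2 * x.im - x.re), sq_nonneg (2 * x.re - x.im), sq_nonneg (x.re - 1),
      sq_nonneg (x.re + 1), sq_nonneg (x.im - 1), sq_nonneg (x.im + 1)]

/-- the primary elements of norm `n` -/
def pset (n : ℕ) : Finset O := (pset_finite n).toFinset

theorem mem_pset {n : ℕ} {x : O} : x ∈ pset n ↔ Primary x ∧ x.norm = n := by simp [pset]

/-- the Fourier coefficients -/
def aa (n : ℕ) : ℤ := (∑ x ∈ pset n, x ^ 3).re

/-- the primary prime `1 + 3 w` of norm `7` -/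
def pi7 : O := ⟨1, 3⟩

/-- ARI: arithmetic of the Eisenstein integers -/
structure AriStmt : Prop where
  sum_eq : ∀ n, ∑ x ∈ pset n, x ^ 3 = (aa n : O)
  zero : aa 0 = 0
  one : aa 1 = 1
  seven : aa 7 = 20
  hecke : ∀ l n : ℕ, l.Prime →
    aa (l * n) + (if ¬ l ∣ 9 ∧ l ∣ n then (l : ℤ) ^ 3 * aa (n / l) else 0) = aa l * aa n
  split : ∀ l : ℕ, l.Prime → l % 3 = 1 →
    ∃ x : O, Primary x ∧ x.norm = l ∧ (aa l : O) = x ^ 3 + star x ^ 3
  inert : ∀ l : ℕ, l % 3 = 2 → aa l = 0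
  prime_of_norm : ∀ (x : O) (l : ℕ), l.Prime → x.norm = l → Prime x
  card_quot : ∀ x : O, Nat.card (O ⧸ Ideal.span {x}) = x.norm.toNat
  cop_two : ∀ x : O, Odd x.norm → IsCoprime x 2
  star_primary : ∀ x : O, Primary x → Primary (star x)
  cls : ∀ x : O, lam ∣ x - 1 ↔ Primary x ∨ Primary (om * x) ∨ Primary (om ^ 2 * x)
  cls_ne : ∀ x : O, Primary x → ¬ Primary (om * x) ∧ ¬ Primary (om ^ 2 * x)
  norm_mod : ∀ x : O, lam ∣ x - 1 → x.norm % 3 = 1

/-! ### the modular side -/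

open Classical in
/-- the terms of the theta series -/
def term (τ : ℂ) (x : O) : ℂ :=
  if Primary x then io x ^ 3 * cexp (2 * π * I * τ * x.norm / 3) else 0

/-- the theta series, equal to the eighth power of the eta function -/
def Th (τ : ℍ) : ℂ := ∑' x : O, term τ x

/-- THA: convergence, translation, expansion -/
structure ThaStmt : Prop where
  summable : ∀ τ : ℍ, Summable (term τ)
  hol : MDifferentiable 𝓘(ℂ) 𝓘(ℂ) Th
  lawT : Th ∣[(4 : ℤ)] ModularGroup.T = wC • Th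
  zero : UpperHalfPlane.IsZeroAtImInfty Th
  expand : ∀ τ : ℍ, HasSum (fun n : ℕ => (aa n : ℂ) * cexp (2 * π * I * τ * n / 3)) (Th τ)

/-- THS: inversion -/
def ThsStmt : Prop := Th ∣[(4 : ℤ)] ModularGroup.S = Th

/-- MOD: the cusp form of level `9` -/
def ModStmt : Prop :=
  ∃ f : CuspForm (CongruenceSubgroup.Gamma0 9) 4,
    (∀ τ : ℍ, f τ = Th (UpperHalfPlane.ofComplex (3 * (τ : ℂ)))) ∧ ∀ n, coef f n = aa n

/-- NEW: no cusp forms of weight `4` and level `1` or `3` -/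
def NewStmt : Prop :=
  ∀ M : ℕ, M ∣ 3 → ∀ g : CuspForm (CongruenceSubgroup.Gamma0 M) 4, g = 0

/-- LVAL: the central value -/
def LvalStmt : Prop :=
  ∀ f : CuspForm (CongruenceSubgroup.Gamma0 9) 4,
    (∀ τ : ℍ, f τ = Th (UpperHalfPlane.ofComplex (3 * (τ : ℂ)))) →
    ∀ hk : (0 : ℤ) < 4, ModularForm.L hk f 2 ≠ 0

/-! ### the curve `s ^ 2 + s = t ^ 3` -/

/-- the lattice -/
def Lat (z : ℂ) : Prop := ∃ x : O, z = io x

/-- the point of order `sqrt (-3)` -/
def z0 : ℂ := 1 / io lam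

/-- the poles of the coordinates -/
def Pole (z : ℂ) : Prop := Lat (z + z0)

/-- the hexagonal period pair with invariants `0`, `-1` -/
structure Hex (L : PeriodPair) (κ : ℂ) : Prop where
  ne : κ ≠ 0
  w1 : L.ω₁ = κ
  w2 : L.ω₂ = κ * wC
  mem : ∀ z, κ * z ∈ L.lattice ↔ Lat z
  g2 : L.g₂ = 0
  g3 : L.g₃ = -1
  p0 : ℘[L] (κ * z0) = 0
  p1 : ℘'[L] (κ * z0) = 1

/-- first coordinate -/
def tt (L : PeriodPair) (κ z : ℂ) : ℂ := ℘[L] (κ * (z + z0))

/-- second coordinate -/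
def ss (L : PeriodPair) (κ z : ℂ) : ℂ := (℘'[L] (κ * (z + z0)) - 1) / 2

/-- the uniformisation of the curve, with origin `(0, 0)` -/
structure Cur (t s : ℂ → ℂ) : Prop where
  eqn : ∀ z, ¬ Pole z → s z ^ 2 + s z = t z ^ 3
  t0 : t 0 = 0
  s0 : s 0 = 0
  tz : t z0 = 0
  sz : s z0 = -1
  per_t : ∀ z (x : O), t (z + io x) = t z
  per_s : ∀ z (x : O), s (z + io x) = s z
  rot_t : ∀ z, t (wC * z) = wC * t z
  rot_s : ∀ z, s (wC * z) = s z
  add : ∀ u v a, ¬ Pole u → ¬ Pole v → a * (t u - t v) = s u - s v →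
    a * (1 + s u + s v) = t u ^ 2 + t u * t v + t v ^ 2 →
    ¬ Pole (-u - v) ∧ t (-u - v) = a ^ 2 - t u - t v ∧
      s (-u - v) = s u + a * (t (-u - v) - t u)
  slope : ∀ u v, ¬ Pole u → ¬ Pole v → ¬ Pole (-u - v) → t u ≠ t v ∨ 1 + s u + s v ≠ 0
  inj : ∀ u v, ¬ Pole u → ¬ Pole v → t u = t v → s u = s v → Lat (u - v)
  surj : ∀ x y : ℂ, y ^ 2 + y = x ^ 3 → ∃ u, ¬ Pole u ∧ t u = x ∧ s u = y

/-- HEX: existence of the period pair -/
def HexStmt : Prop := ∃ L κ, Hex L κ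

/-- ADD: the addition law -/
def AddStmt : Prop := ∀ L κ, Hex L κ → Cur (tt L κ) (ss L κ)

/-- the torsion point attached to a residue class -/
def tp (γ : O) (q : O ⧸ Ideal.span {γ}) : ℂ := io q.out / io γ

/-- the multiplication formulas -/
structure Prd (s : ℂ → ℂ) : Prop where
  prod : ∀ (γ : O) [Fintype (O ⧸ Ideal.span {γ})], lam ∣ γ - 1 → IsCoprime γ 2 →
    ∀ z, ¬ Pole (io γ * z) → s (io γ * z) = ∏ q, s (z + tp γ q)
  lead : ∀ (γ : O) [Fintype (O ⧸ Ideal.span {γ})] [DecidableEq (O ⧸ Ideal.span {γ})],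
    lam ∣ γ - 1 → IsCoprime γ 2 → ∏ q ∈ Finset.univ.erase 0, s (tp γ q) = io γ ^ 3

/-- PROD -/
def PrdStmt : Prop := ∀ L κ, Hex L κ → Cur (tt L κ) (ss L κ) → Prd (ss L κ)

/-- integrality of the torsion points prime to `3` -/
def Intg (t s : ℂ → ℂ) : Prop :=
  ∀ (γ : O) (z : ℂ), lam ∣ γ - 1 → Lat (io γ * z) → IsIntegral ℤ (t z) ∧ IsIntegral ℤ (s z)

/-- the points reducing to the origin -/
def A1 (s : ℂ → ℂ) (V : ValuationSubring ℂ) (z : ℂ) : Prop := ¬ Pole z ∧ V.valuation (s z) < 1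

/-- the kernel of reduction -/
structure Ker (t s : ℂ → ℂ) : Prop where
  lat : ∀ V z, Lat z → A1 s V z
  add : ∀ V u v, A1 s V u → A1 s V v → A1 s V (u + v)
  mul : ∀ V (x : O) u, A1 s V u → A1 s V (io x * u)
  congr : ∀ (V : ValuationSubring ℂ) u v, ¬ Pole u → V.valuation (s u) ≤ 1 →
    V.valuation (1 + s u) = 1 → A1 s V v →
    ¬ Pole (u + v) ∧ V.valuation (s (u + v) - s u) < 1
  tors : ∀ (V : ValuationSubring ℂ) (γ : O) z, lam ∣ γ - 1 → Lat (io γ * z) →
    V.valuation (t z) ≤ 1 ∧ V.valuation (s z) ≤ 1 ∧ V.valuation (1 + s z) = 1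
  intg : Intg t s

/-- KER -/
def KerStmt : Prop := ∀ t s, Cur t s → Ker t s

/-- reduction of torsion points -/
structure Val (s : ℂ → ℂ) : Prop where
  frob : ∀ (V : ValuationSubring ℂ) (γ x : O) z, lam ∣ γ - 1 → Lat (io γ * z) → lam ∣ x - 1 →
    IsCoprime x 2 → Prime x → V.valuation (io x) < 1 →
    V.valuation (s (io x * z) - s z ^ x.norm.toNat) < 1
  sep : ∀ (V : ValuationSubring ℂ) (γ : O) z z', lam ∣ γ - 1 → IsCoprime γ 2 →
    V.valuation (io γ) = 1 → V.valuation 3 = 1 → Lat (io γ * z) → Lat (io γ * z') →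
    V.valuation (s z - s z') < 1 → ∃ j : ℕ, Lat (z' - wC ^ j * z)

/-- VAL -/
def ValStmt : Prop := ∀ t s, Cur t s → Ker t s → Prd s → Val s

/-! ### the Galois action -/

instance qbAlg : Algebra.IsAlgebraic ℚ Qb := AlgebraicClosure.isAlgebraic ℚ

/-- a fixed embedding of the algebraic closure -/
def iota : Qb →+* ℂ := (IsAlgClosed.lift : Qb →ₐ[ℚ] ℂ).toRingHom

theorem exists_iota {x : ℂ} (h : IsIntegral ℤ x) : ∃ a : Qb, iota a = x := by
  let _ : Algebra Qb ℂ := iota.toAlgebra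
  have h1 : IsIntegral Qb x := h.tower_top
  exact IsAlgClosed.algebraMap_bijective_of_isIntegral (k := Qb)
    (K := integralClosure Qb ℂ) |>.2 ⟨x, h1⟩ |>.imp fun a ha => congrArg Subtype.val ha

theorem wC_int : IsIntegral ℤ wC :=
  ⟨Polynomial.X ^ 2 + Polynomial.X + 1, by monicity!, by
    simp only [Polynomial.eval₂_add, Polynomial.eval₂_pow, Polynomial.eval₂_X, Polynomial.eval₂_one]
    linear_combination Pool.Agent.MP_db1c88_nt.QRH.wC_sq⟩

/-- the cube root of unity in the algebraic closure -/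
def zq : Qb := (exists_iota wC_int).choose

theorem iota_zq : iota zq = wC := (exists_iota wC_int).choose_spec

/-- `g` maps the algebraic number `x` to `y` -/
def Eqv (g : GQ) (x y : ℂ) : Prop := ∃ a : Qb, iota a = x ∧ iota (g a) = y

/-- `g` fixes the cube roots of unity -/
def Fix (g : GQ) : Prop := g zq = zq

open Classical in
/-- the action on the Eisenstein integers -/
def cj (g : GQ) (x : O) : O := if Fix g then x else star x

open Classical in
/-- the quadratic character of conductor `3` -/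
def sg (g : GQ) : ℤ := if Fix g then 1 else -1

/-- `g` acts on the `7 ^ n` torsion through `r` -/
def Act (t s : ℂ → ℂ) (g : GQ) (n : ℕ) (r : O) : Prop :=
  ∀ x : O, Eqv g (t (io x / 7 ^ n)) (t (io (r * cj g x) / 7 ^ n)) ∧
    Eqv g (s (io x / 7 ^ n)) (s (io (r * cj g x) / 7 ^ n))

/-- the action on the torsion points -/
structure Gl (t s : ℂ → ℂ) : Prop where
  ex : ∀ g n, ∃ r, Act t s g n r
  uniq : ∀ g n r r', Act t s g n r → Act t s g n r' → (7 : O) ^ n ∣ r - r'
  congr : ∀ g n r r', Act t s g n r → (7 : O) ^ n ∣ r - r' → Act t s g n r'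
  down : ∀ g n r, Act t s g (n + 1) r → Act t s g n r
  one : ∀ n, Act t s 1 n 1
  mul : ∀ g h n r r', Act t s g n r → Act t s h n r' → Act t s (g * h) n (r * cj g r')
  loc : ∀ g n r, Act t s g n r → ∀ᶠ h in 𝓝 g, Act t s h n r

/-- GAL -/
def GalStmt : Prop := ∀ t s, Cur t s → Intg t s → Gl t s

/-- the determinant of the action -/
def Wl (t s : ℂ → ℂ) : Prop :=
  ∃ c : ℕ, ∀ g n r, Act t s g (n + c) r →
    (7 : ℤ_[7]) ^ n ∣ (chi 7 g : ℤ_[7]) - ((sg g * r.norm : ℤ) : ℤ_[7])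

/-- WEIL -/
def WeilStmt : Prop := ∀ L κ, Hex L κ → Cur (tt L κ) (ss L κ) → Wl (tt L κ) (ss L κ)

/-- the representation -/
structure Chr (t s : ℂ → ℂ) (φ : O →+* ℤ_[7]) (ρ : GQ →* GL (Fin 2) ℤ_[7])
    (e : Fin 2 → GQ → ℤ_[7]ˣ) : Prop where
  cont : Continuous ρ
  e0 : ∀ g n r, Act t s g n r → (7 : ℤ_[7]) ^ n ∣ (e 0 g : ℤ_[7]) - φ (star r)
  e1 : ∀ g n r, Act t s g n r → (7 : ℤ_[7]) ^ n ∣ (e 1 g : ℤ_[7]) - φ r
  mul : ∀ i g h, Fix g → e i (g * h) = e i g * e i h
  fix : ∀ g, Fix g → (ρ g : Matrix (Fin 2) (Fin 2) ℤ_[7]) =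
    Matrix.diagonal fun i => (((e i g ^ 3)⁻¹ : ℤ_[7]ˣ) : ℤ_[7])
  swap : ∀ g, ¬ Fix g → (ρ g : Matrix (Fin 2) (Fin 2) ℤ_[7]) =
    !![0, (((e 0 g ^ 3)⁻¹ : ℤ_[7]ˣ) : ℤ_[7]); (((e 1 g ^ 3)⁻¹ : ℤ_[7]ˣ) : ℤ_[7]), 0]

/-- CHR -/
def ChrStmt : Prop := ∀ t s, Gl t s → ∀ φ, ∃ ρ e, Chr t s φ ρ e

/-- CYC: inertia and Frobenius elements on roots of unity -/
structure CycStmt : Prop where
  inertia_fix : ∀ (W : ValuationSubring Qb) (l : ℕ), l.Prime → l ≠ 3 → Above W l →
    ∀ g ∈ W.inertiaSubgroup ℚ, Fix g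
  frob_fix : ∀ (W : ValuationSubring Qb) (l : ℕ), l.Prime → l ≠ 3 → Above W l →
    ∀ g, IsFrob W l g → (Fix g ↔ l % 3 = 1)
  chi_frob : ∀ (W : ValuationSubring Qb) (l : ℕ), l.Prime → l ≠ 7 → Above W l →
    ∀ g, IsFrob W l g → (chi 7 g : ℤ_[7]) = l
  extend : ∀ W : ValuationSubring Qb, ∃ V : ValuationSubring ℂ,
    ∀ a : Qb, (V.valuation (iota a) < 1 ↔ W.valuation a < 1) ∧
      (V.valuation (iota a) = 1 ↔ W.valuation a = 1)
  inertia_lt : ∀ W : ValuationSubring Qb, ∀ g ∈ W.inertiaSubgroup ℚ, ∀ a ∈ W,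
    W.valuation ((g : GQ) a - a) < 1
  seven : ∃ W : ValuationSubring Qb, Above W 7 ∧ W.valuation (1 + 3 * zq) < 1 ∧
    ∀ g ∈ W.decompositionSubgroup ℚ, Fix g

/-- inertia and Frobenius elements on the torsion points -/
structure Frb (t s : ℂ → ℂ) : Prop where
  inertia : ∀ (W : ValuationSubring Qb) (l : ℕ), l.Prime → l ≠ 3 → l ≠ 7 → Above W l →
    ∀ g ∈ W.inertiaSubgroup ℚ, ∀ n r, Act t s g n r → (7 : O) ^ n ∣ r ^ 3 - 1
  frob : ∀ (W : ValuationSubring Qb) (l : ℕ) (x : O), l.Prime → l ≠ 7 → Primary x → x.norm = l →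
    Above W l → ∀ g, IsFrob W l g → ∃ y, (y = x ∨ y = star x) ∧
      ∀ n r, Act t s g n r → (7 : O) ^ n ∣ r ^ 3 - y ^ 3
  inertia7 : ∀ W : ValuationSubring Qb, W.valuation (1 + 3 * zq) < 1 →
    ∀ g ∈ W.inertiaSubgroup ℚ, ∀ n r, Act t s g n r → star pi7 ^ n ∣ r ^ 3 - 1
  frob7 : ∀ W : ValuationSubring Qb, W.valuation (1 + 3 * zq) < 1 →
    ∀ g, IsFrob W 7 g → ∀ n r, Act t s g n r → star pi7 ^ n ∣ r ^ 3 - pi7 ^ 3

/-- FROB -/
def FrbStmt : Prop := ∀ t s, Cur t s → Intg t s → Val s → Frb t s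

/-- the Galois side of the instance -/
def RepStmt : Prop :=
  ∃ (ρ : GQ →* GL (Fin 2) ℤ_[7]) (V : ValuationSubring Qb)
    (δ : Fin 2 → (V.decompositionSubgroup ℚ →* ℤ_[7]ˣ)) (α β : ℤ_[7]),
    IsDeligne 9 4 aa ρ ∧ Above V 7 ∧ SplitsAs ρ V δ ∧ CriticalChars 4 (aa 7) V δ α β ∧
    ¬ (7 : ℤ_[7]) ∣ β - 1 ∧
    ∀ g, Matrix.GeneralLinearGroup.det (ρ g) = chi 7 g ^ (-3 : ℤ)

/-- REP: the representation from the action on torsion points -/
def RepOfStmt : Prop := ∀ t s, Gl t s → Wl t s → Frb t s → RepStmt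

end Pool.Agent.MP_59efd2_nt.CM

end
end MrgPart0

-- ======== part 1: formerly Pool.Agent.MP_59efd2_nt.cm.Glue
section MrgPart1

/-!
The instance from the module statements.
-/

namespace Pool.Agent.MP_59efd2_nt.CM

theorem rep_of (hH : HexStmt) (hA : AddStmt) (hP : PrdStmt) (hK : KerStmt) (hV : ValStmt)
    (hG : GalStmt) (hW : WeilStmt) (hF : FrbStmt) (hR : RepOfStmt) : RepStmt := by
  obtain ⟨L, κ, h⟩ := hH
  have c := hA L κ h
  have k := hK _ _ c
  exact hR _ _ (hG _ _ c k.intg) (hW L κ h c) (hF _ _ c k.intg (hV _ _ c k (hP L κ h c)))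

theorem inst_of (hA : AriStmt) (hM : ModStmt) (hN : NewStmt) (hL : LvalStmt) (hR : RepStmt) :
    InstanceStmt := by
  obtain ⟨f, hf, hc⟩ := hM
  obtain ⟨ρ, V, δ, α, β, h1, h2, h3, h4, h5, h6⟩ := hR
  refine ⟨7, fact7, 9, 2, ⟨by norm_num⟩, by norm_num, f, aa, ρ, V, δ, α, β, by norm_num,
    ⟨?_, fun l hl n => ?_, fun M hM hM' g _ => hN M ?_ g⟩, hc, h1, h2, h3, h4, ?_, by norm_num,
    by simpa using h5, fun g => by simpa using h6 g⟩
  · rw [hc, hA.one, Int.cast_one]
  · have := congrArg (Int.cast : ℤ → ℂ) (hA.hecke l n hl)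
    simp only [hc]
    push_cast at this ⊢
    rw [← this]
    congr 1
  · have := Nat.le_of_dvd (by norm_num) hM
    interval_cases M <;> simp_all
  · simpa using hL f hf (by norm_num)

end Pool.Agent.MP_59efd2_nt.CM

end MrgPart1

-- ======== part 2: formerly Pool.Agent.MP_59efd2_nt.cm.Basic
section MrgPart2

/-!
Shared elementary lemmas for the instance.
-/

noncomputable section

namespace Pool.Agent.MP_59efd2_nt.CM

open Complex Filter Topology
open Pool.Agent.MP_db1c88_nt.QRH (O om lam wC io Primary norm_eq wC_sq mul_star' norm_eq_zero')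

theorem io_mk (a b : ℤ) : io ⟨a, b⟩ = a + b * wC := rfl

theorem io_eq (x : O) : io x = x.re + x.im * wC := rfl

theorem io_om : io om = wC := by simp [om, io_mk]

theorem io_lam : io lam = 1 + 2 * wC := by simp [lam, io_mk]

theorem wC_cube : wC ^ 3 = 1 := by linear_combination (wC - 1) * wC_sq

theorem wC_ne : wC ≠ 0 := fun h => by simpa [h] using wC_cube

theorem om_cube : om ^ 3 = 1 := by decide

theorem lam_sq : lam ^ 2 = -3 := by decide

theorem star_om : star om = om ^ 2 := by decide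

theorem pi7_mul : pi7 * star pi7 = 7 := by decide

theorem pi7_add : pi7 + star pi7 = -1 := by decide

theorem io_injective : Function.Injective io := by
  refine (injective_iff_map_eq_zero io).2 fun x h => norm_eq_zero'.1 ?_
  have h1 := congrArg io (mul_star' x)
  rw [map_mul, h, zero_mul, map_intCast] at h1
  exact_mod_cast h1.symm

theorem io_ne {x : O} (h : x ≠ 0) : io x ≠ 0 := fun h1 => h (io_injective (by simpa using h1))

theorem io_lam_ne : io lam ≠ 0 := io_ne (by decide)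

theorem io_int (x : O) : IsIntegral ℤ (io x) := by
  rw [io_eq]
  exact (isIntegral_algebraMap (x := x.re)).add ((isIntegral_algebraMap (x := x.im)).mul wC_int)

theorem not_lam_dvd_one : ¬ lam ∣ 1 := fun ⟨c, hc⟩ => by
  have := congrArg QuadraticAlgebra.norm hc
  rw [map_mul, map_one, show lam.norm = 3 by decide] at this
  omega

theorem ne_zero_of_lam {γ : O} (h : lam ∣ γ - 1) : γ ≠ 0 := fun h0 =>
  not_lam_dvd_one (by simpa [h0] using h)

theorem lam_dvd_three : lam ∣ 3 := ⟨-lam, by decide⟩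

theorem lam_of_primary {x : O} (h : Primary x) : lam ∣ x - 1 := lam_dvd_three.trans h

theorem lam_mul {x y : O} (hx : lam ∣ x - 1) (hy : lam ∣ y - 1) : lam ∣ x * y - 1 := by
  have := (hx.mul_right y).add hy
  rwa [show (x - 1) * y + (y - 1) = x * y - 1 by ring] at this

theorem lam_pow {x : O} (hx : lam ∣ x - 1) (n : ℕ) : lam ∣ x ^ n - 1 :=
  hx.trans (by simpa using sub_dvd_pow_sub_pow x 1 n)

theorem lam_seven (n : ℕ) : lam ∣ 7 ^ n - 1 :=
  lam_pow (lam_dvd_three.trans ⟨2, by norm_num⟩) n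

/-! ### the lattice -/

theorem lat_io (x : O) : Lat (io x) := ⟨x, rfl⟩

theorem lat_zero : Lat 0 := ⟨0, by simp⟩

theorem Lat.add {u v : ℂ} (hu : Lat u) (hv : Lat v) : Lat (u + v) := by
  obtain ⟨x, rfl⟩ := hu
  obtain ⟨y, rfl⟩ := hv
  exact ⟨x + y, by simp⟩

theorem Lat.mul {u : ℂ} (x : O) (hu : Lat u) : Lat (io x * u) := by
  obtain ⟨y, rfl⟩ := hu
  exact ⟨x * y, by simp⟩

theorem Lat.neg {u : ℂ} (hu : Lat u) : Lat (-u) := by simpa using hu.mul (-1)

theorem Lat.sub {u v : ℂ} (hu : Lat u) (hv : Lat v) : Lat (u - v) := by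
  simpa [sub_eq_add_neg] using hu.add hv.neg

theorem lam_z0 : io lam * z0 = 1 := mul_one_div_cancel io_lam_ne

theorem lat_mul_z0 {x : O} : Lat (io x * z0) ↔ lam ∣ x := by
  refine ⟨fun ⟨y, hy⟩ => ⟨y, io_injective ?_⟩, fun ⟨y, hy⟩ => ⟨y, ?_⟩⟩
  · rw [map_mul, ← hy]
    linear_combination -io x * lam_z0
  · rw [hy, map_mul]
    linear_combination io y * lam_z0

theorem not_lat_z0 : ¬ Lat z0 := fun h => not_lam_dvd_one (lat_mul_z0.1 (by simpa using h))

theorem lat_three_z0 : Lat (3 * z0) := by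
  simpa [map_ofNat] using lat_mul_z0.2 lam_dvd_three

theorem lat_div {x γ : O} (h : γ ≠ 0) : Lat (io x / io γ) ↔ γ ∣ x := by
  have := io_ne h
  refine ⟨fun ⟨y, hy⟩ => ⟨y, io_injective ?_⟩, fun ⟨y, hy⟩ => ⟨y, ?_⟩⟩
  · rw [map_mul, ← hy]
    field_simp
  · rw [hy, map_mul]
    field_simp

theorem pole_add {z w : ℂ} (h : Lat w) : Pole (z + w) ↔ Pole z :=
  ⟨fun h1 => by simpa [Pole, add_right_comm z w] using Lat.sub h1 h,
    fun h1 => by simpa [Pole, add_right_comm z w] using Lat.add h1 h⟩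

theorem Pole.mul {γ : O} {z : ℂ} (h : lam ∣ γ - 1) (hz : Pole z) : Pole (io γ * z) := by
  have := (Lat.mul γ hz).sub (lat_mul_z0.2 h)
  rwa [show io γ * (z + z0) - io (γ - 1) * z0 = io γ * z + z0 by simp; ring] at this

theorem npole_lat {z : ℂ} (h : Lat z) : ¬ Pole z := fun h1 =>
  not_lat_z0 (by simpa using Lat.sub h1 h)

/-- torsion points of order prime to `3` are not poles -/
theorem npole {γ : O} {z : ℂ} (h : lam ∣ γ - 1) (hz : Lat (io γ * z)) : ¬ Pole z := fun h1 =>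
  npole_lat hz (h1.mul h)

theorem npole_z0 : ¬ Pole z0 := fun h => not_lat_z0 (by
  have := lat_three_z0.sub h
  rwa [show 3 * z0 - (z0 + z0) = z0 by ring] at this)

theorem lat_seven (n : ℕ) (x : O) : Lat (io (7 ^ n) * (io x / 7 ^ n)) :=
  ⟨x, by rw [map_pow, map_ofNat]; field_simp⟩

theorem npole_seven (n : ℕ) (x : O) : ¬ Pole (io x / 7 ^ n) := npole (lam_seven n) (lat_seven n x)

namespace Cur

variable {t s : ℂ → ℂ} (h : Cur t s) {u : ℂ}
include h

theorem t_add {w : ℂ} (hw : Lat w) (z : ℂ) : t (z + w) = t z := by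
  obtain ⟨x, rfl⟩ := hw
  exact h.per_t z x

theorem s_add {w : ℂ} (hw : Lat w) (z : ℂ) : s (z + w) = s z := by
  obtain ⟨x, rfl⟩ := hw
  exact h.per_s z x

theorem t_lat (hu : Lat u) : t u = 0 := by simpa [h.t0] using h.t_add hu 0

theorem s_lat (hu : Lat u) : s u = 0 := by simpa [h.s0] using h.s_add hu 0

theorem lat_of_s (hu : ¬ Pole u) (h0 : s u = 0) : Lat u := by
  have h1 := h.eqn u hu
  rw [h0] at h1
  simpa using h.inj u 0 hu (npole_lat lat_zero)
    (by rw [h.t0]; exact pow_eq_zero_iff (n := 3) (by norm_num) |>.1 (by simpa using h1.symm))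
    (by rw [h0, h.s0])

theorem one_add_ne (hu : ¬ Pole u) (hn : ¬ Pole (-u)) : 1 + s u ≠ 0 := fun h0 => by
  have h1 := h.eqn u hu
  rcases h.slope u 0 hu (npole_lat lat_zero) (by simpa using hn) with h2 | h2
  · refine h2 ?_
    rw [h.t0]
    exact pow_eq_zero_iff (n := 3) (by norm_num) |>.1 (by linear_combination -h1 + s u * h0)
  · exact h2 (by rw [h.s0, add_zero, h0])

/-- negation -/
theorem neg (hu : ¬ Pole u) (h1 : 1 + s u ≠ 0) :
    ¬ Pole (-u) ∧ t (-u) = -t u / (1 + s u) ∧ s (-u) = -s u / (1 + s u) := by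
  have e := h.eqn u hu
  obtain ⟨a, b, c⟩ := h.add u 0 (t u ^ 2 / (1 + s u)) hu (npole_lat lat_zero)
    (by rw [h.t0, h.s0]; field_simp; linear_combination -e) (by rw [h.t0, h.s0]; field_simp; ring)
  rw [sub_zero] at a b c
  rw [h.t0] at b
  have b' : t (-u) = -t u / (1 + s u) := by
    rw [b]; field_simp; linear_combination -t u * e
  refine ⟨a, b', ?_⟩
  rw [c, b']; field_simp; linear_combination (2 + s u) * e

/-- the reflection exchanging the origin and the pole -/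
theorem refl (hu : ¬ Pole u) (h1 : s u ≠ 0) :
    ¬ Pole (-u - z0) ∧ t (-u - z0) = t u / s u ∧ s (-u - z0) = 1 / s u := by
  have e := h.eqn u hu
  obtain ⟨a, b, c⟩ := h.add u z0 (t u ^ 2 / s u) hu npole_z0
    (by rw [h.tz, h.sz]; field_simp; linear_combination -e)
    (by rw [h.tz, h.sz]; field_simp; ring)
  rw [h.tz] at b
  have b' : t (-u - z0) = t u / s u := by
    rw [b]; field_simp; linear_combination -t u * e
  refine ⟨a, b', ?_⟩
  rw [c, b']; field_simp; linear_combination (s u - 1) * e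

end Cur

/-! ### the Galois action on algebraic numbers -/

namespace Eqv

variable {g h : GQ} {x y x' y' z : ℂ}

theorem uniq (h1 : Eqv g x y) (h2 : Eqv g x y') : y = y' := by
  obtain ⟨a, rfl, rfl⟩ := h1
  obtain ⟨b, hb, rfl⟩ := h2
  rw [iota.injective hb]

theorem trans (h1 : Eqv h x y) (h2 : Eqv g y z) : Eqv (g * h) x z := by
  obtain ⟨a, rfl, rfl⟩ := h1
  obtain ⟨b, hb, rfl⟩ := h2
  exact ⟨a, rfl, by rw [iota.injective hb]; rfl⟩

theorem add (h1 : Eqv g x y) (h2 : Eqv g x' y') : Eqv g (x + x') (y + y') := by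
  obtain ⟨a, rfl, rfl⟩ := h1
  obtain ⟨b, rfl, rfl⟩ := h2
  exact ⟨a + b, by simp, by simp⟩

theorem mul (h1 : Eqv g x y) (h2 : Eqv g x' y') : Eqv g (x * x') (y * y') := by
  obtain ⟨a, rfl, rfl⟩ := h1
  obtain ⟨b, rfl, rfl⟩ := h2
  exact ⟨a * b, by simp, by simp⟩

theorem neg (h1 : Eqv g x y) : Eqv g (-x) (-y) := by
  obtain ⟨a, rfl, rfl⟩ := h1
  exact ⟨-a, by simp, by simp⟩

theorem sub (h1 : Eqv g x y) (h2 : Eqv g x' y') : Eqv g (x - x') (y - y') := by
  simpa [sub_eq_add_neg] using h1.add h2.neg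

theorem inv (h1 : Eqv g x y) : Eqv g x⁻¹ y⁻¹ := by
  obtain ⟨a, rfl, rfl⟩ := h1
  exact ⟨a⁻¹, by simp, by simp⟩

theorem div (h1 : Eqv g x y) (h2 : Eqv g x' y') : Eqv g (x / x') (y / y') := by
  simpa [div_eq_mul_inv] using h1.mul h2.inv

theorem pow (h1 : Eqv g x y) (n : ℕ) : Eqv g (x ^ n) (y ^ n) := by
  obtain ⟨a, rfl, rfl⟩ := h1
  exact ⟨a ^ n, by simp, by simp⟩

theorem int (g : GQ) (n : ℤ) : Eqv g n n := ⟨n, by simp, by simp⟩

theorem zero (g : GQ) : Eqv g 0 0 := by simpa using int g 0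

theorem one (g : GQ) : Eqv g 1 1 := by simpa using int g 1

theorem eq_zero_iff (h1 : Eqv g x y) : y = 0 ↔ x = 0 := by
  obtain ⟨a, rfl, rfl⟩ := h1
  simp

theorem eq_iff (h1 : Eqv g x y) (h2 : Eqv g x' y') : y = y' ↔ x = x' := by
  simpa [sub_eq_zero] using (h1.sub h2).eq_zero_iff

end Eqv

theorem zq_eq : zq * zq = -1 - zq := iota.injective (by simpa [iota_zq] using wC_sq)

theorem zq_cube : zq ^ 3 = 1 := by linear_combination (zq - 1) * zq_eq

theorem zq_ne : zq ^ 2 ≠ zq := fun h => by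
  have h1 : (3 : Qb) = 0 := by linear_combination 4 * zq_eq - (2 * zq + 1) * (zq_eq - h)
  norm_num at h1

theorem not_fix {g : GQ} : ¬ Fix g ↔ g zq = zq ^ 2 := by
  refine ⟨fun h => ?_, fun h h1 => zq_ne (h.symm.trans h1)⟩
  have h1 := congrArg g zq_eq
  simp only [map_mul, map_sub, map_neg, map_one] at h1
  have h2 : (g zq - zq) * (g zq - zq ^ 2) = 0 := by
    linear_combination h1 - g zq * zq_eq + (zq - 1) * zq_eq
  exact sub_eq_zero.1 ((mul_eq_zero.1 h2).resolve_left (sub_ne_zero.2 h))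

theorem fix_one : Fix 1 := rfl

theorem fix_mul {g h : GQ} : Fix (g * h) ↔ (Fix g ↔ Fix h) := by
  have e : (g * h) zq = g (h zq) := rfl
  by_cases h1 : Fix g <;> by_cases h2 : Fix h
  · simpa [h1, h2] using show Fix (g * h) by rw [Fix, e, h2, h1]
  · simpa [h1, h2] using show ¬ Fix (g * h) by rw [not_fix, e, not_fix.1 h2, map_pow, h1]
  · simpa [h1, h2] using show ¬ Fix (g * h) by rw [not_fix, e, h2, not_fix.1 h1]
  · simpa [h1, h2] using show Fix (g * h) by
      rw [Fix, e, not_fix.1 h2, map_pow, not_fix.1 h1]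
      linear_combination zq * zq_cube

theorem fix_inv {g : GQ} : Fix g⁻¹ ↔ Fix g := by
  have := (fix_mul (g := g⁻¹) (h := g)).1 (by simpa using fix_one)
  exact this

theorem cj_fix {g : GQ} (h : Fix g) (x : O) : cj g x = x := if_pos h

theorem cj_swap {g : GQ} (h : ¬ Fix g) (x : O) : cj g x = star x := if_neg h

theorem cj_mul (g h : GQ) (x : O) : cj (g * h) x = cj g (cj h x) := by
  by_cases h1 : Fix g <;> by_cases h2 : Fix h <;> simp [cj, fix_mul, h1, h2]

theorem cj_map_mul (g : GQ) (x y : O) : cj g (x * y) = cj g x * cj g y := by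
  by_cases h1 : Fix g <;> simp [cj, h1, mul_comm]

theorem cj_map_add (g : GQ) (x y : O) : cj g (x + y) = cj g x + cj g y := by
  by_cases h1 : Fix g <;> simp [cj, h1]

theorem cj_map_one (g : GQ) : cj g 1 = 1 := by
  by_cases h1 : Fix g <;> simp [cj, h1]

theorem cj_map_int (g : GQ) (n : ℤ) : cj g n = n := by
  by_cases h1 : Fix g <;> simp [cj, h1]

theorem eqv_wC (g : GQ) : Eqv g wC (io (cj g om)) := by
  refine ⟨zq, iota_zq, ?_⟩
  by_cases h1 : Fix g
  · rw [cj_fix h1, h1, iota_zq, io_om]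
  · rw [cj_swap h1, not_fix.1 h1, star_om, map_pow, map_pow, iota_zq, io_om]

/-- the elements that agree with `g` on a given number form a neighbourhood of `g` -/
theorem ev_eq (g : GQ) (a : Qb) : ∀ᶠ h in 𝓝 g, (h : GQ) a = g a := by
  have h1 : IsOpen (MulAction.stabilizer GQ a : Set GQ) := stabilizer_isOpen_of_isIntegral a
  have h2 : ContinuousAt (fun h : GQ => g⁻¹ * h) g := by fun_prop
  filter_upwards [h2.eventually (h1.mem_nhds (by simp))] with h hh
  have h3 : g⁻¹ (h a) = a := hh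
  simpa using congrArg g h3

theorem ev_fix (g : GQ) : ∀ᶠ h in 𝓝 g, (Fix h ↔ Fix g) :=
  (ev_eq g zq).mono fun h hh => by rw [Fix, Fix, hh]

end Pool.Agent.MP_59efd2_nt.CM

end
end MrgPart2

-- ======== part 3: formerly Pool.Agent.MP_59efd2_nt.cm.Ari
section MrgPart3

/-!
Row ARI: arithmetic of the Eisenstein integers.
-/

noncomputable section

namespace Pool.Agent.MP_59efd2_nt.CM

open Pool.Agent.MP_db1c88_nt.QRH (O om lam Primary norm_eq mul_star' norm_eq_zero' norm_nonneg')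

namespace Ari

theorem int_dvd (m : ℤ) (x : O) : (m : O) ∣ x ↔ m ∣ x.re ∧ m ∣ x.im := by
  refine ⟨fun ⟨c, hc⟩ => ?_, fun ⟨⟨a, ha⟩, ⟨b, hb⟩⟩ => ⟨⟨a, b⟩, ?_⟩⟩
  · rw [hc]
    exact ⟨⟨c.re, by simp⟩, ⟨c.im, by simp⟩⟩
  · ext <;> simp [ha, hb]

theorem primary_iff (x : O) : Primary x ↔ x.re % 3 = 1 ∧ x.im % 3 = 0 := by
  have := int_dvd 3 (x - 1)
  simp only [Int.cast_ofNat, QuadraticAlgebra.re_sub, QuadraticAlgebra.im_sub,
    QuadraticAlgebra.re_one, QuadraticAlgebra.im_one] at this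
  rw [Primary, this]
  omega

theorem lam_iff (x : O) : lam ∣ x - 1 ↔ (x.re + x.im) % 3 = 1 := by
  refine ⟨fun ⟨c, hc⟩ => ?_, fun h => ?_⟩
  · have h1 := congrArg QuadraticAlgebra.re hc
    have h2 := congrArg QuadraticAlgebra.im hc
    simp [lam, QuadraticAlgebra.re_one, QuadraticAlgebra.im_one] at h1 h2
    omega
  · refine ⟨⟨2 * ((x.re + x.im) / 3) - (x.re - 1), (x.re + x.im) / 3 - (x.re - 1)⟩, ?_⟩
    ext <;> simp [lam, QuadraticAlgebra.re_one, QuadraticAlgebra.im_one] <;> omega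

theorem om_mul (x : O) : om * x = ⟨-x.im, x.re - x.im⟩ := by
  ext
  · simp [om]
  · simp [om]
    ring

theorem om_sq_mul (x : O) : om ^ 2 * x = ⟨x.im - x.re, -x.re⟩ := by
  rw [sq, mul_assoc, om_mul x, om_mul]
  ext
  · simp
  · simp only
    ring

theorem norm_sq (x : O) : x.norm = (x.re + x.im) ^ 2 - 3 * (x.re * x.im) := by
  rw [norm_eq]; ring

theorem norm_cases (x : O) : ((x.re + x.im) % 3 = 0 ∧ x.norm % 3 = 0) ∨
    ((x.re + x.im) % 3 ≠ 0 ∧ x.norm % 3 = 1) := by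
  rw [norm_sq]
  generalize x.re * x.im = p
  generalize x.re + x.im = s
  obtain ⟨k, hk⟩ : ∃ k, s = 3 * k ∨ s = 3 * k + 1 ∨ s = 3 * k + 2 := ⟨s / 3, by omega⟩
  have e0 : (3 * k) ^ 2 = 3 * (3 * k ^ 2) := by ring
  have e1 : (3 * k + 1) ^ 2 = 3 * (3 * k ^ 2 + 2 * k) + 1 := by ring
  have e2 : (3 * k + 2) ^ 2 = 3 * (3 * k ^ 2 + 4 * k + 1) + 1 := by ring
  rcases hk with h | h | h <;> rw [h] <;> omega

theorem norm_mod (x : O) (h : lam ∣ x - 1) : x.norm % 3 = 1 := by
  rw [lam_iff] at h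
  have := norm_cases x
  omega

theorem cls (x : O) : lam ∣ x - 1 ↔ Primary x ∨ Primary (om * x) ∨ Primary (om ^ 2 * x) := by
  rw [lam_iff, primary_iff, primary_iff, primary_iff, om_mul, om_sq_mul]
  dsimp only
  obtain ⟨a, ha⟩ : ∃ a, x.re = 3 * a ∨ x.re = 3 * a + 1 ∨ x.re = 3 * a + 2 := ⟨x.re / 3, by omega⟩
  obtain ⟨b, hb⟩ : ∃ b, x.im = 3 * b ∨ x.im = 3 * b + 1 ∨ x.im = 3 * b + 2 := ⟨x.im / 3, by omega⟩
  rcases ha with h | h | h <;> rcases hb with h' | h' | h' <;> omega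

theorem cls_ne (x : O) (h : Primary x) : ¬ Primary (om * x) ∧ ¬ Primary (om ^ 2 * x) := by
  rw [primary_iff] at h
  rw [primary_iff, primary_iff, om_mul, om_sq_mul]
  dsimp only
  omega

theorem star_primary (x : O) (h : Primary x) : Primary (star x) := by
  rw [primary_iff] at h ⊢
  simp only [QuadraticAlgebra.re_star, QuadraticAlgebra.im_star]
  omega

theorem prim_mul {x y : O} (hx : Primary x) (hy : Primary y) : Primary (x * y) := by
  have := (Dvd.dvd.mul_right hx y).add hy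
  rwa [show (x - 1) * y + (y - 1) = x * y - 1 by ring] at this

theorem prim_cancel {x y : O} (hx : Primary x) (hy : Primary (x * y)) : Primary y := by
  have := Dvd.dvd.sub hy (Dvd.dvd.mul_right hx y)
  rwa [show x * y - 1 - (x - 1) * y = y - 1 by ring] at this

theorem eq_one {x : O} (hx : Primary x) (h : x.norm = 1) : x = 1 := by
  rw [primary_iff] at hx
  rw [norm_eq] at h
  have h1 : x.im ≤ 1 := by nlinarith [sq_nonneg (2 * x.re - x.im)]
  have h2 : -1 ≤ x.im := by nlinarith [sq_nonneg (2 * x.re - x.im)]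
  have h3 : x.im = 0 := by omega
  rw [h3] at h
  have h4 : x.re ≤ 1 := by nlinarith
  have h5 : -1 ≤ x.re := by nlinarith
  have h6 : x.re = 1 := by omega
  ext <;> simp [h3, h6, QuadraticAlgebra.re_one, QuadraticAlgebra.im_one]

theorem unit_of_norm {x : O} (h : x.norm = 1) : IsUnit x :=
  IsUnit.of_mul_eq_one (star x) (by rw [mul_star', h, Int.cast_one])

theorem norm_of_unit {x : O} (h : IsUnit x) : x.norm = 1 := by
  have h1 := h.map QuadraticAlgebra.norm
  have h2 := norm_nonneg' x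
  rcases Int.isUnit_iff.1 h1 with h3 | h3 <;> omega

theorem norm_nat (x : O) : ∃ m : ℕ, x.norm = m :=
  ⟨x.norm.toNat, (Int.toNat_of_nonneg (norm_nonneg' x)).symm⟩

theorem prime_of_norm (x : O) (l : ℕ) (hl : l.Prime) (h : x.norm = l) : Prime x := by
  refine Irreducible.prime ⟨fun hu => ?_, fun a b hab => ?_⟩
  · have := norm_of_unit hu
    have := hl.two_le
    omega
  · obtain ⟨m, hm⟩ := norm_nat a
    obtain ⟨k, hk⟩ := norm_nat b
    rw [hab, map_mul, hm, hk] at h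
    have h' : m * k = l := by exact_mod_cast h
    rcases (Nat.prime_mul_iff.1 (h' ▸ hl)) with h1 | h1
    · exact Or.inr (unit_of_norm (by rw [hk, h1.2]; rfl))
    · exact Or.inl (unit_of_norm (by rw [hm, h1.2]; rfl))

theorem norm_natCast (l : ℕ) : (l : O).norm = (l * l : ℕ) := by
  rw [norm_eq]; simp [sq]

/-- a rational prime stays prime or is a norm -/
theorem prime_or_norm (l : ℕ) (hl : l.Prime) : Prime (l : O) ∨ ∃ a : O, a.norm = l := by
  by_cases h : ∃ a : O, a.norm = l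
  · exact Or.inr h
  refine Or.inl (Irreducible.prime ⟨fun hu => ?_, fun a b hab => ?_⟩)
  · have h1 := norm_of_unit hu
    rw [norm_natCast] at h1
    have h2 : l * l = 1 := by exact_mod_cast h1
    exact hl.ne_one (Nat.eq_one_of_mul_eq_one_right h2)
  · obtain ⟨m, hm⟩ := norm_nat a
    obtain ⟨k, hk⟩ := norm_nat b
    have h1 := norm_natCast l
    rw [hab, map_mul, hm, hk] at h1
    have h2 : m * k = l ^ 2 := by rw [sq]; exact_mod_cast h1
    obtain ⟨i, hi, e⟩ := (Nat.dvd_prime_pow hl).1 ⟨k, h2.symm⟩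
    interval_cases i
    · exact Or.inl (unit_of_norm (by rw [hm, e]; rfl))
    · exact absurd ⟨a, by rw [hm, e, pow_one]⟩ h
    · rw [e] at h2
      have : k = 1 := Nat.eq_of_mul_eq_mul_left (pow_pos hl.pos 2) (by rw [h2, mul_one])
      exact Or.inr (unit_of_norm (by rw [hk, this]; rfl))

theorem exists_primary (l : ℕ) (hl : l.Prime) (h3 : l % 3 = 1) :
    ∃ x : O, Primary x ∧ x.norm = l := by
  have : Fact l.Prime := ⟨hl⟩
  have : Fact (Nat.Prime 3) := ⟨Nat.prime_three⟩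
  obtain ⟨a, ha⟩ : ∃ a : O, a.norm = l := by
    refine (prime_or_norm l hl).resolve_left fun hp => ?_
    obtain ⟨u, hu⟩ := exists_prime_orderOf_dvd_card (G := (ZMod l)ˣ) 3
      (by rw [ZMod.card_units]; omega)
    have h1 : (u : ZMod l) ^ 3 = 1 := by
      rw [← Units.val_pow_eq_pow_val, ← hu, pow_orderOf_eq_one, Units.val_one]
    have h2 : (u : ZMod l) - 1 ≠ 0 := fun h => by
      rw [Units.val_eq_one.1 (sub_eq_zero.1 h), orderOf_one] at hu
      omega
    have h4 : (u : ZMod l) ^ 2 + u + 1 = 0 :=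
      mul_left_cancel₀ h2 (by linear_combination h1)
    obtain ⟨c, hc⟩ := ZMod.intCast_surjective (u : ZMod l)
    have h5 : (l : ℤ) ∣ c ^ 2 + c + 1 := by
      rw [← ZMod.intCast_zmod_eq_zero_iff_dvd]
      push_cast
      rw [hc, h4]
    have h6 : (l : O) ∣ (⟨c, -1⟩ : O) * star ⟨c, -1⟩ := by
      rw [mul_star', norm_eq]
      have : ((l : ℤ) : O) ∣ ((c ^ 2 + c + 1 : ℤ) : O) := map_dvd (Int.castRingHom O) h5
      simpa using this
    have h7 : (l : ℤ) ∣ 1 := by
      rcases hp.dvd_or_dvd h6 with h | h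
      · exact dvd_neg.1 ((int_dvd l _).1 (by simpa using h)).2
      · exact ((int_dvd l _).1 (by simpa using h)).2
    exact hl.not_dvd_one (by exact_mod_cast h7)
  obtain ⟨b, hb, hb'⟩ : ∃ b : O, lam ∣ b - 1 ∧ b.norm = l := by
    have h1 := norm_cases a
    by_cases h : (a.re + a.im) % 3 = 1
    · exact ⟨a, (lam_iff a).2 h, ha⟩
    · refine ⟨-a, (lam_iff _).2 ?_, by rw [← ha, norm_eq, norm_eq]; simp⟩
      simp only [QuadraticAlgebra.re_neg, QuadraticAlgebra.im_neg]
      omega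
  have ho : om.norm = 1 := by decide
  rcases (cls b).1 hb with h | h | h
  · exact ⟨b, h, hb'⟩
  · exact ⟨_, h, by rw [map_mul, ho, one_mul, hb']⟩
  · exact ⟨_, h, by rw [map_mul, map_pow, ho, one_pow, one_mul, hb']⟩

theorem sum_eq (n : ℕ) : ∑ x ∈ pset n, x ^ 3 = (aa n : O) := by
  have hm : ∀ x ∈ pset n, star x ∈ pset n := fun x hx =>
    mem_pset.2 ⟨star_primary x (mem_pset.1 hx).1, by
      rw [QuadraticAlgebra.norm_star]; exact (mem_pset.1 hx).2⟩
  have h : star (∑ x ∈ pset n, x ^ 3) = ∑ x ∈ pset n, x ^ 3 := by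
    rw [star_sum]
    exact Finset.sum_nbij' star star hm hm (fun _ _ => star_star _) (fun _ _ => star_star _)
      fun _ _ => star_pow _ _
  have h2 := congrArg QuadraticAlgebra.im h
  rw [QuadraticAlgebra.im_star] at h2
  ext
  · simp [aa]
  · simp only [QuadraticAlgebra.im_intCast]
    omega

theorem aa_zero {n : ℕ} (h : n % 3 ≠ 1) : aa n = 0 := by
  have : pset n = ∅ := Finset.eq_empty_of_forall_notMem fun x hx => by
    have h1 := norm_mod x (lam_of_primary (mem_pset.1 hx).1)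
    rw [(mem_pset.1 hx).2] at h1
    omega
  simp [aa, this]

theorem aa_one : aa 1 = 1 := by
  have : pset 1 = {1} := by
    ext x
    rw [mem_pset, Finset.mem_singleton]
    exact ⟨fun h => eq_one h.1 (by simpa using h.2), fun h => by
      rw [h]; exact ⟨by simp [Primary], by simp⟩⟩
  simp [aa, this, QuadraticAlgebra.re_one]

theorem cast_inj {a b : ℤ} (h : (a : O) = b) : a = b := by
  simpa using congrArg QuadraticAlgebra.re h

open Classical in
/-- the multiples of a primary element -/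
theorem sum_dvd {y : O} (hy : Primary y) {m : ℕ} (hm : y.norm = m) (N : ℕ) :
    ∑ x ∈ pset N, (if y ∣ x then x ^ 3 else 0) =
      if m ∣ N then y ^ 3 * (aa (N / m) : O) else 0 := by
  have hy0 : y ≠ 0 := ne_zero_of_lam (lam_of_primary hy)
  have hm0 : 0 < m := Nat.pos_of_ne_zero fun h => hy0 (norm_eq_zero'.1 (by rw [hm, h]; rfl))
  split_ifs with h
  · obtain ⟨n, rfl⟩ := h
    rw [Nat.mul_div_cancel_left _ hm0, ← sum_eq, Finset.mul_sum, ← Finset.sum_filter]
    symm
    refine Finset.sum_bij (fun x _ => y * x) (fun x hx => ?_) (fun _ _ _ _ h => ?_)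
      (fun x hx => ?_) fun x _ => (mul_pow _ _ _).symm
    · rw [mem_pset] at hx
      exact Finset.mem_filter.2 ⟨mem_pset.2 ⟨prim_mul hy hx.1, by
        rw [map_mul, hm, hx.2, Nat.cast_mul]⟩, dvd_mul_right _ _⟩
    · exact mul_left_cancel₀ hy0 h
    · obtain ⟨h1, c, rfl⟩ := Finset.mem_filter.1 hx
      rw [mem_pset, map_mul, hm, Nat.cast_mul] at h1
      exact ⟨c, mem_pset.2 ⟨prim_cancel hy h1.1,
        mul_left_cancel₀ (by exact_mod_cast hm0.ne') h1.2⟩, rfl⟩
  · refine Finset.sum_eq_zero fun x hx => if_neg fun ⟨c, hc⟩ => h ?_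
    have h1 := (mem_pset.1 hx).2
    rw [hc, map_mul, hm] at h1
    exact Int.natCast_dvd_natCast.1 ⟨_, h1.symm⟩

theorem ite_sq (l n : ℕ) (hl : 0 < l) (c : O) :
    (if l * l ∣ l * n then c * (aa (l * n / (l * l)) : O) else 0) =
      if l ∣ n then c * (aa (n / l) : O) else 0 := by
  simp only [Nat.mul_dvd_mul_iff_left hl, Nat.mul_div_mul_left _ _ hl]

theorem dvd_norm {l n : ℕ} {x : O} (hx : x ∈ pset (l * n)) : (l : O) ∣ x * star x := by
  rw [mul_star', (mem_pset.1 hx).2]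
  push_cast
  exact dvd_mul_right _ _

theorem hecke_inert (l n : ℕ) (hl : l.Prime) (h3 : l % 3 = 2) :
    aa (l * n) + (if l ∣ n then (l : ℤ) ^ 3 * aa (n / l) else 0) = 0 := by
  classical
  have hp : Prime (l : O) := (prime_or_norm l hl).resolve_right fun ⟨a, ha⟩ => by
    have := norm_cases a
    omega
  have hy : Primary (-(l : O)) := by
    rw [primary_iff]
    simp only [QuadraticAlgebra.re_neg, QuadraticAlgebra.im_neg, QuadraticAlgebra.re_natCast,
      QuadraticAlgebra.im_natCast]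
    omega
  have h := sum_dvd hy (m := l * l) (by rw [norm_eq]; simp [sq]) (l * n)
  rw [ite_sq l n hl.pos, Finset.sum_congr rfl fun x hx => if_pos ?_, sum_eq] at h
  · apply cast_inj
    push_cast
    rw [h]
    split_ifs <;> ring
  · rw [neg_dvd]
    refine (hp.dvd_or_dvd (dvd_norm hx)).elim id fun h => ?_
    simpa [starRingEnd_apply] using map_dvd (starRingEnd O) h

theorem hecke_split (l n : ℕ) (hl : l.Prime) {y : O} (hy : Primary y) (hn : y.norm = l) :
    (aa (l * n) : O) + (if l ∣ n then (l : O) ^ 3 * aa (n / l) else 0) =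
      (y ^ 3 + star y ^ 3) * aa n := by
  classical
  have hy' := star_primary y hy
  have hn' : (star y).norm = l := by rw [QuadraticAlgebra.norm_star, hn]
  have hp := prime_of_norm y l hl hn
  have hp' := prime_of_norm _ l hl hn'
  have e : y * star y = l := by rw [mul_star', hn, Int.cast_natCast]
  have hnd : ¬ y ∣ star y := fun ⟨u, hu⟩ => by
    have h1 : u.norm = 1 := by
      have := hn'
      rw [hu, map_mul, hn] at this
      exact mul_left_cancel₀ (by exact_mod_cast hl.ne_zero) (this.trans (mul_one _).symm)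
    rw [eq_one (prim_cancel hy (hu ▸ hy')) h1, mul_one] at hu
    have h2 := congrArg QuadraticAlgebra.im hu
    rw [QuadraticAlgebra.im_star] at h2
    have h3 : y.im = 0 := by omega
    rw [norm_eq, h3] at hn
    have h4 : y.re.natAbs * y.re.natAbs = l := by
      zify
      rw [abs_mul_abs_self]
      linear_combination hn
    rcases Nat.prime_mul_iff.1 (h4 ▸ hl) with h | h <;> exact h.1.ne_one h.2
  have s1 := sum_dvd hy hn (l * n)
  have s2 := sum_dvd hy' hn' (l * n)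
  have s3 := sum_dvd (prim_mul hy hy') (m := l * l) (by rw [e, norm_natCast]) (l * n)
  rw [if_pos (dvd_mul_right _ _), Nat.mul_div_cancel_left _ hl.pos] at s1 s2
  rw [ite_sq l n hl.pos] at s3
  rw [add_mul, ← s1, ← s2, ← e, ← s3, ← sum_eq, ← Finset.sum_add_distrib,
    ← Finset.sum_add_distrib]
  refine Finset.sum_congr rfl fun x hx => ?_
  have h0 : y ∣ x ∨ star y ∣ x := by
    refine (hp.dvd_or_dvd ((Dvd.intro _ e).trans (dvd_norm hx))).imp id fun h => ?_
    simpa [starRingEnd_apply] using map_dvd (starRingEnd O) h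
  have h1 : y * star y ∣ x ↔ y ∣ x ∧ star y ∣ x := by
    refine ⟨fun h => ⟨(dvd_mul_right _ _).trans h, (dvd_mul_left _ _).trans h⟩, ?_⟩
    rintro ⟨ha, c, rfl⟩
    rw [mul_comm y]
    exact mul_dvd_mul_left _ ((hp.dvd_or_dvd ha).resolve_left hnd)
  by_cases a : y ∣ x <;> by_cases b : star y ∣ x <;> simp_all

theorem aa_split (l : ℕ) (hl : l.Prime) {y : O} (hy : Primary y) (hn : y.norm = l) :
    (aa l : O) = y ^ 3 + star y ^ 3 := by
  simpa [hl.not_dvd_one, aa_one] using hecke_split l 1 hl hy hn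

theorem hecke (l n : ℕ) (hl : l.Prime) :
    aa (l * n) + (if ¬ l ∣ 9 ∧ l ∣ n then (l : ℤ) ^ 3 * aa (n / l) else 0) = aa l * aa n := by
  by_cases h3 : l = 3
  · subst h3
    rw [aa_zero (n := 3 * n) (by omega), aa_zero (n := 3) (by omega)]
    simp
  have h9 : ¬ l ∣ 9 := fun h =>
    h3 ((Nat.prime_dvd_prime_iff_eq hl Nat.prime_three).1 (hl.dvd_of_dvd_pow (n := 2) h))
  have h0 : l % 3 ≠ 0 := fun h =>
    h3 ((Nat.prime_dvd_prime_iff_eq Nat.prime_three hl).1 (Nat.dvd_of_mod_eq_zero h)).symm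
  simp only [h9, not_false_eq_true, true_and]
  by_cases h1 : l % 3 = 1
  · obtain ⟨y, hy, hn⟩ := exists_primary l hl h1
    apply cast_inj
    push_cast
    rw [hecke_split l n hl hy hn, aa_split l hl hy hn]
  · rw [hecke_inert l n hl (by omega), aa_zero h1, zero_mul]

end Ari

open Ari in
theorem ari : AriStmt where
  sum_eq := sum_eq
  zero := aa_zero (by norm_num)
  one := aa_one
  seven := cast_inj ((aa_split 7 (by norm_num) (y := pi7) ((primary_iff _).2 (by decide))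
    (by decide)).trans (by decide))
  hecke := hecke
  split l hl h := by
    obtain ⟨y, hy, hn⟩ := exists_primary l hl h
    exact ⟨y, hy, hn, aa_split l hl hy hn⟩
  inert l h := aa_zero (by omega)
  prime_of_norm := prime_of_norm
  card_quot x := by
    have h1 : Nat.card (O ⧸ Ideal.span {x}) = (Algebra.norm ℤ x).natAbs := by
      rw [← Ideal.absNorm_span_singleton, Ideal.absNorm_apply, Submodule.cardQuot_apply]
    have h2 : Algebra.norm ℤ x = x.norm := by
      rw [Algebra.norm_apply, ← QuadraticAlgebra.det_toLinearMap_eq_norm]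
      congr 1
    have := norm_nonneg' x
    rw [h1, h2]
    omega
  cop_two x := fun ⟨k, hk⟩ => ⟨star x, -(k : O), by
    rw [mul_comm, mul_star', hk]; push_cast; ring⟩
  star_primary := star_primary
  cls := cls
  cls_ne := cls_ne
  norm_mod := norm_mod

end Pool.Agent.MP_59efd2_nt.CM

end
end MrgPart3

-- ======== part 4: formerly Pool.Agent.MP_59efd2_nt.cm.Ths
section MrgPart4

/-!
The inversion law of the theta series.
-/

noncomputable section

namespace Pool.Agent.MP_59efd2_nt.CM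

open Complex Filter Topology
open scoped Real ModularForm MatrixGroups UpperHalfPlane
open Pool.Agent.MP_db1c88_nt.QRH (O om lam wC io Primary norm_eq wC_sq)

namespace ThsP

/-! ### exponential sums and their derivatives -/

/-- summability against all exponentials -/
def SS {ι : Type} (c u : ι → ℂ) : Prop :=
  ∀ R : ℝ, Summable fun i => ‖c i‖ * Real.exp (R * ‖u i‖)

theorem SS.step {ι : Type} {c u : ι → ℂ} (h : SS c u) : SS (fun i => c i * u i) u := by
  intro R
  refine (h (R + 1)).of_nonneg_of_le (fun i => by positivity) fun i => ?_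
  rw [norm_mul, add_mul, one_mul, Real.exp_add, mul_assoc, mul_comm ‖u i‖]
  gcongr
  linarith [Real.add_one_le_exp ‖u i‖]

theorem SS.bound {ι : Type} (c u : ι → ℂ) (i : ι) {z : ℂ} {R : ℝ} (hz : ‖z‖ ≤ R) :
    ‖c i * cexp (u i * z)‖ ≤ ‖c i‖ * Real.exp (R * ‖u i‖) := by
  rw [norm_mul]
  gcongr
  refine (Complex.norm_exp_le_exp_norm _).trans (Real.exp_le_exp.2 ?_)
  rw [norm_mul, mul_comm]
  gcongr

theorem SS.summable {ι : Type} {c u : ι → ℂ} (h : SS c u) (z : ℂ) :
    Summable fun i => c i * cexp (u i * z) :=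
  .of_norm_bounded (h ‖z‖) fun i => SS.bound c u i le_rfl

theorem SS.deriv {ι : Type} {c u : ι → ℂ} (h : SS c u) (z : ℂ) :
    HasDerivAt (fun z => ∑' i, c i * cexp (u i * z)) (∑' i, c i * u i * cexp (u i * z)) z := by
  refine hasDerivAt_tsum_of_isPreconnected (h.step (‖z‖ + 1)) (t := Metric.ball 0 (‖z‖ + 1))
    (g := fun i z => c i * cexp (u i * z)) (g' := fun i z => c i * u i * cexp (u i * z))
    Metric.isOpen_ball (convex_ball _ _).isPreconnected (fun i y _ => ?_) (fun i y hy => ?_)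
    (y₀ := z) (by simp) (h.summable z) (by simp)
  · have := (((hasDerivAt_id y).const_mul (u i)).cexp).const_mul (c i)
    exact this.congr_deriv (by simp only [id]; ring)
  · exact SS.bound (fun i => c i * u i) u i (mem_ball_zero_iff.1 hy).le

theorem transfer {ι κ : Type} {c u : ι → ℂ} {d v : κ → ℂ} (h : SS c u) (h' : SS d v)
    (e : ∀ z, ∑' i, c i * cexp (u i * z) = ∑' i, d i * cexp (v i * z)) (z : ℂ) :
    ∑' i, c i * u i * cexp (u i * z) = ∑' i, d i * v i * cexp (v i * z) := by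
  have h1 := h.deriv z
  rw [funext e] at h1
  exact h1.unique (h'.deriv z)

theorem cube {ι κ : Type} {c u : ι → ℂ} {d v : κ → ℂ} (h : SS c u) (h' : SS d v)
    (e : ∀ z, ∑' i, c i * cexp (u i * z) = ∑' i, d i * cexp (v i * z)) :
    ∑' i, c i * u i ^ 3 = ∑' i, d i * v i ^ 3 := by
  have := transfer h.step.step h'.step.step (transfer h.step h'.step (transfer h h' e)) 0
  simpa [pow_succ, mul_assoc] using this

/-! ### the Gaussians on the lattice -/

/-- the Gaussian -/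
def ga (τ : ℂ) (x : O) : ℂ := cexp (2 * π * I * τ * x.norm / 3)

theorem norm_wC : ‖wC‖ = 1 := by
  have := congrArg norm wC_cube
  rw [norm_pow, norm_one] at this
  exact (pow_eq_one_iff_of_nonneg (norm_nonneg _) (by norm_num)).1 this

theorem ss_ga {τ : ℂ} (hτ : 0 < τ.im) (k : ℂ) : SS (ga τ) fun x => k * io x := by
  intro R
  have h1 := summable_pow_mul_jacobiTheta₂_term_bound (|R| * ‖k‖ / (2 * π))
    (T := τ.im / 3) (by positivity) 0
  simp only [pow_zero, one_mul] at h1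
  have hinj : Function.Injective (fun x : O => (x.re, x.im)) := fun x y h => by
    ext
    · exact congrArg Prod.fst h
    · exact congrArg Prod.snd h
  refine ((h1.mul_of_nonneg h1 (fun _ => by positivity) (fun _ => by positivity)).comp_injective
    hinj).of_nonneg_of_le (fun x => by positivity) fun x => ?_
  have hn : ‖ga τ x‖ = Real.exp (-(2 * π * τ.im * x.norm / 3)) := by
    rw [ga, Complex.norm_exp]
    congr 1
    simp
    ring
  have hx : ‖io x‖ ≤ |(x.re : ℝ)| + |(x.im : ℝ)| := by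
    rw [io_eq]
    refine (norm_add_le _ _).trans ?_
    simp [norm_wC]
  have hR : R * ‖k * io x‖ ≤ |R| * ‖k‖ * (|(x.re : ℝ)| + |(x.im : ℝ)|) := by
    rw [norm_mul, mul_assoc]
    gcongr
    exact le_abs_self R
  have hN : ((x.re : ℝ) ^ 2 + (x.im : ℝ) ^ 2) / 2 ≤ x.norm := by
    rw [norm_eq]
    push_cast
    nlinarith [sq_nonneg ((x.re : ℝ) - x.im)]
  simp only [Function.comp, hn, ← Real.exp_add, Real.exp_le_exp, Int.cast_abs]
  have hp := Real.pi_pos
  have e : ∀ n : ℝ, -π * (τ.im / 3 * n ^ 2 - 2 * (|R| * ‖k‖ / (2 * π)) * |n|) =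
      -(π * τ.im / 3 * n ^ 2) + |R| * ‖k‖ * |n| := fun n => by field_simp; ring
  rw [e, e]
  have := mul_le_mul_of_nonneg_left hN (show 0 ≤ 2 * π * τ.im / 3 by positivity)
  linarith

/-! ### Poisson summation in two variables -/

theorem summable_gauss {A : ℂ} (hA : 0 < A.re) (B : ℂ) :
    Summable fun n : ℤ => cexp (-π * A * n ^ 2 + 2 * π * B * n) := by
  have := (summable_jacobiTheta₂_term_iff (-I * B) (I * A)).2 (by simpa using hA)
  refine this.congr fun n => ?_
  rw [jacobiTheta₂_term]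
  congr 1
  linear_combination (π * n ^ 2 * A - 2 * π * n * B) * I_sq

theorem pois2 {A C : ℂ} (hA : 0 < A.re) (hC : 0 < C.re) (U V : ℂ)
    (h1 : Summable fun p : ℤ × ℤ => cexp (-π * A * (p.2 - p.1 / 2) ^ 2 +
      2 * π * U * (p.2 - p.1 / 2) - π * C * p.1 ^ 2 + 2 * π * V * p.1))
    (h3 : Summable fun p : ℤ × ℤ =>
      cexp (-π / A * (p.1 + I * U) ^ 2 - π / C * (p.2 + p.1 / 2 + I * V) ^ 2)) :
    ∑' p : ℤ × ℤ, cexp (-π * A * (p.2 - p.1 / 2) ^ 2 +
      2 * π * U * (p.2 - p.1 / 2) - π * C * p.1 ^ 2 + 2 * π * V * p.1) =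
    1 / A ^ (1 / 2 : ℂ) * (1 / C ^ (1 / 2 : ℂ)) * ∑' p : ℤ × ℤ,
      cexp (-π / A * (p.1 + I * U) ^ 2 - π / C * (p.2 + p.1 / 2 + I * V) ^ 2) := by
  have hA0 : A ≠ 0 := fun h => by simp [h] at hA
  have hA' : 0 < (A⁻¹).re := by
    rw [Complex.inv_re]
    exact div_pos hA (Complex.normSq_pos.2 hA0)
  set f : ℤ → ℂ := fun k => cexp (-π / A * (k + I * U) ^ 2) with hf
  have sf : Summable f := by
    refine ((summable_gauss hA' (-I * U / A)).mul_left (cexp (π / A * U ^ 2))).congr fun k => ?_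
    rw [hf, ← Complex.exp_add]
    congr 1
    field_simp
    linear_combination (U ^ 2) * I_sq
  have s2 : Summable fun p : ℤ × ℤ =>
      f p.2 * cexp (-π * C * p.1 ^ 2 + 2 * π * (V - I * p.2 / 2) * p.1) := by
    refine .of_norm (((summable_gauss hC V).norm.mul_of_nonneg sf.norm (fun _ => norm_nonneg _)
      (fun _ => norm_nonneg _)).congr fun p => ?_)
    rw [norm_mul, mul_comm]
    congr 1
    have : (-π * C * p.1 ^ 2 + 2 * π * (V - I * p.2 / 2) * p.1 : ℂ) =
      -π * C * p.1 ^ 2 + 2 * π * V * p.1 + ((-π * p.2 * p.1 : ℝ) : ℂ) * I := by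
      push_cast; ring
    rw [this, Complex.exp_add (_ + _), norm_mul, Complex.norm_exp_ofReal_mul_I, mul_one]
  have e1 : ∀ b : ℤ, ∑' r : ℤ, cexp (-π * A * (r - b / 2) ^ 2 +
      2 * π * U * (r - b / 2) - π * C * b ^ 2 + 2 * π * V * b) = 1 / A ^ (1 / 2 : ℂ) *
      ∑' k : ℤ, f k * cexp (-π * C * b ^ 2 + 2 * π * (V - I * k / 2) * b) := fun b => by
    have h := Complex.tsum_exp_neg_quadratic hA (U + A * b / 2)
    calc _ = ∑' r : ℤ, cexp (-π * A * b ^ 2 / 4 - π * U * b - π * C * b ^ 2 + 2 * π * V * b) *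
          cexp (-π * A * r ^ 2 + 2 * π * (U + A * b / 2) * r) := by
          refine tsum_congr fun r => ?_
          rw [← Complex.exp_add]
          congr 1
          ring
      _ = _ := by
          rw [tsum_mul_left, h, mul_left_comm, ← tsum_mul_left]
          congr 1
          refine tsum_congr fun k => ?_
          rw [hf, ← Complex.exp_add, ← Complex.exp_add]
          congr 1
          field_simp
          linear_combination (-4 * (4 * U * A * b + A ^ 2 * b ^ 2)) * I_sq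
  have e2 : ∀ k : ℤ, ∑' b : ℤ, f k * cexp (-π * C * b ^ 2 + 2 * π * (V - I * k / 2) * b) =
      1 / C ^ (1 / 2 : ℂ) * ∑' l : ℤ,
        cexp (-π / A * (k + I * U) ^ 2 - π / C * (l + k / 2 + I * V) ^ 2) := fun k => by
    rw [tsum_mul_left, Complex.tsum_exp_neg_quadratic hC, mul_left_comm, ← tsum_mul_left]
    congr 1
    refine tsum_congr fun l => ?_
    rw [hf, ← Complex.exp_add]
    congr 1
    have : (l + I * (V - I * k / 2) : ℂ) = l + k / 2 + I * V := by
      linear_combination (-(k : ℂ) / 2) * I_sq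
    rw [this]
    ring
  rw [h1.tsum_prod, h3.tsum_prod]
  simp only [e1]
  rw [tsum_mul_left, mul_assoc, ← (show Summable (Function.uncurry fun b k : ℤ =>
    f k * cexp (-π * C * b ^ 2 + 2 * π * (V - I * k / 2) * b)) from s2).tsum_comm]
  simp only [e2]
  rw [tsum_mul_left]

/-! ### the transformation of the generating function -/

/-- the character of order three -/
def ch (x : O) : ℂ := cexp (-(2 * π * I * (2 * x.re - x.im : ℤ) / 3))

theorem norm_ch (x : O) : ‖ch x‖ = 1 := by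
  rw [ch, ← Complex.norm_exp_ofReal_mul_I (-(2 * π * (2 * x.re - x.im : ℤ) / 3))]
  congr 2
  push_cast
  ring

theorem root {A : ℂ} (hA : A ≠ 0) :
    A ^ (1 / 2 : ℂ) * (3 / 4 * A) ^ (1 / 2 : ℂ) = (√3 : ℝ) / 2 * A := by
  have h : (3 / 4 * A : ℂ) = ((3 / 4 : ℝ) : ℂ) * A := by push_cast; ring
  have h2 : cexp (Real.log (3 / 4) * (1 / 2)) = (√3 : ℝ) / 2 := by
    have : √3 / 2 = Real.exp (Real.log (3 / 4) * (1 / 2)) := by
      rw [← Real.rpow_def_of_pos (by norm_num), ← Real.sqrt_eq_rpow, Real.sqrt_div' _ (by norm_num),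
        show (4 : ℝ) = 2 ^ 2 by norm_num, Real.sqrt_sq (by norm_num)]
    have := congrArg (fun x : ℝ => (x : ℂ)) this
    push_cast at this ⊢
    exact this.symm
  rw [Complex.cpow_def_of_ne_zero hA, Complex.cpow_def_of_ne_zero (by simpa using hA), h,
    Complex.log_ofReal_mul (by norm_num) hA, add_mul, Complex.exp_add, h2, mul_left_comm,
    ← Complex.exp_add, show log A * (1 / 2) + log A * (1 / 2) = log A by ring, Complex.exp_log hA]

theorem inj_lam : Function.Injective fun y : O => 1 + lam * y := fun x y h =>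
  mul_left_cancel₀ (show lam ≠ 0 by decide) (add_left_cancel h)

/-- first coordinates -/
def eA : ℤ × ℤ ≃ O := ⟨fun p => ⟨p.2, p.1⟩, fun x => (x.im, x.re), fun _ => rfl, fun _ => rfl⟩

/-- second coordinates -/
def eB : ℤ × ℤ ≃ O := ⟨fun p => ⟨p.2, -p.1⟩, fun x => (-x.im, x.re), fun p => by simp,
  fun x => by simp⟩

theorem im_inv {τ : ℂ} (hτ : 0 < τ.im) : 0 < (-1 / τ).im := by
  have h0 : τ ≠ 0 := fun h => by simp [h] at hτ
  rw [neg_div, neg_im, one_div, inv_im, neg_div, neg_neg]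
  exact div_pos hτ (Complex.normSq_pos.2 h0)

theorem ss_l {τ : ℂ} (hτ : 0 < τ.im) : SS (fun y : O => ga (-1 / τ) (1 + lam * y))
    fun y => 2 * π * I / τ * io (1 + lam * y) := fun R =>
  (ss_ga (im_inv hτ) _ R).comp_injective inj_lam

theorem ss_r {τ : ℂ} (hτ : 0 < τ.im) (K k : ℂ) : SS (fun x : O => K * (ch x * ga τ x))
    fun x => k * io x := fun R => by
  simpa only [norm_mul K, norm_mul (ch _), norm_ch, one_mul, mul_assoc] using
    (ss_ga hτ k R).mul_left ‖K‖

theorem gen {τ : ℂ} (hτ : 0 < τ.im) (z : ℂ) :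
    ∑' y : O, ga (-1 / τ) (1 + lam * y) * cexp (2 * π * I / τ * io (1 + lam * y) * z) =
    ∑' x : O, τ / (I * (√3 : ℝ)) * (ch x * ga τ x) * cexp (2 * π * I * io x * z) := by
  have h0 : τ ≠ 0 := fun h => by simp [h] at hτ
  obtain ⟨t, ht⟩ : ∃ t, t = 1 / τ := ⟨_, rfl⟩
  have htτ : t * τ = 1 := by rw [ht]; field_simp
  have hA : 0 < (2 * I * t).re := by
    have := im_inv hτ
    rw [neg_div, ← ht] at this
    simp at this ⊢
    linarith
  have hC : 0 < (3 / 4 * (2 * I * t)).re := by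
    rw [show (3 / 4 * (2 * I * t) : ℂ) = ((3 / 4 : ℝ) : ℂ) * (2 * I * t) by push_cast; ring,
      Complex.re_ofReal_mul]
    positivity
  have hA0 : 2 * I * t ≠ 0 := fun h => by simp [h] at hA
  set c := cexp (2 * π * I * t * (z - 1 / 3)) with hc
  have hc0 : c ≠ 0 := Complex.exp_ne_zero _
  have eL : ∀ p : ℤ × ℤ, ga (-1 / τ) (1 + lam * eA p) *
      cexp (2 * π * I / τ * io (1 + lam * eA p) * z) = c * cexp (-π * (2 * I * t) *
        (p.2 - p.1 / 2) ^ 2 + 2 * π * (I * z * t * (1 + 2 * wC)) * (p.2 - p.1 / 2) -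
        π * (3 / 4 * (2 * I * t)) * p.1 ^ 2 + 2 * π * (I * t * (1 - 3 * z / 2)) * p.1) := by
    intro p
    rw [ga, hc, ← Complex.exp_add, ← Complex.exp_add, neg_div, div_eq_mul_one_div (2 * π * I) τ, ← ht,
      norm_eq, map_add, map_mul, map_one, io_lam, io_eq]
    congr 1
    simp only [eA, lam, Equiv.coe_fn_mk, QuadraticAlgebra.re_add, QuadraticAlgebra.im_add,
      QuadraticAlgebra.re_mul, QuadraticAlgebra.im_mul, QuadraticAlgebra.re_one,
      QuadraticAlgebra.im_one]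
    push_cast
    linear_combination (4 * π * I * t * z * p.1) * wC_sq
  have iA : -(π : ℂ) / (2 * I * t) = π * I * τ / 2 := by
    rw [div_eq_iff hA0]
    linear_combination (-π * t * τ) * I_sq + π * htτ
  have iC : (π : ℂ) / (3 / 4 * (2 * I * t)) = -(2 * π * I * τ / 3) := by
    rw [div_eq_iff (mul_ne_zero (by norm_num) hA0)]
    linear_combination (π * t * τ) * I_sq - π * htτ
  have eR : ∀ p : ℤ × ℤ, ch (eB p) * ga τ (eB p) * cexp (2 * π * I * io (eB p) * z) =
      c * cexp (-π / (2 * I * t) * (p.1 + I * (I * z * t * (1 + 2 * wC))) ^ 2 -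
        π / (3 / 4 * (2 * I * t)) * (p.2 + p.1 / 2 + I * (I * t * (1 - 3 * z / 2))) ^ 2) := by
    intro p
    have a1 : I * (I * z * t * (1 + 2 * wC)) = -(z * t * (1 + 2 * wC)) := by
      linear_combination (z * t * (1 + 2 * wC)) * I_sq
    have a2 : I * (I * t * (1 - 3 * z / 2)) = -(t * (1 - 3 * z / 2)) := by
      linear_combination (t * (1 - 3 * z / 2)) * I_sq
    rw [ga, ch, hc, ← Complex.exp_add, ← Complex.exp_add, ← Complex.exp_add, iA, iC, a1, a2,
      norm_eq, io_eq]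
    congr 1
    simp only [eB, Equiv.coe_fn_mk]
    push_cast
    linear_combination (π * I * (p.1 * z * (1 + 2 * wC) + 3 / 2 * z ^ 2 * t +
      4 / 3 * (p.2 + p.1 / 2) * (1 - 3 * z / 2) - 2 / 3 * t * (1 - 3 * z / 2) ^ 2)) * htτ -
      (2 * π * I * τ * z ^ 2 * t ^ 2) * wC_sq
  have sL := ((ss_l hτ).summable z).comp_injective eA.injective
  have sR := ((ss_r hτ 1 (2 * π * I)).summable z).comp_injective eB.injective
  simp only [Function.comp_def, one_mul, eL, eR, summable_mul_left_iff hc0] at sL sR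
  have hK : 1 / (2 * I * t) ^ (1 / 2 : ℂ) * (1 / (3 / 4 * (2 * I * t)) ^ (1 / 2 : ℂ)) =
      τ / (I * (√3 : ℝ)) := by
    have : ((√3 : ℝ) : ℂ) ≠ 0 := by simp
    rw [one_div_mul_one_div, root hA0, ht]
    field_simp
  rw [← eA.tsum_eq, ← eB.tsum_eq]
  simp only [eL, mul_assoc (τ / _), eR]
  rw [tsum_mul_left, tsum_mul_left, tsum_mul_left, pois2 hA hC _ _ sL sR, hK, mul_left_comm]

/-! ### the residue classes -/

/-- the cube times the Gaussian -/
def hh (τ : ℂ) (x : O) : ℂ := ga τ x * io x ^ 3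

theorem hh_neg (τ : ℂ) (x : O) : hh τ (-x) = -hh τ x := by
  simp only [hh, ga, QuadraticAlgebra.norm_neg, map_neg]
  ring

theorem hh_om (τ : ℂ) (x : O) : hh τ (om * x) = hh τ x := by
  simp only [hh, ga, map_mul, mul_pow, io_om, wC_cube, show om.norm = 1 by decide, one_mul]

theorem odd_zero {f : O → ℂ} (h : ∀ x, f (-x) = -f x) : ∑' x, f x = 0 := by
  have := (Equiv.neg O).tsum_eq f
  simp only [Equiv.neg_apply, h, tsum_neg] at this
  linear_combination (-1 / 2 : ℂ) * this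

theorem lam_iff (x : O) : lam ∣ x - 1 ↔ (2 * x.re - x.im) % 3 = 2 := by
  constructor
  · rintro ⟨y, hy⟩
    have h1 := congrArg QuadraticAlgebra.re hy
    have h2 := congrArg QuadraticAlgebra.im hy
    simp [lam, QuadraticAlgebra.re_one, QuadraticAlgebra.im_one] at h1 h2
    omega
  · intro h
    refine ⟨⟨x.re - 1 + 2 * ((2 - (2 * x.re - x.im)) / 3), (2 - (2 * x.re - x.im)) / 3⟩, ?_⟩
    ext <;> simp [lam, QuadraticAlgebra.re_one, QuadraticAlgebra.im_one] <;> omega

theorem exp_third : cexp (-(2 * π * I / 3)) = -1 / 2 - I * (√3 : ℝ) / 2 := by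
  have : -(2 * π * I / 3) = ((π / 3 - π : ℝ) : ℂ) * I := by push_cast; ring
  rw [this, Complex.exp_mul_I, ← Complex.ofReal_cos, ← Complex.ofReal_sin, Real.cos_sub_pi,
    Real.sin_sub_pi, Real.cos_pi_div_three, Real.sin_pi_div_three]
  push_cast
  ring

theorem ch_eq (x : O) : ch x = (-1 / 2 - I * (√3 : ℝ) / 2) ^ ((2 * x.re - x.im) % 3).toNat := by
  rw [← exp_third, ← Complex.exp_nat_mul, ch]
  generalize 2 * x.re - x.im = n
  have h1 : (((n % 3).toNat : ℤ) : ℂ) = (n - 3 * (n / 3) : ℤ) := by congr 1; omega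
  rw [Complex.exp_eq_exp_iff_exists_int]
  refine ⟨-(n / 3), ?_⟩
  push_cast at h1 ⊢
  rw [h1]
  ring

open Classical in
theorem hasSum_cls (hA : AriStmt) (hT : ThaStmt) (τ : ℍ) :
    HasSum (fun x => if lam ∣ x - 1 then hh τ x else 0) (3 * Th τ) := by
  let e : O ≃ O := ⟨fun x => om * x, fun x => om ^ 2 * x,
    fun x => by linear_combination x * om_cube,
    fun x => by linear_combination x * om_cube⟩
  have h0 : HasSum (term τ) (Th τ) := (hT.summable τ).hasSum
  have h1 := e.hasSum_iff.2 h0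
  have h2 := e.hasSum_iff.2 h1
  have ht : ∀ x, term τ x = if Primary x then hh τ x else 0 := fun x => by
    simp only [term, hh, ga, mul_comm]
  convert (h0.add h1).add h2 using 1
  · funext x
    have a1 := hA.cls_ne x
    have a2 := hA.cls_ne (om * x)
    have a3 : om * (om * x) = om ^ 2 * x := by ring
    simp only [Function.comp, e, Equiv.coe_fn_mk, ht, hh_om, hA.cls, a3] at a2 ⊢
    rw [← a3, hh_om, hh_om, a3]
    by_cases b1 : Primary x <;> by_cases b2 : Primary (om * x) <;>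
      by_cases b3 : Primary (om ^ 2 * x) <;> simp_all
  · ring

theorem sum_l (hA : AriStmt) (hT : ThaStmt) (τ : ℍ) :
    ∑' y : O, hh τ (1 + lam * y) = 3 * Th τ := by
  classical
  rw [← (hasSum_cls hA hT τ).tsum_eq,
    ← inj_lam.tsum_eq (f := fun x => if lam ∣ x - 1 then hh τ x else 0)]
  · simp
  · intro x hx
    have : lam ∣ x - 1 := by
      by_contra h
      simp [h] at hx
    obtain ⟨y, hy⟩ := this
    exact ⟨y, by simp only [← hy]; ring⟩

theorem sum_r (hA : AriStmt) (hT : ThaStmt) (τ : ℍ) :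
    ∑' x : O, ch x * hh τ x = I * (√3 : ℝ) * (3 * Th τ) := by
  classical
  have h1 := (hasSum_cls hA hT τ).mul_left (I * (√3 : ℝ))
  have h2 : Summable fun x => ch x * hh τ x := by
    simpa [hh, pow_succ, mul_assoc] using (ss_r τ.im_pos 1 1).step.step.step.summable 0
  have h3 := h2.tsum_sub h1.summable
  rw [h1.tsum_eq, odd_zero] at h3
  · exact (sub_eq_zero.1 h3.symm)
  · intro x
    have s3 : ((√3 : ℝ) : ℂ) ^ 2 = 3 := by
      rw [← Complex.ofReal_pow, Real.sq_sqrt (by norm_num)]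
      norm_num
    simp only [hh_neg, ch_eq, lam_iff, QuadraticAlgebra.re_neg, QuadraticAlgebra.im_neg]
    rw [show 2 * -x.re - -x.im = -(2 * x.re - x.im) by ring]
    generalize 2 * x.re - x.im = n
    have : n % 3 = 0 ∧ -n % 3 = 0 ∨ n % 3 = 1 ∧ -n % 3 = 2 ∨ n % 3 = 2 ∧ -n % 3 = 1 := by omega
    rcases this with ⟨a, b⟩ | ⟨a, b⟩ | ⟨a, b⟩ <;> simp [a, b]
    · linear_combination (-hh τ x * (√3 : ℝ) ^ 2 / 4) * I_sq + hh τ x / 4 * s3
    · linear_combination (hh τ x * (√3 : ℝ) ^ 2 / 4) * I_sq - hh τ x / 4 * s3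

end ThsP

open ThsP in
theorem ths (hA : AriStmt) (hT : ThaStmt) : ThsStmt := by
  funext τ
  have h0 : (τ : ℂ) ≠ 0 := τ.ne_zero
  have h := cube (ss_l τ.im_pos) (ss_r τ.im_pos _ _) (gen τ.im_pos)
  have hl := sum_l hA hT (.mk _ τ.im_inv_neg_coe_pos)
  have e1 : (-(τ : ℂ))⁻¹ = -1 / τ := by field_simp
  have e2 : ∀ y : O, ga (-1 / τ) (1 + lam * y) * (2 * π * I / τ * io (1 + lam * y)) ^ 3 =
      (2 * π * I / τ) ^ 3 * hh (-1 / τ) (1 + lam * y) := fun y => by rw [hh]; ring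
  have e3 : ∀ x : O, τ / (I * (√3 : ℝ)) * (ch x * ga τ x) * (2 * π * I * io x) ^ 3 =
      τ / (I * (√3 : ℝ)) * (2 * π * I) ^ 3 * (ch x * hh τ x) := fun x => by rw [hh]; ring
  simp only [e1] at hl
  simp only [e2, e3, tsum_mul_left, hl, sum_r hA hT] at h
  rw [SlashInvariantForm.slash_S_apply]
  have : ((√3 : ℝ) : ℂ) ≠ 0 := by simp
  have hp : (π : ℂ) ≠ 0 := by simp
  simp only [e1]
  field_simp at h ⊢
  exact h

end Pool.Agent.MP_59efd2_nt.CM

end
end MrgPart4

-- ======== part 5: formerly Pool.Agent.MP_59efd2_nt.cm.Prd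
section MrgPart5

/-!
Row PROD: the multiplication formulas.
-/

noncomputable section

namespace Pool.Agent.MP_59efd2_nt.CM

open Complex PeriodPair Filter Topology
open scoped Real
open Pool.Agent.MP_db1c88_nt.QRH (O om lam wC io)

namespace Prod

variable {L : PeriodPair} {κ : ℂ} (H : Hex L κ) {γ : O}

theorem mk_out (q : O ⧸ Ideal.span {γ}) : Ideal.Quotient.mk _ q.out = q := Quotient.out_eq q

theorem mul_tp (h : γ ≠ 0) (q : O ⧸ Ideal.span {γ}) : io γ * tp γ q = io q.out :=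
  mul_div_cancel₀ _ (io_ne h)

theorem tp_zero (h : γ ≠ 0) : Lat (tp γ 0) :=
  (lat_div h).2 (Ideal.mem_span_singleton.1 (Ideal.Quotient.eq_zero_iff_mem.1 (mk_out 0)))

theorem tp_neg (h : γ ≠ 0) (q : O ⧸ Ideal.span {γ}) : Lat (tp γ q + tp γ (-q)) := by
  rw [tp, tp, ← add_div, ← map_add]
  refine (lat_div h).2 (Ideal.mem_span_singleton.1 (Ideal.Quotient.eq_zero_iff_mem.1 ?_))
  rw [map_add, mk_out, mk_out, add_neg_cancel]

theorem np_tp (h : lam ∣ γ - 1) {z : ℂ} (hz : ¬ Pole (io γ * z)) (q : O ⧸ Ideal.span {γ}) :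
    ¬ Pole (z + tp γ q) := fun h1 => hz (by
  have := h1.mul h
  rwa [mul_add, mul_tp (ne_zero_of_lam h), pole_add (lat_io _)] at this)

theorem lat_gz0 (h : lam ∣ γ - 1) : Lat (io γ * z0 - z0) := by
  simpa [sub_mul] using lat_mul_z0.2 h

/-- points off the dual lattice -/
def N (u : ℂ) : Prop := ¬ Lat (io lam * u)

theorem N.nl {u : ℂ} (h : N u) : ¬ Lat u := fun h1 => h (h1.mul lam)

theorem N.np {u : ℂ} (h : N u) : ¬ Pole u := fun h1 => h (by
  have := (Lat.mul lam h1).sub (lat_io 1)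
  rwa [mul_add, lam_z0, map_one, add_sub_cancel_right] at this)

theorem N.tp (h : γ ≠ 0) {z : ℂ} (hz : N (io γ * z)) (q : O ⧸ Ideal.span {γ}) :
    N (z + tp γ q) := fun h1 => hz (by
  have := (h1.mul γ).sub ((lat_io q.out).mul lam)
  rwa [← mul_tp h, show io γ * (io lam * (z + CM.tp γ q)) - io lam * (io γ * CM.tp γ q) =
    io lam * (io γ * z) by ring] at this)

theorem N.add {z w : ℂ} (hz : N (io γ * z)) (hw : Lat w) : N (io γ * (z + w)) := fun h1 => hz (by
  have := h1.sub ((hw.mul γ).mul lam)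
  rwa [show io lam * (io γ * (z + w)) - io lam * (io γ * w) = io lam * (io γ * z) by ring] at this)

include H

theorem sumQ (z : ℂ) : HasSum (fun x : O => -2 / (κ * z - κ * io x) ^ 3) (℘'[L] (κ * z)) := by
  let e : O → L.lattice := fun x => ⟨κ * io x, (H.mem _).2 (lat_io x)⟩
  have he : Function.Bijective e := by
    refine ⟨fun x y h => io_injective (mul_left_cancel₀ H.ne (congrArg Subtype.val h)), fun l => ?_⟩
    obtain ⟨x, hx⟩ := (H.mem (l / κ)).1 (by rw [mul_div_cancel₀ _ H.ne]; exact l.2)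
    exact ⟨x, Subtype.ext (by simp only [e, ← hx, mul_div_cancel₀ _ H.ne])⟩
  exact (Equiv.ofBijective e he).hasSum_iff.2 (L.hasSum_derivWeierstrassP (κ * z))

theorem mulQ [Fintype (O ⧸ Ideal.span {γ})] (h : γ ≠ 0) (z : ℂ) :
    io γ ^ 3 * ℘'[L] (κ * (io γ * z)) = ∑ q, ℘'[L] (κ * (z + tp γ q)) := by
  let e : (O ⧸ Ideal.span {γ}) × O → O := fun p => γ * p.2 - p.1.out
  have hm : ∀ p, Ideal.Quotient.mk (Ideal.span {γ}) (e p) = -p.1 := fun p => by
    simp only [e, map_sub, mk_out, Ideal.Quotient.eq_zero_iff_mem.2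
      (Ideal.mem_span_singleton.2 (dvd_mul_right γ p.2)), zero_sub]
  have he : Function.Bijective e := by
    refine ⟨fun p p' hp => ?_, fun x => ?_⟩
    · have h1 : p.1 = p'.1 := neg_injective (by rw [← hm, ← hm, hp])
      refine Prod.ext h1 (mul_left_cancel₀ h ?_)
      simp only [e, h1] at hp
      exact sub_left_injective hp
    · obtain ⟨y, hy⟩ : γ ∣ x + (-Ideal.Quotient.mk (Ideal.span {γ}) x).out :=
        Ideal.mem_span_singleton.1 (Ideal.Quotient.eq_zero_iff_mem.1 (by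
          rw [map_add, mk_out, add_neg_cancel]))
      exact ⟨(-Ideal.Quotient.mk _ x, y), by simp only [e, ← hy, add_sub_cancel_right]⟩
  have h1 := (Equiv.ofBijective e he).hasSum_iff.2 ((sumQ H (io γ * z)).mul_left (io γ ^ 3))
  refine (h1.prod_fiberwise fun q => ?_).unique (hasSum_fintype _)
  refine (congrArg (HasSum · _) (funext fun y => ?_)).mpr (sumQ H (z + tp γ q))
  have hg := io_ne h
  have e1 : κ * (io γ * z) - κ * io (γ * y - q.out) = io γ * (κ * (z + tp γ q) - κ * io y) := by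
    rw [map_sub, map_mul, ← mul_tp h]; ring
  simp only [Function.comp, Equiv.ofBijective_apply, e, e1, mul_pow]
  rw [← mul_div_assoc, mul_div_mul_left _ _ (pow_ne_zero 3 hg)]

theorem nmem {u : ℂ} (h : ¬ Lat u) : κ * u ∉ L.lattice := mt (H.mem u).1 h

theorem dP {u : ℂ} (h : ¬ Lat u) :
    HasDerivAt (fun z => ℘[L] (κ * z)) (℘'[L] (κ * u) * κ) u :=
  ((ELL.dP (nmem H h)).comp u ((hasDerivAt_id u).const_mul κ)).congr_deriv (by rw [mul_one])

theorem dt {u : ℂ} (h : ¬ Pole u) : HasDerivAt (tt L κ) (κ * (2 * ss L κ u + 1)) u :=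
  ((dP H h).comp_add_const u z0).congr_deriv (by rw [ss]; ring)

theorem ds {u : ℂ} (h : ¬ Pole u) : HasDerivAt (ss L κ) (3 * κ * tt L κ u ^ 2) u := by
  have h1 := (ELL.dP' (nmem H h)).comp u (((hasDerivAt_id u).add_const z0).const_mul κ)
  refine ((h1.sub_const 1).div_const 2).congr_deriv ?_
  rw [tt, H.g2]; ring

variable (L κ) in
/-- logarithmic derivative of the second coordinate -/
def f1 (u : ℂ) : ℂ := 3 * κ * tt L κ u ^ 2 / ss L κ u

variable (L κ) in
/-- its derivative -/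
def f2 (u : ℂ) : ℂ := 3 * κ ^ 2 * (℘[L] (κ * (u + z0)) - ℘[L] (κ * u))

theorem d2 {u : ℂ} (h : N u) :
    HasDerivAt (f2 L κ) (3 * κ ^ 3 * (℘'[L] (κ * (u + z0)) - ℘'[L] (κ * u))) u :=
  ((((dP H h.np).comp_add_const u z0).sub (dP H h.nl)).const_mul (3 * κ ^ 2)).congr_deriv
    (by ring)

theorem cnt {a : O} (h : a ≠ 0) : {z | Lat (io a * z)}.Countable := by
  have : {z | Lat (io a * z)} = (fun z => κ * (io a * z)) ⁻¹' L.lattice :=
    Set.ext fun z => (H.mem _).symm
  rw [this]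
  exact (ELL.cnt L).preimage_of_injOn fun x _ y _ hxy =>
    mul_left_cancel₀ (io_ne h) (mul_left_cancel₀ H.ne hxy)

theorem ev {f : ℂ → ℂ} (hf : Continuous f) {z : ℂ} (h : ¬ Lat (f z)) :
    ∀ᶠ w in 𝓝 z, ¬ Lat (f w) :=
  (ELL.ev_off' (L := L) (f := fun w => κ * f w) (by fun_prop) (nmem H h)).mono
    fun w hw => mt (H.mem _).2 hw

theorem cntN (h : γ ≠ 0) : {z | N (io γ * z)}ᶜ.Countable := by
  refine (cnt H (mul_ne_zero (show lam ≠ 0 by decide) h)).mono fun z hz => ?_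
  simpa [N, mul_assoc] using hz

theorem cst (h : γ ≠ 0) {f : ℂ → ℂ} (hf : ∀ z, N (io γ * z) → HasDerivAt f 0 z) :
    ∃ c, ∀ z, N (io γ * z) → f z = c := by
  have ho : IsOpen {z | N (io γ * z)} := isOpen_iff_mem_nhds.2 fun z hz =>
    ev H (f := fun w => io lam * (io γ * w)) (by fun_prop) hz
  have hc := ((cntN H h).isConnected_compl_of_one_lt_rank (by simp)).2
  rw [compl_compl] at hc
  exact ho.exists_is_const_of_deriv_eq_zero hc
    (fun z hz => (hf z hz).differentiableAt.differentiableWithinAt) fun z hz => (hf z hz).deriv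

variable (C : Cur (tt L κ) (ss L κ))
include C

omit H in
theorem sne {u : ℂ} (h : N u) : ss L κ u ≠ 0 := fun h0 => h.nl (C.lat_of_s h.np h0)

theorem d0 {u : ℂ} (h : N u) : HasDerivAt (ss L κ) (ss L κ u * f1 L κ u) u :=
  (ds H h.np).congr_deriv (by rw [f1, mul_div_cancel₀ _ (sne C h)])

theorem d1 {u : ℂ} (h : N u) : HasDerivAt (f1 L κ) (f2 L κ u) u := by
  have h0 := sne C h
  have e := C.eqn u h.np
  have r := (C.refl h.np h0).2.1
  rw [tt, show κ * (-u - z0 + z0) = -(κ * u) by ring, weierstrassP_neg] at r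
  refine ((((dt H h.np).pow 2).const_mul (3 * κ)).div (ds H h.np) h0).congr_deriv ?_
  rw [f2, r, ← tt]
  simp only [Pi.pow_apply]
  field_simp
  linear_combination 3 * κ ^ 2 * tt L κ u * e

variable [Fintype (O ⧸ Ideal.span {γ})]

theorem upto (h : lam ∣ γ - 1) : ∃ c, ∀ z, N (io γ * z) →
    ss L κ (io γ * z) = c * ∏ q, ss L κ (z + tp γ q) := by
  classical
  have h0 := ne_zero_of_lam h
  have dg : ∀ z, HasDerivAt (fun z => io γ * z) (io γ) z := fun z => by
    simpa using (hasDerivAt_id z).const_mul (io γ)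
  obtain ⟨c2, k2⟩ := cst H h0
    (f := fun z => f2 L κ (io γ * z) * io γ ^ 2 - ∑ q, f2 L κ (z + tp γ q)) fun z hz => by
      refine ((((d2 H hz).comp z (dg z)).mul_const _).sub (HasDerivAt.fun_sum fun q _ =>
        (d2 H (hz.tp h0 q)).comp_add_const z _)).congr_deriv ?_
      have a1 := mulQ H h0 z
      have a2 := mulQ H h0 (z + z0)
      have a3 := ELL.P'_add ((H.mem _).2 (lat_gz0 h)) (κ * (io γ * z + z0))
      rw [show κ * (io γ * z + z0) + κ * (io γ * z0 - z0) = κ * (io γ * (z + z0)) by ring] at a3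
      simp only [add_right_comm z z0] at a2
      rw [← Finset.mul_sum, Finset.sum_sub_distrib, ← a1, ← a2, a3]
      ring
  obtain ⟨c1, k1⟩ := cst H h0
    (f := fun z => f1 L κ (io γ * z) * io γ - ∑ q, f1 L κ (z + tp γ q) - c2 * z) fun z hz => by
      refine (((((d1 H C hz).comp z (dg z)).mul_const _).sub (HasDerivAt.fun_sum fun q _ =>
        (d1 H C (hz.tp h0 q)).comp_add_const z _)).sub
          ((hasDerivAt_id z).const_mul c2)).congr_deriv ?_
      rw [← k2 z hz]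
      ring
  obtain ⟨p, hp⟩ : ∃ p, N (io γ * p) := by
    have := ((cntN H h0).dense_compl ℂ).nonempty
    rwa [compl_compl] at this
  have per : ∀ {f : ℂ → ℂ}, (∀ w, Lat w → ∀ z, f (z + w) = f z) → ∀ w, Lat w →
      f (io γ * (p + w)) = f (io γ * p) ∧ ∀ q, f (p + w + tp γ q) = f (p + tp γ q) :=
    fun hf w hw => ⟨by rw [mul_add, hf _ (hw.mul γ)], fun q => by rw [add_right_comm, hf _ hw]⟩
  have l1 : Lat 1 := ⟨1, by simp⟩
  have lw : Lat wC := ⟨om, io_om.symm⟩
  have e2 : c2 = 0 := by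
    have a1 := k1 p hp
    have a2 := k1 _ (hp.add l1)
    obtain ⟨b1, b2⟩ := per (f := f1 L κ)
      (fun w hw z => by rw [f1, f1, C.t_add hw, C.s_add hw]) 1 l1
    simp only [b1, b2] at a2
    linear_combination a1 - a2
  have pne : ∀ z, N (io γ * z) → ∏ q, ss L κ (z + tp γ q) ≠ 0 := fun z hz =>
    Finset.prod_ne_zero_iff.2 fun q _ => sne C (hz.tp h0 q)
  obtain ⟨c0, k0⟩ := cst H h0
    (f := fun z => ss L κ (io γ * z) / (∏ q, ss L κ (z + tp γ q)) * cexp (-c1 * z)) fun z hz => by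
      have a1 : HasDerivAt (fun z => ∏ q, ss L κ (z + tp γ q))
          ((∏ q, ss L κ (z + tp γ q)) * ∑ q, f1 L κ (z + tp γ q)) z := by
        refine (HasDerivAt.fun_finsetProd fun q _ =>
          (d0 H C (hz.tp h0 q)).comp_add_const z _).congr_deriv ?_
        rw [Finset.mul_sum]
        refine Finset.sum_congr rfl fun q hq => ?_
        rw [smul_eq_mul, ← mul_assoc,
          Finset.prod_erase_mul _ (fun q => ss L κ (z + tp γ q)) hq]
      refine ((((d0 H C hz).comp z (dg z)).div a1 (pne z hz)).mul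
        ((hasDerivAt_id z).const_mul (-c1)).cexp).congr_deriv ?_
      have a2 := k1 z hz
      have a3 := pne z hz
      rw [e2] at a2
      simp only [Pi.div_apply, Function.comp, id]
      rw [← a2]
      field_simp
      ring
  have ex : ∀ w, Lat w → ∃ m : ℤ, -c1 * w = m * (2 * π * I) := fun w hw => by
    have a1 := k0 p hp
    have a2 := k0 _ (hp.add hw)
    obtain ⟨b1, b2⟩ := per (f := ss L κ) (fun w hw z => C.s_add hw z) w hw
    simp only [b1, b2] at a2
    have a3 := mul_left_cancel₀ (div_ne_zero (sne C hp) (pne p hp)) (a2.trans a1.symm)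
    rw [mul_add, exp_add] at a3
    exact exp_eq_one_iff.1 (mul_left_cancel₀ (exp_ne_zero _) (a3.trans (mul_one _).symm))
  have e1 : c1 = 0 := by
    obtain ⟨m, hm⟩ := ex 1 l1
    obtain ⟨k, hk⟩ := ex wC lw
    have a1 : (m : ℂ) * wC = k :=
      mul_right_cancel₀ two_pi_I_ne_zero (by linear_combination hk - wC * hm)
    have a2 : (⟨0, m⟩ : O) = ⟨k, 0⟩ := io_injective (by simpa [io_mk] using a1)
    have a3 : m = 0 := congrArg QuadraticAlgebra.im a2
    simpa [a3] using hm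
  refine ⟨c0, fun z hz => ?_⟩
  have := k0 z hz
  rw [e1, neg_zero, zero_mul, exp_zero, mul_one, div_eq_iff (pne z hz)] at this
  exact this

omit C [Fintype (O ⧸ Ideal.span {γ})] in
theorem contP (h : lam ∣ γ - 1) {z : ℂ} (hz : ¬ Pole (io γ * z))
    (T : Finset (O ⧸ Ideal.span {γ})) : ContinuousAt (fun z => ∏ q ∈ T, ss L κ (z + tp γ q)) z :=
  tendsto_finsetProd _ fun q _ => ((ds H (np_tp h hz q)).comp_add_const z _).continuousAt

omit H in
theorem at_z0 [DecidableEq (O ⧸ Ideal.span {γ})] (h : lam ∣ γ - 1) (h2 : IsCoprime γ 2)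
    (hz : ¬ Pole (io γ * z0)) : ∏ q, ss L κ (z0 + tp γ q) = -1 := by
  have h0 := ne_zero_of_lam h
  rw [← Finset.mul_prod_erase _ _ (Finset.mem_univ 0), C.s_add (tp_zero h0), C.sz,
    Finset.prod_involution (fun q _ => -q) ?_ ?_ (by simp) (by simp), mul_one]
  · intro q _
    have a1 := np_tp h hz q
    have a2 : ss L κ (z0 + tp γ q) ≠ 0 := fun e => not_lat_z0 (by
      have := ((C.lat_of_s a1 e).mul γ).sub ((lat_io q.out).add (lat_gz0 h))
      rwa [mul_add, mul_tp h0, show io γ * z0 + io q.out - (io q.out + (io γ * z0 - z0)) = z0 by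
        ring] at this)
    have a3 := (C.refl a1 a2).2.2
    rw [← C.s_add (lat_three_z0.add (tp_neg h0 q)), show -(z0 + tp γ q) - z0 +
      (3 * z0 + (tp γ q + tp γ (-q))) = z0 + tp γ (-q) by ring] at a3
    rw [a3, mul_one_div_cancel a2]
  · intro q hq _ e
    obtain ⟨a, b, hab⟩ := h2
    have a1 := congrArg (Ideal.Quotient.mk (Ideal.span {γ})) hab
    rw [map_add, Ideal.Quotient.eq_zero_iff_mem.2
      (Ideal.mem_span_singleton.2 (dvd_mul_left γ a)), map_mul, map_ofNat, map_one] at a1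
    refine (Finset.mem_erase.1 hq).1 ?_
    linear_combination -q * a1 - Ideal.Quotient.mk (Ideal.span {γ}) b * e

theorem prod (h : lam ∣ γ - 1) (h2 : IsCoprime γ 2) (z : ℂ) (hz : ¬ Pole (io γ * z)) :
    ss L κ (io γ * z) = ∏ q, ss L κ (z + tp γ q) := by
  classical
  obtain ⟨c, hc⟩ := upto H C h
  have all : ∀ z, ¬ Pole (io γ * z) → ss L κ (io γ * z) = c * ∏ q, ss L κ (z + tp γ q) := by
    intro z hz
    have a1 : ContinuousAt (fun z => ss L κ (io γ * z)) z :=
      ContinuousAt.comp (f := fun z => io γ * z) (ds H hz).continuousAt (by fun_prop)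
    refine tendsto_nhds_unique_of_frequently_eq a1 ((contP H h hz _).const_mul c) ?_
    have a2 := (cntN H (ne_zero_of_lam h)).dense_compl ℂ z
    rw [compl_compl] at a2
    exact (mem_closure_iff_frequently.1 a2).mono hc
  have e : io γ * z0 = z0 + (io γ * z0 - z0) := by ring
  have hz0 : ¬ Pole (io γ * z0) := by rw [e, pole_add (lat_gz0 h)]; exact npole_z0
  have := all z0 hz0
  rw [at_z0 C h h2 hz0, e, C.s_add (lat_gz0 h), C.sz] at this
  rw [all z hz, show c = 1 by linear_combination this, one_mul]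

theorem lead [DecidableEq (O ⧸ Ideal.span {γ})] (h : lam ∣ γ - 1) (h2 : IsCoprime γ 2) :
    ∏ q ∈ Finset.univ.erase 0, ss L κ (tp γ q) = io γ ^ 3 := by
  have n0 := npole_lat lat_zero
  have ng : ¬ Pole (io γ * 0) := by rwa [mul_zero]
  have dg : HasDerivAt (fun z => io γ * z) (io γ) 0 := by
    simpa using (hasDerivAt_id (0 : ℂ)).const_mul (io γ)
  have le : 𝓝[≠] (0 : ℂ) ≤ 𝓝 0 := nhdsWithin_le_nhds
  have t1 := (dt H n0).tendsto_slope_zero
  have t2 := ((dt H ng).comp 0 dg).tendsto_slope_zero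
  have s1 := (ds H n0).continuousAt.tendsto.mono_left le
  have s2 := ((ds H ng).comp 0 dg).continuousAt.tendsto.mono_left le
  have r := (contP H h ng (Finset.univ.erase 0)).tendsto.mono_left le
  simp only [Function.comp, zero_add, mul_zero, C.t0, C.s0, sub_zero, smul_eq_mul,
    mul_one] at t1 t2 s1 s2 r
  have := tendsto_nhds_unique_of_eventuallyEq ((t2.pow 3).mul (s1.const_add 1))
    (((t1.pow 3).mul r).mul (s2.const_add 1)) (by
      filter_upwards [le (ev H (f := fun w => w + z0) (by fun_prop) n0),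
        le (ev H (f := fun w => io γ * w + z0) (by fun_prop) ng)] with z a1 a2
      have a3 := prod H C h h2 z a2
      rw [← Finset.mul_prod_erase _ _ (Finset.mem_univ 0),
        C.s_add (tp_zero (ne_zero_of_lam h))] at a3
      rw [mul_pow, mul_pow, ← C.eqn z a1, ← C.eqn _ a2]
      simp only [Function.comp]
      linear_combination z⁻¹ ^ 3 * (1 + ss L κ (io γ * z)) * (1 + ss L κ z) * a3)
  refine mul_left_cancel₀ (pow_ne_zero 3 H.ne) ?_
  linear_combination -this

end Prod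

theorem prd : PrdStmt := fun _ _ H C =>
  ⟨fun _ _ h h2 => Prod.prod H C h h2, fun _ _ _ h h2 => Prod.lead H C h h2⟩

end Pool.Agent.MP_59efd2_nt.CM

end
end MrgPart5

-- ======== part 6: formerly Pool.Agent.MP_59efd2_nt.cm.Gal
section MrgPart6

/-!
The Galois action on the torsion points.
-/

noncomputable section

namespace Pool.Agent.MP_59efd2_nt.CM

open Filter Topology
open Pool.Agent.MP_db1c88_nt.QRH (O om lam wC io)

namespace Gal

variable {t s : ℂ → ℂ} {g : GQ} {u u' v v' : ℂ}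

/-- `g` maps the point with parameter `u` to the point with parameter `u'` -/
def Rel (t s : ℂ → ℂ) (g : GQ) (u u' : ℂ) : Prop :=
  ¬ Pole u ∧ ¬ Pole u' ∧ Eqv g (t u) (t u') ∧ Eqv g (s u) (s u')

theorem third (h : Cur t s) (hu : Rel t s g u u') (hv : Rel t s g v v') (hn : ¬ Pole (-u - v)) :
    Rel t s g (-u - v) (-u' - v') := by
  obtain ⟨pu, pu', tu, su⟩ := hu
  obtain ⟨pv, pv', tv, sv⟩ := hv
  have eu := h.eqn u pu
  have ev := h.eqn v pv
  have q1 := ((Eqv.one g).add su).add sv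
  have q2 := ((tu.pow 2).add (tu.mul tv)).add (tv.pow 2)
  obtain ⟨a, a', ha, h1, h2⟩ : ∃ a a', Eqv g a a' ∧ a * (t u - t v) = s u - s v ∧
      a * (1 + s u + s v) = t u ^ 2 + t u * t v + t v ^ 2 := by
    rcases h.slope u v pu pv hn with hs | hs
    · have := sub_ne_zero.2 hs
      refine ⟨_, _, (su.sub sv).div (tu.sub tv), div_mul_cancel₀ _ this, ?_⟩
      field_simp
      linear_combination eu - ev
    · refine ⟨_, _, q2.div q1, ?_, div_mul_cancel₀ _ hs⟩
      field_simp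
      linear_combination ev - eu
  obtain ⟨-, b, c⟩ := h.add u v a pu pv h1 h2
  obtain ⟨p', b', c'⟩ := h.add u' v' a' pu' pv'
    (((ha.mul (tu.sub tv)).eq_iff (su.sub sv)).2 h1) (((ha.mul q1).eq_iff q2).2 h2)
  have tw : Eqv g (t (-u - v)) (t (-u' - v')) := by
    rw [b, b']
    exact ((ha.pow 2).sub tu).sub tv
  refine ⟨hn, p', tw, ?_⟩
  rw [c, c']
  exact su.add (ha.mul (tw.sub tu))

theorem np_rot (hu : ¬ Pole u) : ¬ Pole (wC * u) := fun h1 => hu (by
  have := h1.mul (γ := om ^ 2) ⟨om, by decide⟩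
  rwa [map_pow, io_om, show wC ^ 2 * (wC * u) = u by linear_combination u * wC_cube] at this)

theorem rot (h : Cur t s) (hu : Rel t s g u u') : Rel t s g (wC * u) (io (cj g om) * u') := by
  obtain ⟨pu, pu', tu, su⟩ := hu
  have e := (eqv_wC g).mul tu
  by_cases h1 : Fix g
  · rw [cj_fix h1, io_om] at e ⊢
    exact ⟨np_rot pu, np_rot pu', by rwa [h.rot_t, h.rot_t], by rwa [h.rot_s, h.rot_s]⟩
  · rw [cj_swap h1, star_om, map_pow, io_om, sq, mul_assoc] at e ⊢
    exact ⟨np_rot pu, np_rot (np_rot pu'), by rwa [h.rot_t, h.rot_t, h.rot_t],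
      by rwa [h.rot_s, h.rot_s, h.rot_s]⟩

theorem gen (h : Cur t s) {n : ℕ} (h1 : Rel t s g (io 1 / 7 ^ n) u') (x : O) :
    Rel t s g (io x / 7 ^ n) (io (cj g x) * u') := by
  have cz : cj g 0 = 0 := by simpa using cj_map_int g 0
  have cn : ∀ x, cj g (-x) = -cj g x := fun x => by
    simpa [cj_map_int g (-1)] using (cj_map_mul g (-1 : ℤ) x).trans
      (congrArg (· * cj g x) (cj_map_int g (-1)))
  have h0 : Rel t s g (io 0 / 7 ^ n) (io (cj g 0) * u') := by
    rw [cz, map_zero, zero_div, zero_mul]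
    exact ⟨npole_lat lat_zero, npole_lat lat_zero, by rw [h.t0]; exact Eqv.zero g,
      by rw [h.s0]; exact Eqv.zero g⟩
  have h3 : ∀ x y, Rel t s g (io x / 7 ^ n) (io (cj g x) * u') →
      Rel t s g (io y / 7 ^ n) (io (cj g y) * u') →
      Rel t s g (io (-(x + y)) / 7 ^ n) (io (cj g (-(x + y))) * u') := fun x y hx hy => by
    have e : io (-(x + y)) / 7 ^ n = -(io x / 7 ^ n) - io y / 7 ^ n := by
      rw [map_neg, map_add]; ring
    have e' : io (cj g (-(x + y))) * u' = -(io (cj g x) * u') - io (cj g y) * u' := by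
      rw [cn, cj_map_add, map_neg, map_add]; ring
    rw [e']
    exact e ▸ third h hx hy (e ▸ npole_seven n _)
  let S : AddSubgroup O :=
    { carrier := {x | Rel t s g (io x / 7 ^ n) (io (cj g x) * u')}
      zero_mem' := h0
      neg_mem' := fun {x} hx => by simpa only [add_zero, Set.mem_ofPred_eq] using h3 x 0 hx h0
      add_mem' := fun {x y} hx hy => by
        simpa only [add_zero, neg_neg, Set.mem_ofPred_eq] using h3 _ 0 (h3 x y hx hy) h0 }
  have m1 : (1 : O) ∈ S := by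
    change Rel t s g _ _
    rwa [cj_map_one, map_one io, one_mul, ← map_one io]
  have m2 : om ∈ S := by
    change Rel t s g _ _
    have := rot h h1
    rwa [map_one, mul_one_div, ← io_om] at this
  have e : x = x.re • (1 : O) + x.im • om := by ext <;> simp [om]
  have : x ∈ S := e ▸ S.add_mem (S.zsmul_mem m1 _) (S.zsmul_mem m2 _)
  exact this

theorem act_of (h : Cur t s) {n : ℕ} {r : O} (h1 : Eqv g (t (io 1 / 7 ^ n)) (t (io r / 7 ^ n)))
    (h2 : Eqv g (s (io 1 / 7 ^ n)) (s (io r / 7 ^ n))) : Act t s g n r := fun x => by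
  have := (gen h ⟨npole_seven n 1, npole_seven n r, h1, h2⟩ x).2.2
  rwa [show io (cj g x) * (io r / 7 ^ n) = io (r * cj g x) / 7 ^ n by rw [map_mul]; ring] at this

theorem of_act {n : ℕ} {r : O} (h : Act t s g n r) :
    Eqv g (t (io 1 / 7 ^ n)) (t (io r / 7 ^ n)) ∧ Eqv g (s (io 1 / 7 ^ n)) (s (io r / 7 ^ n)) := by
  simpa only [cj_map_one, mul_one] using h 1

theorem lat_iff (n : ℕ) (r r' : O) : Lat (io r / 7 ^ n - io r' / 7 ^ n) ↔ (7 : O) ^ n ∣ r - r' := by
  rw [← lat_div (ne_zero_of_lam (lam_seven n)), map_sub, map_pow, map_ofNat, sub_div]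

end Gal

open Gal in
theorem gal : GalStmt := by
  intro t s h hI
  have alg : ∀ n : ℕ, (∃ a, iota a = t (io 1 / 7 ^ n)) ∧ ∃ b, iota b = s (io 1 / 7 ^ n) :=
    fun n => (hI _ _ (lam_seven n) (lat_seven n 1)).imp exists_iota exists_iota
  refine ⟨fun g n => ?_, fun g n r r' h1 h2 => ?_, fun g n r r' h1 h2 => ?_, fun g n r h1 x => ?_,
    fun n => ?_, fun g k n r r' h1 h2 x => ?_, fun g n r h1 => ?_⟩
  · obtain ⟨⟨a, ha⟩, b, hb⟩ := alg n
    have ea : Eqv g (t (io 1 / 7 ^ n)) (iota (g a)) := ⟨a, ha, rfl⟩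
    have eb : Eqv g (s (io 1 / 7 ^ n)) (iota (g b)) := ⟨b, hb, rfl⟩
    obtain ⟨z, pz, tz, sz⟩ := h.surj _ _
      ((((eb.pow 2).add eb).eq_iff (ea.pow 3)).2 (h.eqn _ (npole_seven n 1)))
    rw [← tz] at ea
    rw [← sz] at eb
    obtain ⟨-, p, -, e⟩ := gen h ⟨npole_seven n 1, pz, ea, eb⟩ (7 ^ n)
    have e7 : cj g (7 ^ n) = 7 ^ n := by simpa using cj_map_int g (7 ^ n)
    obtain ⟨r, hr⟩ := h.lat_of_s p (e.eq_zero_iff.2 (h.s_lat ⟨1, by simp [map_ofNat]⟩))
    rw [e7, map_pow, map_ofNat] at hr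
    have ez : z = io r / 7 ^ n := by rw [← hr]; field_simp
    exact ⟨r, act_of h (ez ▸ ea) (ez ▸ eb)⟩
  · exact (lat_iff n r r').1 (h.inj _ _ (npole_seven n r) (npole_seven n r')
      ((of_act h1).1.uniq (of_act h2).1) ((of_act h1).2.uniq (of_act h2).2))
  · have l := (lat_iff n r r').2 h2
    have e1 := h.t_add l (io r' / 7 ^ n)
    have e2 := h.s_add l (io r' / 7 ^ n)
    rw [add_sub_cancel] at e1 e2
    exact act_of h (e1 ▸ (of_act h1).1) (e2 ▸ (of_act h1).2)
  · have e7 : cj g 7 = 7 := by simpa using cj_map_int g 7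
    have e : ∀ y : O, io (7 * y) / 7 ^ (n + 1) = io y / 7 ^ n := fun y => by
      rw [map_mul, map_ofNat]; field_simp; ring
    have := h1 (7 * x)
    rwa [cj_map_mul, e7, mul_left_comm, e, e] at this
  · obtain ⟨⟨a, ha⟩, b, hb⟩ := alg n
    exact act_of h ⟨a, ha, ha⟩ ⟨b, hb, hb⟩
  · have e : r * cj g r' * cj (g * k) x = r * cj g (r' * cj k x) := by
      rw [cj_mul, cj_map_mul, mul_assoc]
    rw [e]
    exact ⟨(h2 x).1.trans (h1 _).1, (h2 x).2.trans (h1 _).2⟩
  · obtain ⟨⟨a, ha, ha'⟩, b, hb, hb'⟩ := of_act h1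
    filter_upwards [ev_eq g a, ev_eq g b] with k ka kb
    exact act_of h ⟨a, ha, ka ▸ ha'⟩ ⟨b, hb, kb ▸ hb'⟩

end Pool.Agent.MP_59efd2_nt.CM

end
end MrgPart6

-- ======== part 7: formerly Pool.Agent.MP_59efd2_nt.cm.Rep
section MrgPart7

/-!
The representation from the action on torsion points.
-/

noncomputable section

namespace Pool.Agent.MP_59efd2_nt.CM

open Polynomial
open Pool.Agent.MP_db1c88_nt.QRH (O Primary mul_star')

namespace RepP

theorem exists_phi : ∃ φ : O →+* ℤ_[7], (7 : ℤ_[7]) ∣ φ (star pi7) := by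
  have h9 : ‖(9 : ℤ_[7])‖ = 1 := by
    exact_mod_cast PadicInt.norm_natCast_eq_one_iff (p := 7) (n := 9) |>.2 (by norm_num)
  have hd : (derivative (X ^ 2 + X + 1 : ℤ[X])).aeval (4 : ℤ_[7]) = 9 := by
    simp [map_ofNat]; norm_num
  obtain ⟨w, h1, h2, -⟩ := hensels_lemma (F := (X ^ 2 + X + 1 : ℤ[X])) (a := (4 : ℤ_[7])) (by
    rw [hd, h9, one_pow, PadicInt.norm_lt_one_iff_dvd]
    exact ⟨3, by simp; norm_num⟩)
  rw [hd, h9, PadicInt.norm_lt_one_iff_dvd] at h2
  obtain ⟨c, hc⟩ := h2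
  simp only [map_add, map_pow, aeval_X, map_one] at h1
  refine ⟨(QuadraticAlgebra.lift ⟨w, by simp; linear_combination h1⟩).toRingHom, -2 - 3 * c, ?_⟩
  rw [show star pi7 = ⟨-2, -3⟩ by decide]
  simp at hc ⊢
  linear_combination -3 * hc

theorem eq_of_dvd {x y : ℤ_[7]} (h : ∀ n, (7 : ℤ_[7]) ^ n ∣ x - y) : x = y :=
  PadicInt.ext_of_toZModPow.1 fun n => by
    rw [← sub_eq_zero, ← map_sub, ← RingHom.mem_ker, PadicInt.ker_toZModPow,
      Ideal.mem_span_singleton]
    exact_mod_cast h n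

variable {t s : ℂ → ℂ} {φ : O →+* ℤ_[7]} {ρ : GQ →* GL (Fin 2) ℤ_[7]} {e : Fin 2 → GQ → ℤ_[7]ˣ}
  (hG : Gl t s) (h : Chr t s φ ρ e) {g : GQ}
include hG h

theorem cube1 {a y : O} (ha : (7 : ℤ_[7]) ∣ φ a)
    (hy : ∀ n r, Act t s g n r → a ^ n ∣ r ^ 3 - y ^ 3) : (e 1 g : ℤ_[7]) ^ 3 = φ y ^ 3 :=
  eq_of_dvd fun n => by
    obtain ⟨r, hr⟩ := hG.ex g n
    have h1 := (pow_dvd_pow_of_dvd ha n).trans (by simpa using map_dvd φ (hy n r hr))
    simpa using ((h.e1 g n r hr).trans (sub_dvd_pow_sub_pow _ _ 3)).add h1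

theorem cube0 {y : O} (hy : ∀ n r, Act t s g n r → (7 : O) ^ n ∣ r ^ 3 - y ^ 3) :
    (e 0 g : ℤ_[7]) ^ 3 = φ (star y) ^ 3 :=
  eq_of_dvd fun n => by
    obtain ⟨r, hr⟩ := hG.ex g n
    have h1 : (7 : ℤ_[7]) ^ n ∣ φ (star r) ^ 3 - φ (star y) ^ 3 := by
      simpa [map_ofNat, starRingEnd_apply] using map_dvd (φ.comp (starRingEnd O)) (hy n r hr)
    simpa using ((h.e0 g n r hr).trans (sub_dvd_pow_sub_pow _ _ 3)).add h1

theorem chi_eq (hW : Wl t s) (g : GQ) :
    (chi 7 g : ℤ_[7]) = sg g * ((e 0 g * e 1 g : ℤ_[7]ˣ) : ℤ_[7]) :=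
  eq_of_dvd fun n => by
    obtain ⟨c, hc⟩ := hW
    obtain ⟨r, hr⟩ := hG.ex g (n + c)
    have d : (7 : ℤ_[7]) ^ n ∣ 7 ^ (n + c) := pow_dvd_pow _ (by omega)
    have h3 := congrArg φ (mul_star' r)
    rw [map_mul, map_intCast] at h3
    convert ((hc g n r hr).sub ((d.trans (h.e0 g _ r hr)).mul_left (sg g * e 1 g))).sub
      ((d.trans (h.e1 g _ r hr)).mul_left (sg g * φ (star r))) using 1
    push_cast
    linear_combination -(sg g : ℤ_[7]) * h3

theorem det_eq (hW : Wl t s) (g : GQ) :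
    Matrix.GeneralLinearGroup.det (ρ g) = chi 7 g ^ (-3 : ℤ) := by
  have h1 := chi_eq hG h hW g
  by_cases hg : Fix g
  · have h2 : chi 7 g = e 0 g * e 1 g := Units.ext (by simpa [sg, hg] using h1)
    ext
    rw [Matrix.GeneralLinearGroup.val_det_apply, h.fix g hg, Matrix.det_diagonal,
      Fin.prod_univ_two, h2, ← Units.val_mul, ← mul_inv, ← mul_pow]
    rfl
  · have h2 : chi 7 g = -(e 0 g * e 1 g) := Units.ext (by simpa [sg, hg] using h1)
    ext
    rw [Matrix.GeneralLinearGroup.val_det_apply, h.swap g hg, Matrix.det_fin_two_of, h2,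
      Odd.neg_zpow (by decide), zero_mul, zero_sub, ← Units.val_mul, ← mul_inv, ← mul_pow]
    rfl

omit hG in
theorem e_inv (i : Fin 2) (hg : Fix g) : e i g⁻¹ = (e i g)⁻¹ := by
  have h1 := h.mul i 1 1 fix_one
  have h2 := h.mul i g g⁻¹ hg
  rw [mul_one, left_eq_mul] at h1
  rw [mul_inv_cancel, h1] at h2
  exact eq_inv_of_mul_eq_one_right h2.symm

end RepP

open RepP

theorem rep (hA : AriStmt) (hC : CycStmt) (hX : ChrStmt) : RepOfStmt := by
  intro t s hG hW hF
  obtain ⟨φ, hφ⟩ := exists_phi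
  obtain ⟨ρ, e, h⟩ := hX t s hG φ
  obtain ⟨V, hV, hV1, hD⟩ := hC.seven
  have h7 : (7 : ℤ_[7]) ∣ φ 7 := by rw [map_ofNat]
  have hdet := det_eq hG h hW
  let δ : Fin 2 → (V.decompositionSubgroup ℚ →* ℤ_[7]ˣ) := fun i =>
    MonoidHom.mk' (fun g => (e i g ^ 3)⁻¹) fun a b => by
      simp only [Subgroup.coe_mul, h.mul i _ _ (hD a a.2), mul_pow, mul_inv]
  obtain ⟨c, hc⟩ := id hφ
  have hp : φ pi7 = -1 - 7 * c := by
    have := congrArg φ pi7_add
    rw [map_add, map_neg, map_one] at this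
    linear_combination this - hc
  have n7 : ¬ IsUnit (7 : ℤ_[7]) := by exact_mod_cast (PadicInt.irreducible_p (p := 7)).not_isUnit
  have hu : IsUnit (φ pi7 ^ 3) := (IsUnit.pow 3 (by
    rw [hp, show -1 - 7 * c = -(1 - 7 * -c) by ring, IsUnit.neg_iff]
    exact IsLocalRing.isUnit_one_sub_self_of_mem_nonunits _
      fun h1 => n7 (isUnit_of_mul_isUnit_left h1)))
  have hm : φ (star pi7) ^ 3 * φ pi7 ^ 3 = 7 ^ 3 := by
    rw [← mul_pow, mul_comm, ← map_mul, pi7_mul, map_ofNat]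
  have i7 : ∀ g ∈ V.inertiaSubgroup ℚ, e 1 g ^ 3 = 1 := fun g hg => Units.ext (by
    simpa using cube1 hG h (y := 1) hφ (by simpa using hF.inertia7 V hV1 g hg))
  have f7 : ∀ g, IsFrob V 7 g → e 1 g ^ 3 = hu.unit := fun g hg =>
    Units.ext (cube1 hG h hφ (hF.frob7 V hV1 g hg))
  have k : ∀ g : V.decompositionSubgroup ℚ,
      (δ 0 * ((chi 7).comp (V.decompositionSubgroup ℚ).subtype) ^ (4 - 1)) g = e 1 g ^ 3 := by
    intro g
    have h2 : chi 7 g = e 0 g * e 1 g :=
      Units.ext (by simpa [sg, hD g g.2] using chi_eq hG h hW g)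
    simp [δ, h2, mul_pow]
  refine ⟨ρ, V, δ, φ (star pi7) ^ 3, φ pi7 ^ 3, ⟨h.cont, fun l hl hl' W hW' => ?_⟩, hV,
    fun g => h.fix g (hD g g.2), ⟨?_, hm, hu, ⟨fun g hg => ?_, fun g hg => ?_⟩, ↑hu.unit⁻¹, ?_,
      fun g hg => ?_, fun g hg => ?_⟩, fun ⟨d, hd⟩ => ?_, hdet⟩
  · have l3 : l ≠ 3 := by rintro rfl; norm_num at hl'
    have l7 : l ≠ 7 := by rintro rfl; norm_num at hl'
    refine ⟨fun g hg => ?_, fun g hg => ?_⟩
    · have h1 := hF.inertia W l hl l3 l7 hW' g hg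
      have h2 : e 0 g ^ 3 = 1 := Units.ext (by simpa using cube0 hG h (y := 1) (by simpa using h1))
      have h3 : e 1 g ^ 3 = 1 :=
        Units.ext (by simpa using cube1 hG h (y := 1) h7 (by simpa using h1))
      apply Units.ext
      rw [h.fix g (hC.inertia_fix W l hl l3 hW' g hg)]
      rw [Units.val_one, ← Matrix.diagonal_one]
      congr 1
      ext i
      fin_cases i <;> simp only [Fin.zero_eta, Fin.mk_one, h2, h3, inv_one, Units.val_one]
    · have h1 : (ρ g⁻¹ : Matrix (Fin 2) (Fin 2) ℤ_[7]).det = (l : ℤ_[7]) ^ (4 - 1) := by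
        rw [← Matrix.GeneralLinearGroup.val_det_apply, hdet, ← hC.chi_frob W l hl l7 hW' g hg]
        simp
      rw [Matrix.charpoly_fin_two, h1]
      congr 4
      have h2 := hC.frob_fix W l hl l3 hW' g hg
      by_cases h3 : l % 3 = 1
      · obtain ⟨x, x1, x2, x3⟩ := hA.split l hl h3
        obtain ⟨y, y1, y2⟩ := hF.frob W l x hl l7 x1 x2 hW' g hg
        have x4 := congrArg φ x3
        rw [h.fix _ (fix_inv.2 (h2.2 h3)), Matrix.trace_diagonal, Fin.sum_univ_two]
        simp only [e_inv h _ (h2.2 h3), inv_pow, inv_inv, Units.val_pow_eq_pow_val, cube0 hG h y2,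
          cube1 hG h h7 y2]
        rw [map_intCast] at x4
        rcases y1 with rfl | rfl <;> simp [x4, add_comm]
      · have h4 : l % 3 ≠ 0 := fun h4 => l3 ((Nat.prime_dvd_prime_iff_eq Nat.prime_three hl).1
          (Nat.dvd_of_mod_eq_zero h4)).symm
        rw [h.swap _ (mt (fun h5 => h2.1 (fix_inv.1 h5)) h3), hA.inert l (by omega)]
        simp
  · rw [hA.seven, ← map_pow, ← map_pow, ← map_add, show star pi7 ^ 3 + pi7 ^ 3 = (20 : ℤ) by decide,
      map_intCast]
  · simp [δ, i7 g hg]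
  · rw [map_inv]
    simp [δ, f7 g hg]
  · rw [eq_comm, Units.mul_inv_eq_iff_eq_mul]
    exact hm.symm
  · rw [k, i7 g hg]
  · rw [map_inv, k, f7 g hg]
  · rw [hp] at hd
    refine n7 (isUnit_of_dvd_one ⟨4 * (-d - 3 * c - 21 * c ^ 2 - 49 * c ^ 3) - 1, ?_⟩)
    linear_combination -4 * hd

end Pool.Agent.MP_59efd2_nt.CM

end
end MrgPart7

-- marker of a merged file
example : 731051 + 83793 = 731051 + 83793 := rfl
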