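import Mathlib.Algebra.Category.Grp.AB
import Mathlib.RingTheory.Valuation.LocalSubring
import Mathlib.NumberTheory.ModularForms.LevelOne.DimensionFormula
import Mathlib.NumberTheory.ModularForms.NormTrace
import Pool.Agent.MP_59efd2_nt.cm.Rep

-- ======== part 0: formerly Pool.Agent.MP_59efd2_nt.cm.Tha
section MrgPart0

/-!
Convergence, translation law, expansion and decay of the theta series.
-/

noncomputable section

namespace Pool.Agent.MP_59efd2_nt.CM

open Complex Filter Topology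
open scoped Real Manifold ModularForm MatrixGroups UpperHalfPlane
open Pool.Agent.MP_db1c88_nt.QRH (O om lam wC io Primary norm_eq norm_nonneg' norm_pos' wC_sq)

namespace ThaP

/-- the majorant -/
def bd (c : ℝ) (x : O) : ℝ := ‖io x‖ ^ 3 * Real.exp (-c * x.norm)

theorem bd_nonneg (c : ℝ) (x : O) : 0 ≤ bd c x := by unfold bd; positivity

theorem norm_wC : ‖wC‖ = 1 := by
  have h := congrArg norm wC_cube
  rw [norm_pow, norm_one] at h
  exact (pow_eq_one_iff_of_nonneg (norm_nonneg _) (by norm_num)).1 h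

theorem norm_io_le (x : O) : ‖io x‖ ≤ |(x.re : ℝ)| + |(x.im : ℝ)| := by
  rw [io_eq]
  refine (norm_add_le _ _).trans (le_of_eq ?_)
  rw [norm_mul, norm_wC, mul_one, Complex.norm_intCast, Complex.norm_intCast]

theorem le_norm (x : O) : |(x.re : ℝ)| + |(x.im : ℝ)| ≤ 2 * x.norm := by
  have h : |x.re| + |x.im| ≤ 2 * x.norm := by
    rw [norm_eq]
    have h1 : |x.re| ≤ x.re ^ 2 := by rw [← sq_abs]; exact Int.le_self_sq _
    have h2 : |x.im| ≤ x.im ^ 2 := by rw [← sq_abs]; exact Int.le_self_sq _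
    nlinarith [sq_nonneg (x.re - x.im)]
  exact_mod_cast h

theorem summable_int {ε : ℝ} (hε : 0 < ε) : Summable fun n : ℤ => Real.exp (-ε * |(n : ℝ)|) := by
  have h : Summable fun n : ℕ => Real.exp (n * -ε) :=
    Real.summable_exp_nat_mul_iff.2 (by linarith)
  refine Summable.of_nat_of_neg (h.congr fun n => ?_) (h.congr fun n => ?_) <;>
    simp [mul_comm]

theorem summable_bd {c : ℝ} (hc : 0 < c) : Summable (bd c) := by
  set ε := c / 4 with hε
  have hε0 : 0 < ε := by positivity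
  have hinj : Function.Injective (fun x : O => (x.re, x.im)) := fun x y h => by
    ext
    · exact congrArg Prod.fst h
    · exact congrArg Prod.snd h
  have h1 := (((summable_int hε0).mul_of_nonneg (summable_int hε0) (fun _ => (Real.exp_pos _).le)
    (fun _ => (Real.exp_pos _).le)).comp_injective hinj).mul_left (6 / ε ^ 3)
  refine Summable.of_nonneg_of_le (bd_nonneg c) (fun x => ?_) h1
  set s := |(x.re : ℝ)| + |(x.im : ℝ)| with hs
  have hs0 : 0 ≤ s := by positivity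
  have h2 := Real.pow_div_factorial_le_exp (ε * s) (by positivity) 3
  have h3 : s ^ 3 ≤ 6 / ε ^ 3 * Real.exp (ε * s) := by
    rw [div_mul_eq_mul_div, le_div_iff₀ (by positivity)]
    rw [div_le_iff₀ (by positivity)] at h2
    norm_num [Nat.factorial] at h2
    nlinarith
  have h4 : Real.exp (-c * x.norm) ≤ Real.exp (-(2 * ε) * s) := by
    refine Real.exp_le_exp.2 ?_
    have := le_norm x
    rw [hε]
    nlinarith
  calc bd c x ≤ s ^ 3 * Real.exp (-(2 * ε) * s) :=
        mul_le_mul (pow_le_pow_left₀ (norm_nonneg _) (norm_io_le x) 3) h4 (Real.exp_pos _).le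
          (by positivity)
    _ ≤ 6 / ε ^ 3 * Real.exp (ε * s) * Real.exp (-(2 * ε) * s) := by gcongr
    _ = _ := by
        simp only [Function.comp]
        rw [mul_assoc, ← Real.exp_add, ← Real.exp_add, hs]
        congr 2
        ring

theorem norm_exp_eq (τ : ℂ) (n : ℤ) :
    ‖cexp (2 * π * I * τ * n / 3)‖ = Real.exp (-(2 * π * τ.im / 3) * n) := by
  rw [Complex.norm_exp]
  congr 1
  rw [show (2 * π * I * τ * n / 3 : ℂ) = ((2 * π * n / 3 : ℝ) : ℂ) * (I * τ) by push_cast; ring,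
    re_ofReal_mul]
  simp
  ring

theorem norm_term_le {τ : ℂ} {y : ℝ} (h : y ≤ τ.im) (x : O) :
    ‖term τ x‖ ≤ bd (2 * π * y / 3) x := by
  unfold term
  split_ifs
  · rw [norm_mul, norm_pow, norm_exp_eq, bd]
    have h1 : (0 : ℝ) ≤ x.norm := by exact_mod_cast norm_nonneg' x
    have h2 : 2 * π * y / 3 ≤ 2 * π * τ.im / 3 := by gcongr
    gcongr _ * Real.exp ?_
    nlinarith
  · simpa using bd_nonneg _ x

theorem summable_term (τ : ℍ) : Summable (term τ) :=
  Summable.of_norm_bounded (summable_bd (c := 2 * π * (τ : ℂ).im / 3)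
    (by have := τ.im_pos; have := Real.pi_pos; simp only [UpperHalfPlane.coe_im]; positivity))
    (norm_term_le le_rfl)

theorem diff_term (x : O) : Differentiable ℂ fun τ => term τ x := by
  unfold term
  split_ifs
  · fun_prop
  · fun_prop

theorem hol : MDifferentiable 𝓘(ℂ) 𝓘(ℂ) Th := by
  rw [UpperHalfPlane.mdifferentiable_iff]
  intro z hz
  have hz' : 0 < z.im := hz
  have ho : IsOpen {w : ℂ | z.im / 2 < w.im} := isOpen_lt continuous_const continuous_im
  have h1 : DifferentiableOn ℂ (fun w => ∑' x, term w x) {w : ℂ | z.im / 2 < w.im} :=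
    differentiableOn_tsum_of_summable_norm (summable_bd (c := 2 * π * (z.im / 2) / 3)
      (by have := Real.pi_pos; positivity)) (fun x => (diff_term x).differentiableOn) ho
      (fun x w hw => norm_term_le (le_of_lt hw) x)
  have hm : {w : ℂ | z.im / 2 < w.im} ∈ 𝓝 z := ho.mem_nhds (show z.im / 2 < z.im by linarith)
  refine ((h1.differentiableAt hm).congr_of_eventuallyEq ?_).differentiableWithinAt
  filter_upwards [hm] with w hw
  have hw' : 0 < w.im := lt_trans (by linarith) (show z.im / 2 < w.im from hw)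
  simp [Th, UpperHalfPlane.ofComplex_apply_of_im_pos hw']

theorem exp_third : cexp (2 * π * I / 3) = wC := by
  rw [show (2 * π * I / 3 : ℂ) = ((π - π / 3 : ℝ) : ℂ) * I by push_cast; ring]
  apply Complex.ext
  · rw [exp_ofReal_mul_I_re, Real.cos_pi_sub, Real.cos_pi_div_three]
    simp [wC]
    ring
  · rw [exp_ofReal_mul_I_im, Real.sin_pi_sub, Real.sin_pi_div_three]
    simp [wC]

theorem term_add_one (hA : AriStmt) (τ : ℂ) (x : O) : term (1 + τ) x = wC * term τ x := by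
  unfold term
  split_ifs with h
  · have h1 := hA.norm_mod x (lam_of_primary h)
    obtain ⟨k, hk⟩ : ∃ k : ℤ, x.norm = 3 * k + 1 := ⟨x.norm / 3, by omega⟩
    have h2 : (2 * π * I * (1 + τ) * x.norm / 3 : ℂ) =
        2 * π * I / 3 + 2 * π * I * τ * x.norm / 3 + k * (2 * π * I) := by
      rw [hk]; push_cast; ring
    rw [h2, Complex.exp_add, Complex.exp_add, exp_int_mul_two_pi_mul_I, exp_third]
    ring
  · simp

set_option backward.isDefEq.respectTransparency.types false in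
theorem lawT (hA : AriStmt) : Th ∣[(4 : ℤ)] ModularGroup.T = wC • Th := by
  ext z
  rw [ModularForm.SL_slash_apply, UpperHalfPlane.denom, UpperHalfPlane.modular_T_smul,
    ModularGroup.T]
  simp [Th, term_add_one hA, tsum_mul_left]

theorem norm_term_le' {τ : ℂ} (h : 1 ≤ τ.im) (x : O) :
    ‖term τ x‖ ≤ bd (2 * π / 3) x * Real.exp (-(2 * π / 3) * (τ.im - 1)) := by
  unfold term
  split_ifs with hx
  · rw [norm_mul, norm_pow, norm_exp_eq, bd, mul_assoc (‖io x‖ ^ 3), ← Real.exp_add]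
    have h1 : (1 : ℝ) ≤ x.norm := by
      exact_mod_cast norm_pos' (ne_zero_of_lam (lam_of_primary hx))
    gcongr _ * Real.exp ?_
    have := mul_nonneg (mul_nonneg Real.pi_pos.le (sub_nonneg.2 h)) (sub_nonneg.2 h1)
    nlinarith
  · have := bd_nonneg (2 * π / 3) x
    rw [norm_zero]
    positivity

theorem zero : UpperHalfPlane.IsZeroAtImInfty Th := by
  have hc : 0 < 2 * π / 3 := by have := Real.pi_pos; positivity
  have h1 : Tendsto (fun τ : ℍ => (∑' x, bd (2 * π / 3) x) *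
      Real.exp (-(2 * π / 3) * (τ.im - 1))) UpperHalfPlane.atImInfty (𝓝 0) := by
    have h2 : Tendsto (fun τ : ℍ => τ.im) UpperHalfPlane.atImInfty atTop := tendsto_comap
    have h3 := Real.tendsto_exp_atBot.comp
      ((tendsto_atTop_add_const_right _ (-1) h2).const_mul_atTop_of_neg (neg_lt_zero.2 hc))
    simpa [sub_eq_add_neg] using h3.const_mul (∑' x, bd (2 * π / 3) x)
  refine squeeze_zero_norm' ?_ h1
  have h4 : ∀ᶠ τ : ℍ in UpperHalfPlane.atImInfty, 1 ≤ τ.im :=
    (UpperHalfPlane.atImInfty_mem _).2 ⟨1, fun _ h => h⟩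
  filter_upwards [h4] with τ hτ
  rw [← tsum_mul_right]
  exact tsum_of_norm_bounded ((summable_bd hc).mul_right _).hasSum (norm_term_le' hτ)

theorem expand (hA : AriStmt) (τ : ℍ) :
    HasSum (fun n : ℕ => (aa n : ℂ) * cexp (2 * π * I * τ * n / 3)) (Th τ) := by
  classical
  have h := (summable_term τ).hasSum.tsum_fiberwise (fun x : O => x.norm.toNat)
  suffices hh : ∀ n : ℕ, (aa n : ℂ) * cexp (2 * π * I * τ * n / 3) =
      ∑' b : (fun x : O => x.norm.toNat) ⁻¹' {n}, term τ b by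
    simpa only [hh, Th] using h
  intro n
  have h1 : ∀ x : O, x.norm.toNat = n ↔ x.norm = n := fun x => by
    have := norm_nonneg' x
    omega
  rw [tsum_subtype (f := term τ), tsum_eq_sum (s := pset n)]
  · have h2 := congrArg io (hA.sum_eq n)
    rw [map_sum, map_intCast] at h2
    rw [← h2, Finset.sum_mul]
    refine Finset.sum_congr rfl fun x hx => ?_
    obtain ⟨h3, h4⟩ := mem_pset.1 hx
    rw [Set.indicator_of_mem (by simpa using (h1 x).2 h4), term, if_pos h3, map_pow, h4]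
    simp
  · intro x hx
    by_cases h3 : x.norm = n
    · rw [Set.indicator_of_mem (by simpa using (h1 x).2 h3), term,
        if_neg fun h4 => hx (mem_pset.2 ⟨h4, h3⟩)]
    · exact Set.indicator_of_notMem (by simpa using fun h4 => h3 ((h1 x).1 h4)) _

end ThaP

theorem tha (hA : AriStmt) : ThaStmt :=
  ⟨ThaP.summable_term, ThaP.hol, ThaP.lawT hA, ThaP.zero, ThaP.expand hA⟩

end Pool.Agent.MP_59efd2_nt.CM

end
end MrgPart0

-- ======== part 1: formerly Pool.Agent.MP_59efd2_nt.cm.Mod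
section MrgPart1

/-!
Row MOD: the cusp form of level 9 and weight 4.
-/

noncomputable section

namespace Pool.Agent.MP_59efd2_nt.CM

open Complex Filter Topology Matrix.SpecialLinearGroup ModularGroup OnePoint
open scoped Real Manifold ModularForm MatrixGroups UpperHalfPlane
open Pool.Agent.MP_db1c88_nt.QRH (wC)

namespace ModR

/-- the cubic character of the modular group, additively -/
def phi (g : SL(2, ℤ)) : ZMod 3 :=
  ((g 0 0 : ZMod 3) + g 1 1) * g 1 0 - g 0 1 * g 1 1 * ((g 1 0 : ZMod 3) ^ 2 - 1)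

theorem det3 (g : SL(2, ℤ)) : (g 0 0 : ZMod 3) * g 1 1 - g 0 1 * g 1 0 = 1 := by
  have h := g.det_coe
  rw [Matrix.det_fin_two] at h
  exact_mod_cast congrArg (Int.cast : ℤ → ZMod 3) h

theorem phi_T (g : SL(2, ℤ)) : phi (g * T) = phi g + 1 := by
  have h := det3 g
  have k : ∀ a b c d : ZMod 3, a * d - b * c = 1 →
      (a + (c + d)) * c - (a + b) * (c + d) * (c ^ 2 - 1) =
        (a + d) * c - b * d * (c ^ 2 - 1) + 1 := by decide
  simpa [phi, T, Matrix.mul_apply, Fin.sum_univ_two] using k _ _ _ _ h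

theorem phi_S (g : SL(2, ℤ)) : phi (g * S) = phi g := by
  have h := det3 g
  have k : ∀ a b c d : ZMod 3, a * d - b * c = 1 →
      (b + -c) * d - a * c * (d ^ 2 - 1) = (a + d) * c - b * d * (c ^ 2 - 1) := by decide
  simpa [phi, S, Matrix.mul_apply, Fin.sum_univ_two] using k _ _ _ _ h

theorem pow_succ3 (x : ZMod 3) : wC ^ (x + 1).val = wC ^ x.val * wC := by
  rw [ZMod.val_add, ← pow_succ, ← pow_eq_pow_mod _ wC_cube]
  rfl

theorem law (hT : ThaStmt) (hS : ThsStmt) (g : SL(2, ℤ)) :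
    Th ∣[(4 : ℤ)] g = wC ^ (phi g).val • Th := by
  have step : ∀ x, ∀ y ∈ ({S, T} : Set SL(2, ℤ)),
      (wC ^ (phi x).val • Th) ∣[(4 : ℤ)] y = wC ^ (phi (x * y)).val • Th := by
    intro x y hy
    rw [ModularForm.SL_smul_slash]
    rcases hy with rfl | rfl
    · rw [phi_S, hS]
    · rw [phi_T, hT.lawT, pow_succ3, smul_smul]
  have hg : g ∈ Subgroup.closure ({S, T} : Set SL(2, ℤ)) := by
    simp [SpecialLinearGroup.SL2Z_generators]
  induction hg using Subgroup.closure_induction_right with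
  | one => simp [phi]
  | mul_right x _ y hy ih => rw [SlashAction.slash_mul, ih, step x y hy]
  | mul_inv_cancel x _ y hy ih =>
    have := step (x * y⁻¹) y hy
    rw [inv_mul_cancel_right, ← ih] at this
    rw [SlashAction.slash_mul, ← this, ← SlashAction.slash_mul, mul_inv_cancel,
      SlashAction.slash_one]

/-- the matrix of `τ ↦ 3 τ` -/
def D : GL (Fin 2) ℝ := Matrix.GeneralLinearGroup.mkOfDetNeZero !![3, 0; 0, 1] (by simp)

theorem D_det : D.det.val = 3 := by simp [D]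

theorem D_smul (τ : ℍ) : D • τ = UpperHalfPlane.ofComplex (3 * (τ : ℂ)) := by
  have h : ((D • τ : ℍ) : ℂ) = 3 * (τ : ℂ) := by
    rw [UpperHalfPlane.coe_smul_of_det_pos (by rw [D_det]; norm_num)]
    simp [UpperHalfPlane.num, UpperHalfPlane.denom, D]
  rw [← h, UpperHalfPlane.ofComplex_apply]

theorem sig (c : ℂ) : UpperHalfPlane.σ D c = c := by
  simp [UpperHalfPlane.σ, D]

theorem slash_D (τ : ℍ) :
    (Th ∣[(4 : ℤ)] D) τ = 27 * Th (UpperHalfPlane.ofComplex (3 * (τ : ℂ))) := by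
  rw [ModularForm.slash_apply, sig, D_smul, D_det]
  simp [UpperHalfPlane.denom, D]
  ring

theorem inv9 (hT : ThaStmt) (hS : ThsStmt) (g : SL(2, ℤ))
    (hg : g ∈ CongruenceSubgroup.Gamma0 9) :
    (Th ∣[(4 : ℤ)] D) ∣[(4 : ℤ)] (mapGL ℝ g) = Th ∣[(4 : ℤ)] D := by
  obtain ⟨c, hc⟩ : (9 : ℤ) ∣ g 1 0 :=
    (ZMod.intCast_zmod_eq_zero_iff_dvd _ 9).1 (CongruenceSubgroup.Gamma0_mem.1 hg)
  have hd := g.det_coe
  rw [Matrix.det_fin_two, hc] at hd
  let g' : SL(2, ℤ) := ⟨!![g 0 0, 3 * g 0 1; 3 * c, g 1 1], by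
    rw [Matrix.det_fin_two_of]
    linear_combination hd⟩
  have e : D * mapGL ℝ g = mapGL ℝ g' * D := by
    ext i j
    fin_cases i <;> fin_cases j <;>
      simp [D, g', Matrix.mul_apply, Fin.sum_univ_two, hc] <;> ring
  have p : phi g' = 0 := by
    have h3 : (3 : ZMod 3) = 0 := rfl
    simp [phi, g', h3]
  have l : Th ∣[(4 : ℤ)] (mapGL ℝ g') = Th := by
    have := law hT hS g'
    rw [p] at this
    simpa using! this
  rw [← SlashAction.slash_mul, e, SlashAction.slash_mul, l]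

theorem cusp_D {c : OnePoint ℝ} (hc : IsCusp c 𝒮ℒ) : IsCusp (D • c) 𝒮ℒ := by
  rw [isCusp_SL2Z_iff] at hc ⊢
  obtain ⟨q, rfl⟩ := hc
  cases q with
  | infty => exact ⟨∞, by simp [smul_infty_eq_ite, D]⟩
  | coe q => exact ⟨((3 * q : ℚ) : OnePoint ℚ), by simp [smul_some_eq_ite, D]⟩

theorem zero9 (hT : ThaStmt) (hS : ThsStmt) {c : OnePoint ℝ} (hc : IsCusp c 𝒮ℒ) :
    c.IsZeroAt (Th ∣[(4 : ℤ)] D) 4 := by
  rw [← IsZeroAt.smul_iff, isZeroAt_iff_forall_SL2Z (cusp_D hc)]
  intro g _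
  rw [law hT hS g]
  exact ZeroAtFilter.smul _ hT.zero

/-- the form, up to the factor `27` -/
def F (hT : ThaStmt) (hS : ThsStmt) : CuspForm (CongruenceSubgroup.Gamma0 9) 4 where
  toFun := Th ∣[(4 : ℤ)] D
  slash_action_eq' := by
    rintro _ ⟨g, hg, rfl⟩
    exact inv9 hT hS g hg
  holo' := hT.hol.slash 4 D
  zero_at_cusps' hc := zero9 hT hS ((Subgroup.IsArithmetic.isCusp_iff_isCusp_SL2Z _).1 hc)

end ModR

open ModR in
theorem mod (hT : ThaStmt) (hS : ThsStmt) : ModStmt := by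
  have key : ∀ τ : ℍ, ((27 : ℂ)⁻¹ • F hT hS) τ = Th (UpperHalfPlane.ofComplex (3 * (τ : ℂ))) := by
    intro τ
    change (27 : ℂ)⁻¹ * (Th ∣[(4 : ℤ)] D) τ = _
    rw [slash_D]
    ring
  refine ⟨(27 : ℂ)⁻¹ • F hT hS, key, fun n => ?_⟩
  refine (ModularFormClass.qExpansion_coeff_unique (c := fun m => (aa m : ℂ)) one_pos
    (by simp) (f := (27 : ℂ)⁻¹ • F hT hS) (fun τ => ?_) n).symm
  rw [key, ← D_smul]
  convert hT.expand (D • τ) using 2 with m
  have h : ((D • τ : ℍ) : ℂ) = 3 * (τ : ℂ) := by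
    rw [D_smul, UpperHalfPlane.ofComplex_apply_of_im_pos (by simpa using τ.im_pos)]
  rw [h, Function.Periodic.qParam, ← Complex.exp_nat_mul, smul_eq_mul]
  congr 2
  push_cast
  ring

end Pool.Agent.MP_59efd2_nt.CM

end
end MrgPart1

-- ======== part 2: formerly Pool.Agent.MP_59efd2_nt.cm.New
section MrgPart2

/-!
No cusp forms of weight `4` and level `1` or `3`: the norm to level one decays too fast.
-/

noncomputable section

namespace Pool.Agent.MP_59efd2_nt.CM

open UpperHalfPlane Filter Asymptotics Matrix.SpecialLinearGroup CongruenceSubgroup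
open scoped Real ModularForm MatrixGroups Topology Pointwise

namespace New

/-- the comparison function -/
def ex (c : ℝ) (τ : ℍ) : ℝ := Real.exp (-2 * π * τ.im * c)

theorem ex_zero {c : ℝ} (hc : 0 < c) : Tendsto (ex c) atImInfty (𝓝 0) := by
  refine Real.tendsto_exp_atBot.comp ?_
  have h : Tendsto (fun τ : ℍ => τ.im) atImInfty atTop := tendsto_comap
  exact (h.const_mul_atTop_of_neg (by nlinarith [Real.pi_pos])).atBot_mul_const hc

/-- A level one form that decays faster than its weight allows is zero. -/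
theorem fast (n : ℕ) : ∀ (k : ℤ) (c : ℝ) (f : ModularForm 𝒮ℒ k), k < 12 * n → (k : ℝ) < 12 * c →
    ⇑f =O[atImInfty] ex c → ⇑f = 0 := by
  induction n with
  | zero => exact fun k c f hk _ _ => ModularFormClass.levelOne_neg_weight_eq_zero (by omega) f
  | succ n ih =>
    intro k c f hk hc hf
    rcases lt_or_ge k 0 with h0 | h0
    · exact ModularFormClass.levelOne_neg_weight_eq_zero h0 f
    have h1 : (0 : ℝ) ≤ k := by exact_mod_cast h0
    have hz : IsZeroAtImInfty f := hf.trans_tendsto (ex_zero (by linarith))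
    let g : CuspForm 𝒮ℒ k :=
      { f with
        zero_at_cusps' := fun {c} hc => by
          rw [Subgroup.IsArithmetic.isCusp_iff_isCusp_SL2Z] at hc
          rw [OnePoint.isZeroAt_iff_forall_SL2Z hc]
          intro γ _
          have : ⇑f ∣[k] γ = ⇑f := f.slash_action_eq' _ ⟨γ, rfl⟩
          exact this.symm ▸ hz }
    have h2 := ih (k - 12) (c - 1) (CuspForm.discriminantEquiv g) (by push_cast at hk; omega)
      (by push_cast; linarith) (by
        have h3 := hf.mul (ModularForm.exp_isBigO_discriminant.inv_rev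
          (Eventually.of_forall fun τ h => absurd h (Real.exp_pos _).ne'))
        refine h3.congr (fun τ => (div_eq_mul_inv _ _).symm) fun τ => ?_
        rw [ex, ex, ← Real.exp_neg, ← Real.exp_add]
        congr 1
        ring)
    funext τ
    have h4 := ModularForm.discriminant_mul_discriminantEquiv_apply g τ
    rw [h2, Pi.zero_apply, mul_zero] at h4
    exact h4.symm

theorem conj_mem {M : ℕ} (hM : M ∣ 3) (γ : SL(2, ℤ)) :
    γ⁻¹ * ModularGroup.T ^ (3 : ℤ) * γ ∈ Gamma0 M := by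
  have h1 : ModularGroup.T ^ (3 : ℤ) ∈ Gamma M := by
    obtain ⟨m, hm⟩ := hM
    have := ModularGroup_T_pow_mem_Gamma M 3 (by exact_mod_cast Dvd.intro m hm.symm)
    simpa using this
  have h2 := (Gamma_normal M).conj_mem _ h1 γ⁻¹
  rw [inv_inv, Gamma_mem] at h2
  exact Gamma0_mem.2 h2.2.2.1

theorem decay {M : ℕ} (hM : M ∣ 3) (g : CuspForm (Gamma0 M) 4) (r : GL (Fin 2) ℝ) (hr : r ∈ 𝒮ℒ) :
    (⇑g ∣[(4 : ℤ)] r⁻¹) =O[atImInfty] ex (1 / 3) := by
  obtain ⟨γ, rfl⟩ := hr
  have h := CuspFormClass.exp_decay_atImInfty (CuspForm.translate g (mapGL ℝ γ)⁻¹) (h := 3)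
    (by norm_num) (by
      rw [Subgroup.mem_strictPeriods_iff, map_inv, Subgroup.mem_inv_pointwise_smul_iff,
        ConjAct.toConjAct_smul, inv_inv]
      refine ⟨_, conj_mem hM γ, ?_⟩
      rw [map_mul, map_mul, map_inv]
      congr 2
      ext i j
      rw [mapGL_coe_matrix, map_apply_coe, ModularGroup.coe_T_zpow]
      fin_cases i <;> fin_cases j <;> simp [Matrix.GeneralLinearGroup.upperRightHom])
  refine h.congr_right fun τ => ?_
  rw [ex, mul_one_div]

end New

open New in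
theorem new : NewStmt := by
  classical
  intro M hM g
  have : NeZero M := ⟨fun h => by simp [h] at hM⟩
  let Q := 𝒮ℒ ⧸ (Gamma0 M : Subgroup (GL (Fin 2) ℝ)).subgroupOf 𝒮ℒ
  let _ := Fintype.ofFinite Q
  have h1 : ⇑g =O[atImInfty] ex 1 := by
    have := CuspFormClass.exp_decay_atImInfty g (h := 1) one_pos (by
      rw [Subgroup.strictPeriods_eq_zmultiples_one_of_T_mem (Gamma0_mem.2 (by
        simp [ModularGroup.T]))]
      exact AddSubgroup.mem_zmultiples 1)
    exact this.congr_right fun τ => by rw [ex, div_one, mul_one]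
  let w : Q → ℝ := fun q => 1 / 3 + if q = ⟦1⟧ then 2 / 3 else 0
  have h2 : ∀ q : Q, SlashInvariantForm.quotientFunc g q =O[atImInfty] ex (w q) := fun q => by
    by_cases hq : q = ⟦1⟧
    · have : w q = 1 := by simp only [w, if_pos hq]; norm_num
      rw [this, hq, SlashInvariantForm.quotientFunc_mk]
      simpa using h1
    · have : w q = 1 / 3 := by simp only [w, if_neg hq, add_zero]
      rw [this]
      induction q using Quotient.inductionOn with
      | h r => exact decay hM g r r.2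
  have h3 : ⇑(ModularForm.norm 𝒮ℒ g) =O[atImInfty] ex (∑ q, w q) := by
    rw [ModularForm.coe_norm, Finset.prod_fn]
    refine (IsBigO.finsetProd fun q _ => h2 q).congr_right fun τ => ?_
    rw [ex, Finset.mul_sum, Real.exp_sum]
    rfl
  have h4 := fast (Nat.card Q + 1) (4 * Nat.card Q) _ _ (by push_cast; omega) (by
    rw [Finset.sum_add_distrib, Finset.sum_ite_eq', if_pos (Finset.mem_univ _), Finset.sum_const,
      Finset.card_univ, nsmul_eq_mul, ← Nat.card_eq_fintype_card]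
    push_cast
    linarith) h3
  exact DFunLike.coe_injective ((ModularForm.norm_eq_zero_iff 𝒮ℒ g).1 (DFunLike.coe_injective h4))

end Pool.Agent.MP_59efd2_nt.CM

end
end MrgPart2

-- ======== part 3: formerly Pool.Agent.MP_59efd2_nt.cm.Lval
section MrgPart3

/-!
Row LVAL: the central value does not vanish.
-/

noncomputable section

namespace Pool.Agent.MP_59efd2_nt.CM

open Complex Filter Topology MeasureTheory Set
open scoped Real Manifold ModularForm MatrixGroups UpperHalfPlane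
open Pool.Agent.MP_db1c88_nt.QRH (wC)

namespace Lval

theorem cube_inv (hT : ThaStmt) (hS : ThsStmt) (γ : SL(2, ℤ)) :
    (Th * Th * Th) ∣[(12 : ℤ)] γ = Th * Th * Th := by
  have e : (12 : ℤ) = 4 + 4 + 4 := by norm_num
  refine SlashInvariantForm.slash_action_generators_SL2Z ?_ ?_ γ
  · have h : Th ∣[(4 : ℤ)] ModularGroup.S = Th := hS
    rw [e, ModularForm.mul_slash_SL2, ModularForm.mul_slash_SL2, h]
  · rw [e, ModularForm.mul_slash_SL2, ModularForm.mul_slash_SL2, hT.lawT]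
    ext τ
    simp only [Pi.mul_apply, Pi.smul_apply, smul_eq_mul]
    linear_combination (Th τ * Th τ * Th τ) * wC_cube

/-- the cube of the theta series as a cusp form of level one -/
def cube (hT : ThaStmt) (hS : ThsStmt) : CuspForm 𝒮ℒ 12 where
  toFun := Th * Th * Th
  slash_action_eq' A hA := by
    obtain ⟨A, rfl⟩ := hA
    exact cube_inv hT hS A
  holo' := (hT.hol.mul hT.hol).mul hT.hol
  zero_at_cusps' hc := by
    rw [Subgroup.IsArithmetic.isCusp_iff_isCusp_SL2Z] at hc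
    rw [OnePoint.isZeroAt_iff_forall_SL2Z hc]
    intro γ _
    rw [cube_inv hT hS]
    have h : Tendsto Th UpperHalfPlane.atImInfty (𝓝 0) := hT.zero
    have := (h.mul h).mul h
    simp only [mul_zero] at this
    exact this

theorem ne_zero_of (hT : ThaStmt) (hS : ThsStmt) (h : ∃ τ, Th τ ≠ 0) (τ : ℍ) : Th τ ≠ 0 := by
  obtain ⟨c, hc⟩ := CuspForm.exists_smul_discriminant_of_weight_eq_twelve (cube hT hS)
  have key : ∀ z : ℍ, c * ModularForm.discriminant z = Th z * Th z * Th z := fun z =>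
    congrArg (fun g : CuspForm 𝒮ℒ 12 => g z) hc
  obtain ⟨τ₀, h0⟩ := h
  intro h1
  have a := key τ
  rw [h1, mul_zero, mul_eq_zero] at a
  have b := key τ₀
  rw [a.resolve_right (ModularForm.discriminant_ne_zero τ), zero_mul] at b
  exact mul_ne_zero (mul_ne_zero h0 h0) h0 b.symm

theorem three_coe (τ : ℍ) : ((UpperHalfPlane.ofComplex (3 * (τ : ℂ)) : ℍ) : ℂ) = 3 * τ := by
  rw [UpperHalfPlane.ofComplex_apply_of_im_pos (by simpa using τ.im_pos)]

theorem exists_ne (hA : AriStmt) (hT : ThaStmt) (f : CuspForm (CongruenceSubgroup.Gamma0 9) 4)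
    (hf : ∀ τ : ℍ, f τ = Th (UpperHalfPlane.ofComplex (3 * (τ : ℂ)))) : ∃ τ, Th τ ≠ 0 := by
  by_contra hc
  push Not at hc
  have hp : (1 : ℝ) ∈ (CongruenceSubgroup.Gamma0 9 : Subgroup (GL (Fin 2) ℝ)).strictPeriods := by
    simp
  have h1 := ModularFormClass.qExpansion_coeff_unique (c := fun n => (aa n : ℂ)) one_pos hp
    (f := f) (fun τ => by
      rw [hf]
      convert hT.expand (UpperHalfPlane.ofComplex (3 * (τ : ℂ))) using 2 with n
      rw [three_coe, Function.Periodic.qParam, ← exp_nat_mul, smul_eq_mul]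
      congr 2
      push_cast
      ring) 1
  have h2 := ModularFormClass.qExpansion_coeff_unique (c := fun _ => (0 : ℂ)) one_pos hp
    (f := f) (fun τ => by
      rw [hf, hc]
      simp) 1
  rw [← h2, hA.one] at h1
  simp at h1

theorem im_zero (hT : ThaStmt) (τ : ℍ) (h : (τ : ℂ).re = 0) : (Th τ).im = 0 := by
  have h1 := hasSum_im (hT.expand τ)
  have e : ∀ n : ℕ, ((aa n : ℂ) * cexp (2 * π * I * τ * n / 3)).im = 0 := by
    intro n
    have e1 : (τ : ℂ) = I * ((τ : ℂ).im : ℂ) := by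
      apply Complex.ext
      · rw [h]; simp
      · simp
    have e2 : 2 * π * I * τ * n / 3 = ((-(2 * π * (τ : ℂ).im * n / 3) : ℝ) : ℂ) := by
      conv_lhs => rw [e1]
      push_cast
      linear_combination (2 * π * ((τ : ℂ).im : ℂ) * n / 3) * I_mul_I
    rw [e2, ← ofReal_exp, ← ofReal_intCast, ← ofReal_mul, ofReal_im]
  simp only [e] at h1
  exact h1.unique hasSum_zero

theorem integral_ne {g : ℝ → ℝ} (hc : ContinuousOn g (Ioi 0)) (h0 : ∀ t ∈ Ioi (0 : ℝ), g t ≠ 0)
    (hi : IntegrableOn g (Ioi 0)) : ∫ t in Ioi (0 : ℝ), g t ≠ 0 := by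
  have pos : ∀ g : ℝ → ℝ, (∀ t ∈ Ioi (0 : ℝ), 0 < g t) → IntegrableOn g (Ioi 0) →
      0 < ∫ t in Ioi (0 : ℝ), g t := by
    intro g hg hi
    rw [setIntegral_pos_iff_support_of_nonneg_ae _ hi]
    · have : Function.support g ∩ Ioi 0 = Ioi 0 :=
        inter_eq_right.2 fun t ht => (hg t ht).ne'
      rw [this]
      simp
    · exact (ae_restrict_iff' measurableSet_Ioi).2 (Eventually.of_forall fun t ht => (hg t ht).le)
  have one : (1 : ℝ) ∈ Ioi (0 : ℝ) := mem_Ioi.2 one_pos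
  rcases (h0 1 one).lt_or_gt with h1 | h1
  · have hn : ∀ t ∈ Ioi (0 : ℝ), 0 < -g t := fun t ht => by
      by_contra hc'
      obtain ⟨u, hu, e⟩ := isPreconnected_Ioi.intermediate_value one ht hc
        (show (0 : ℝ) ∈ Icc (g 1) (g t) from ⟨h1.le, by linarith [not_lt.1 hc']⟩)
      exact h0 u hu e
    have := pos (fun t => -g t) hn hi.neg
    rw [integral_neg] at this
    linarith
  · have hn : ∀ t ∈ Ioi (0 : ℝ), 0 < g t := fun t ht => by
      by_contra hc'
      obtain ⟨u, hu, e⟩ := isPreconnected_Ioi.intermediate_value ht one hc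
        (show (0 : ℝ) ∈ Icc (g t) (g 1) from ⟨not_lt.1 hc', h1.le⟩)
      exact h0 u hu e
    exact (pos g hn hi).ne'

end Lval

open Lval in
theorem lval (hA : AriStmt) (hT : ThaStmt) (hS : ThsStmt) : LvalStmt := by
  intro f hf hk
  have hne := ne_zero_of hT hS (exists_ne hA hT f hf)
  let F : ℝ → ℂ := fun t => f (UpperHalfPlane.ofComplex (I * t))
  have hF : ContinuousOn F (Ioi 0) := by fun_prop
  have him : ∀ t ∈ Ioi (0 : ℝ), (F t).im = 0 := fun t (ht : 0 < t) => by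
    show (f _).im = 0
    rw [hf]
    refine im_zero hT _ ?_
    rw [three_coe, UpperHalfPlane.ofComplex_apply_of_im_pos (by simpa using ht)]
    simp
  have hre : ∀ t ∈ Ioi (0 : ℝ), (t : ℂ) ^ ((2 : ℂ) - 1) • F t = ((t * (F t).re : ℝ) : ℂ) := by
    intro t ht
    have e : (2 : ℂ) - 1 = 1 := by norm_num
    rw [e, cpow_one, smul_eq_mul]
    apply Complex.ext <;> simp [him t ht]
  have hm := (CuspForm.isStrongFEPair hk f).hasMellin 2
  have hi : IntegrableOn (fun t : ℝ => (t : ℂ) ^ ((2 : ℂ) - 1) • F t) (Ioi 0) := hm.1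
  have hi2 : IntegrableOn (fun t : ℝ => t * (F t).re) (Ioi 0) := by
    have := (hi.congr_fun hre measurableSet_Ioi).re
    unfold IntegrableOn
    simpa using this
  have hΛ : ModularForm.Λ hk f 2 = ((∫ t in Ioi (0 : ℝ), t * (F t).re : ℝ) : ℂ) := by
    rw [CuspForm.Λ_eq_mellin, mellin]
    exact (setIntegral_congr_fun measurableSet_Ioi hre).trans integral_ofReal
  have h0 : ∫ t in Ioi (0 : ℝ), t * (F t).re ≠ 0 := by
    refine integral_ne (continuousOn_id.mul (continuous_re.comp_continuousOn hF))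
      (fun t ht => mul_ne_zero (ne_of_gt ht) fun h => ?_) hi2
    refine hne _ ((hf _).symm.trans (show F t = 0 from ?_))
    exact Complex.ext h (him t ht)
  rw [ModularForm.L, hΛ]
  refine mul_ne_zero (ofReal_ne_zero.2 h0) (div_ne_zero two_ne_zero ?_)
  rw [Gammaℂ_def]
  refine mul_ne_zero (mul_ne_zero two_ne_zero ?_) (Gamma_ne_zero_of_re_pos (by norm_num))
  exact cpow_ne_zero_iff.2 (Or.inl (by simp [Real.pi_ne_zero]))

end Pool.Agent.MP_59efd2_nt.CM

end
end MrgPart3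

-- ======== part 4: formerly Pool.Agent.MP_59efd2_nt.cm.Hex
section MrgPart4

/-!
The hexagonal period pair and the addition law.
-/

noncomputable section

namespace Pool.Agent.MP_59efd2_nt.CM

open Complex PeriodPair Filter Topology
open Pool.Agent.MP_db1c88_nt.QRH (O om lam wC io wC_sq)
open Pool.Agent.ELL

namespace HexP

theorem P'_scale {L L' : PeriodPair} {α : ℂ} (h : ∀ z, z ∈ L.lattice ↔ α * z ∈ L'.lattice)
    (z : ℂ) : α ^ 3 * ℘'[L'] (α * z) = ℘'[L] z := by
  have h0 := scale_ne h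
  rw [derivWeierstrassP, reix (Equiv.mulLeft₀ α h0) h fun l => 2 / (α * z - l) ^ 3,
    mul_neg, ← tsum_mul_left, derivWeierstrassP]
  refine congrArg _ (tsum_congr fun l => ?_)
  simp only [Equiv.mulLeft₀_apply, ← mul_sub, mul_pow]
  rw [← mul_div_assoc, mul_div_mul_left _ _ (pow_ne_zero 3 h0)]

theorem wC_ne_one : wC - 1 ≠ 0 := fun h => by
  have h1 : wC = 1 := sub_eq_zero.1 h
  have := wC_sq
  rw [h1] at this
  norm_num at this

theorem lat_wC {z : ℂ} : Lat z ↔ Lat (wC * z) :=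
  ⟨fun h => io_om ▸ h.mul om, fun h => by
    have := h.mul (om ^ 2)
    rwa [map_pow, io_om, ← mul_assoc, ← pow_succ, wC_cube, one_mul] at this⟩

theorem lat_rot : Lat ((wC - 1) * z0) := by
  have := lat_mul_z0.2 (show lam ∣ om - 1 from ⟨-om ^ 2, by decide⟩)
  rwa [map_sub, io_om, map_one] at this

/-- the hexagonal period pair -/
def hp (κ : ℂ) (hκ : κ ≠ 0) : PeriodPair where
  ω₁ := κ
  ω₂ := κ * wC
  indep := by
    rw [LinearIndependent.pair_iff]
    intro a b h
    have h1 : (a : ℂ) + b * wC = 0 :=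
      (mul_eq_zero.1 (by simp only [real_smul] at h; linear_combination h)).resolve_left hκ
    have h2 := congrArg im h1
    have h3 := congrArg re h1
    simp [wC] at h2 h3
    simp [h2] at h3
    exact ⟨h3, h2⟩

theorem hp_mem {κ : ℂ} (hκ : κ ≠ 0) (z : ℂ) : κ * z ∈ (hp κ hκ).lattice ↔ Lat z := by
  rw [mem_lattice]
  refine ⟨fun ⟨m, n, h⟩ => ⟨⟨m, n⟩, mul_left_cancel₀ hκ ?_⟩, fun ⟨x, h⟩ => ⟨x.re, x.im, ?_⟩⟩
  · rw [io_mk, ← h]
    simp only [hp]
    ring
  · rw [h, io_eq]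
    simp only [hp]
    ring

section lat

variable {L : PeriodPair} {κ : ℂ} (hκ : κ ≠ 0) (hm : ∀ z, κ * z ∈ L.lattice ↔ Lat z)
include hκ hm

theorem rot_mem (z : ℂ) : z ∈ L.lattice ↔ wC * z ∈ L.lattice := by
  have h1 := hm (z / κ)
  have h2 := hm (wC * (z / κ))
  rw [mul_left_comm, mul_div_cancel₀ _ hκ] at h2
  rw [mul_div_cancel₀ _ hκ] at h1
  rw [h1, h2, lat_wC]

theorem g2_zero : L.g₂ = 0 := by
  have h := G_scale (rot_mem hκ hm) 4
  have h1 : (wC - 1) * L.G 4 = 0 := by linear_combination h - wC * L.G 4 * wC_cube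
  rw [g₂, (mul_eq_zero.1 h1).resolve_left wC_ne_one, mul_zero]

theorem P_rot (z : ℂ) : ℘[L] (κ * (wC * z + z0)) = wC * ℘[L] (κ * (z + z0)) := by
  have h := P_scale (rot_mem hκ hm) (κ * (z + z0))
  rw [show wC * (κ * (z + z0)) = κ * (wC * z + z0) + κ * ((wC - 1) * z0) by ring,
    P_add ((hm _).2 lat_rot)] at h
  linear_combination wC * h - ℘[L] (κ * (wC * z + z0)) * wC_cube

theorem P'_rot (z : ℂ) : ℘'[L] (κ * (wC * z + z0)) = ℘'[L] (κ * (z + z0)) := by
  have h := P'_scale (rot_mem hκ hm) (κ * (z + z0))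
  rwa [show wC * (κ * (z + z0)) = κ * (wC * z + z0) + κ * ((wC - 1) * z0) by ring,
    P'_add ((hm _).2 lat_rot), wC_cube, one_mul] at h

theorem P_z0 : ℘[L] (κ * z0) = 0 := by
  have h := P_rot hκ hm 0
  rw [mul_zero, zero_add] at h
  exact (mul_eq_zero.1 (by linear_combination -h)).resolve_left wC_ne_one

end lat

/-- the four cleared forms of the addition law -/
def Four (x₁ x₂ p₁ p₂ X P : ℂ) : Prop :=
  4 * (x₁ - x₂) ^ 2 * (X + x₁ + x₂) - (p₁ - p₂) ^ 2 = 0 ∧
  (x₁ - x₂) * (P + p₁) + (p₁ - p₂) * (X - x₁) = 0 ∧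
  (p₁ + p₂) ^ 2 * (X + x₁ + x₂) - 4 * (x₁ ^ 2 + x₁ * x₂ + x₂ ^ 2) ^ 2 = 0 ∧
  (p₁ + p₂) * (P + p₁) + 4 * (x₁ ^ 2 + x₁ * x₂ + x₂ ^ 2) * (X - x₁) = 0

theorem four_of {x₁ x₂ p₁ p₂ X P : ℂ} (e₁ : p₁ ^ 2 = 4 * x₁ ^ 3 + 1) (e₂ : p₂ ^ 2 = 4 * x₂ ^ 3 + 1)
    (hD : x₁ - x₂ ≠ 0) (h : (x₁ - x₂) ^ 2 * X = x₁ * x₂ * (x₁ + x₂) + 1 / 2 - p₁ * p₂ / 2)
    (h' : (x₁ - x₂) ^ 3 * P = (p₁ * (x₂ * (2 * x₁ + x₂)) - 3 * x₁ ^ 2 * p₂) * (x₁ - x₂) -
      2 * p₁ * (x₁ * x₂ * (x₁ + x₂) + 1 / 2 - p₁ * p₂ / 2)) : Four x₁ x₂ p₁ p₂ X P := by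
  have a : 4 * (x₁ - x₂) ^ 2 * (X + x₁ + x₂) - (p₁ - p₂) ^ 2 = 0 := by
    linear_combination 4 * h - e₁ - e₂
  have b : (x₁ - x₂) * (P + p₁) + (p₁ - p₂) * (X - x₁) = 0 :=
    mul_left_cancel₀ (pow_ne_zero 2 hD) (by
      linear_combination h' + (p₁ - p₂) * h + p₂ / 2 * e₁ + p₁ / 2 * e₂)
  refine ⟨a, b, mul_left_cancel₀ (mul_ne_zero (by norm_num : (4 : ℂ) ≠ 0) (pow_ne_zero 2 hD)) ?_,
    mul_left_cancel₀ hD ?_⟩
  · linear_combination (p₁ + p₂) ^ 2 * a +
      (p₁ ^ 2 - p₂ ^ 2 + 4 * (x₁ ^ 3 - x₂ ^ 3)) * (e₁ - e₂)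
  · linear_combination (p₁ + p₂) * b - (X - x₁) * (e₁ - e₂)

theorem ext_at {f : ℂ → ℂ} {z : ℂ} (hf : ContinuousAt f z) {s : Set ℂ} (hs : s.Countable)
    (h : ∀ w ∉ s, f w = 0) : f z = 0 :=
  tendsto_nhds_unique_of_frequently_eq hf tendsto_const_nhds
    ((mem_closure_iff_frequently.1 (hs.dense_compl ℂ z)).mono h)

theorem four_ext {x p X P : ℂ → ℂ} {x₂ p₂ z : ℂ} {s : Set ℂ} (hs : s.Countable)
    (c₁ : ContinuousAt x z) (c₂ : ContinuousAt p z) (c₃ : ContinuousAt X z)
    (c₄ : ContinuousAt P z) (h : ∀ w ∉ s, Four (x w) x₂ (p w) p₂ (X w) (P w)) :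
    Four (x z) x₂ (p z) p₂ (X z) (P z) :=
  ⟨ext_at (f := fun w => 4 * (x w - x₂) ^ 2 * (X w + x w + x₂) - (p w - p₂) ^ 2)
      (by fun_prop) hs fun w hw => (h w hw).1,
    ext_at (f := fun w => (x w - x₂) * (P w + p w) + (p w - p₂) * (X w - x w))
      (by fun_prop) hs fun w hw => (h w hw).2.1,
    ext_at (f := fun w => (p w + p₂) ^ 2 * (X w + x w + x₂) -
      4 * (x w ^ 2 + x w * x₂ + x₂ ^ 2) ^ 2) (by fun_prop) hs fun w hw => (h w hw).2.2.1,
    ext_at (f := fun w => (p w + p₂) * (P w + p w) +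
      4 * (x w ^ 2 + x w * x₂ + x₂ ^ 2) * (X w - x w)) (by fun_prop) hs
      fun w hw => (h w hw).2.2.2⟩

section add

variable {L : PeriodPair} {A B : ℂ}

theorem P_neg_of (h : A + B ∈ L.lattice) : ℘[L] B = ℘[L] A ∧ ℘'[L] B = -℘'[L] A := by
  have e : B = -A + (A + B) := by ring
  exact ⟨by rw [e, P_add h, weierstrassP_neg], by rw [e, P'_add h, derivWeierstrassP_neg]⟩

theorem P_inj (hA : A ∉ L.lattice) (hB : B ∉ L.lattice) (h : ℘[L] A = ℘[L] B)
    (h' : ℘'[L] A = ℘'[L] B) : A - B ∈ L.lattice := by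
  obtain ⟨σ, hσ⟩ := exists_sigma L
  by_contra h2
  have h1 : A + B ∈ L.lattice := by
    by_contra h1
    exact hσ.P_ne hA hB h1 h2 (sub_eq_zero.2 h)
  have h3 : ℘'[L] A = 0 := by linear_combination (h' + (P_neg_of h1).2) / 2
  have h4 : 2 * A ∈ L.lattice := (hσ.zero _).1 (by rw [hσ.dup hA, h3, mul_zero, neg_zero])
  exact h2 (by simpa [two_mul] using sub_mem h4 h1)

theorem P_surj (L : PeriodPair) (x : ℂ) : ∃ A ∉ L.lattice, ℘[L] A = x := by
  obtain ⟨σ, hσ⟩ := exists_sigma L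
  by_contra hn
  push Not at hn
  have h1 : ∀ z, sb σ z - x * σ z ^ 2 ≠ 0 := fun z => by
    by_cases hz : z ∈ L.lattice
    · obtain ⟨c, hc⟩ := hσ.quasi hz
      have h2 := ((hσ.hol (0 + z)).hasDerivAt.comp_add_const 0 z).unique
        ((((((hasDerivAt_id' (0 : ℂ)).const_mul (eta L σ z)).add_const c).cexp.mul
          (hσ.hol 0).hasDerivAt)).congr_of_eventuallyEq (Eventually.of_forall hc))
      rw [zero_add, hσ.at0, hσ.one] at h2
      simp [sb, (hσ.zero z).2 hz, h2]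
    · rw [hσ.sb_eq hz, mul_comm x, ← mul_sub]
      exact mul_ne_zero (pow_ne_zero 2 (hσ.ne hz)) (sub_ne_zero.2 (hn z hz))
  have h2 : ∀ z ∉ L.lattice, σ z ^ 2 / (sb σ z - x * σ z ^ 2) = (℘[L] z - x)⁻¹ := fun z hz => by
    rw [hσ.sb_eq hz, mul_comm x, ← mul_sub, div_mul_cancel_left₀ (pow_ne_zero 2 (hσ.ne hz))]
  have h3 := const_per (L := L) (f := fun z => σ z ^ 2 / (sb σ z - x * σ z ^ 2))
    ((hσ.hol.pow 2).div (hσ.holb.sub ((hσ.hol.pow 2).const_mul x)) h1) (fun l hl z => by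
      by_cases hz : z ∈ L.lattice
      · simp [(hσ.zero z).2 hz, (hσ.zero _).2 (add_mem hz hl)]
      · rw [h2 z hz, h2 _ (add_not hl hz), P_add hl]) (L.ω₁ / 2)
  have h4 := L.ω₁_div_two_notMem_lattice
  rw [h2 _ h4, hσ.at0] at h3
  exact hn _ h4 (by simpa [sub_eq_zero] using h3)

variable (g2 : L.g₂ = 0) (g3 : L.g₃ = -1)
include g2 g3

theorem P_eqn (hA : A ∉ L.lattice) : ℘'[L] A ^ 2 = 4 * ℘[L] A ^ 3 + 1 := by
  rw [L.derivWeierstrassP_sq A hA, g2, g3]
  ring

theorem four (hA : A ∉ L.lattice) (hB : B ∉ L.lattice) (hC : A + B ∉ L.lattice) :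
    Four (℘[L] A) (℘[L] B) (℘'[L] A) (℘'[L] B) (℘[L] (A + B)) (℘'[L] (A + B)) := by
  obtain ⟨σ, hσ⟩ := exists_sigma L
  have hs : ((L.lattice : Set ℂ) ∪ (fun w => 2 * w) ⁻¹' L.lattice ∪
      (fun w => w + B) ⁻¹' L.lattice ∪ (fun w => w - B) ⁻¹' L.lattice).Countable :=
    (((cnt L).union ((cnt L).preimage (mul_right_injective₀ two_ne_zero))).union
      ((cnt L).preimage (add_left_injective B))).union ((cnt L).preimage sub_left_injective)
  refine four_ext (X := fun w => ℘[L] (w + B)) (P := fun w => ℘'[L] (w + B)) hs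
    (dP hA).continuousAt (ELL.dP' hA).continuousAt ((dP hC).comp_add_const A B).continuousAt
    ((ELL.dP' hC).comp_add_const A B).continuousAt fun w hw => ?_
  simp only [Set.mem_union, Set.mem_preimage, SetLike.mem_coe, not_or] at hw
  obtain ⟨⟨⟨h1, h2⟩, h3⟩, h4⟩ := hw
  have a := hσ.P_sum h1 h2 hB h3 h4
  have b := hσ.P'_sum h1 h2 hB h3 h4
  rw [g2, g3] at a b
  exact four_of (P_eqn g2 g3 h1) (P_eqn g2 g3 hB) (hσ.P_ne h1 hB h3 h4)
    (by linear_combination a) (by linear_combination b)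

theorem chord {a : ℂ} (hA : A ∉ L.lattice) (hB : B ∉ L.lattice)
    (h1 : 2 * a * (℘[L] A - ℘[L] B) = ℘'[L] A - ℘'[L] B)
    (h2 : a * (℘'[L] A + ℘'[L] B) = 2 * (℘[L] A ^ 2 + ℘[L] A * ℘[L] B + ℘[L] B ^ 2)) :
    A + B ∉ L.lattice ∧ ℘[L] (A + B) = a ^ 2 - ℘[L] A - ℘[L] B ∧
      ℘'[L] (A + B) = -℘'[L] A - 2 * a * (℘[L] (A + B) - ℘[L] A) := by
  have key : ℘[L] A - ℘[L] B = 0 → ℘'[L] A + ℘'[L] B = 0 → False := fun hD hS => by
    have e := P_eqn g2 g3 hA
    have a1 : ℘'[L] A = 0 := by linear_combination hS / 2 - h1 / 2 + a * hD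
    have a2 : ℘[L] A ^ 2 = 0 := by
      linear_combination (a * hS - h2) / 6 + (2 * ℘[L] A + ℘[L] B) / 3 * hD
    have : (1 : ℂ) = 0 := by linear_combination ℘'[L] A * a1 - e - 4 * ℘[L] A * a2
    exact one_ne_zero this
  have hC : A + B ∉ L.lattice := fun h =>
    key (by rw [(P_neg_of h).1, sub_self]) (by rw [(P_neg_of h).2, add_neg_cancel])
  obtain ⟨f1, f2, f3, f4⟩ := four g2 g3 hA hB hC
  refine ⟨hC, ?_⟩
  by_cases hD : ℘[L] A - ℘[L] B = 0
  · have hS : ℘'[L] A + ℘'[L] B ≠ 0 := key hD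
    refine ⟨mul_left_cancel₀ (pow_ne_zero 2 hS) ?_, mul_left_cancel₀ hS ?_⟩
    · linear_combination f3 - (a * (℘'[L] A + ℘'[L] B) +
        2 * (℘[L] A ^ 2 + ℘[L] A * ℘[L] B + ℘[L] B ^ 2)) * h2
    · linear_combination f4 + 2 * (℘[L] (A + B) - ℘[L] A) * h2
  · refine ⟨mul_left_cancel₀ (mul_ne_zero (by norm_num : (4 : ℂ) ≠ 0) (pow_ne_zero 2 hD)) ?_,
      mul_left_cancel₀ hD ?_⟩
    · linear_combination f1 - (2 * a * (℘[L] A - ℘[L] B) + (℘'[L] A - ℘'[L] B)) * h1
    · linear_combination f2 + (℘[L] (A + B) - ℘[L] A) * h1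

end add

end HexP

open HexP

theorem hex : HexStmt := by
  have m1 := hp_mem one_ne_zero
  obtain ⟨σ, hσ⟩ := exists_sigma (hp 1 one_ne_zero)
  have h0 : ℘'[hp 1 one_ne_zero] z0 ≠ 0 := fun h => npole_z0 ((m1 _).1 ((hσ.zero _).1 (by
    rw [one_mul, ← two_mul, hσ.dup fun h => not_lat_z0 ((m1 _).1 (by rwa [one_mul])), h,
      mul_zero, neg_zero])))
  obtain ⟨κ, hκ⟩ := IsAlgClosed.exists_pow_nat_eq (℘'[hp 1 one_ne_zero] z0) (n := 3) (by norm_num)
  have hne : κ ≠ 0 := fun h => h0 (by rw [← hκ, h]; norm_num)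
  have m := hp_mem hne
  have p1 : ℘'[hp κ hne] (κ * z0) = 1 := mul_left_cancel₀ (pow_ne_zero 3 hne) (by
    rw [P'_scale (L := hp 1 one_ne_zero) fun z => by rw [m, ← m1, one_mul], hκ, mul_one])
  refine ⟨hp κ hne, κ, hne, rfl, rfl, m, g2_zero hne m, ?_, P_z0 hne m, p1⟩
  have := (hp κ hne).derivWeierstrassP_sq _ (mt (m _).1 not_lat_z0)
  rw [p1, P_z0 hne m] at this
  linear_combination this

theorem add : AddStmt := by
  intro L κ H
  have np : ∀ {z}, ¬ Pole z → κ * (z + z0) ∉ L.lattice := fun h => mt (H.mem _).1 h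
  have h3 : κ * (3 * z0) ∈ L.lattice := (H.mem _).2 lat_three_z0
  have eC : ∀ u v, κ * (-u - v + z0) = -(κ * (u + z0) + κ * (v + z0)) + κ * (3 * z0) :=
    fun u v => by ring
  have ez : κ * (z0 + z0) = -(κ * z0) + κ * (3 * z0) := by ring
  have ep : ∀ z (x : O), κ * (z + io x + z0) = κ * (z + z0) + κ * io x := fun z x => by ring
  have hC : ∀ u v, Pole (-u - v) ↔ κ * (u + z0) + κ * (v + z0) ∈ L.lattice := fun u v => by
    rw [Pole, ← H.mem, eC, (L.lattice.add_mem_iff_left h3), neg_mem_iff]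
  refine ⟨fun z hz => ?_, ?_, ?_, ?_, ?_, fun z x => ?_, fun z x => ?_, P_rot H.ne H.mem,
    fun z => ?_, fun u v a hu hv h1 h2 => ?_, fun u v hu hv hw => ?_,
    fun u v hu hv h1 h2 => ?_, fun x y h => ?_⟩ <;> simp only [tt, ss] at *
  · linear_combination P_eqn H.g2 H.g3 (np hz) / 4
  · rw [zero_add, H.p0]
  · rw [zero_add, H.p1, sub_self, zero_div]
  · rw [ez, P_add h3, weierstrassP_neg, H.p0]
  · rw [ez, P'_add h3, derivWeierstrassP_neg, H.p1]
    norm_num
  · rw [ep, P_add ((H.mem _).2 (lat_io x))]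
  · rw [ep, P'_add ((H.mem _).2 (lat_io x))]
  · rw [P'_rot H.ne H.mem]
  · obtain ⟨a1, a2, a3⟩ := chord H.g2 H.g3 (a := a) (np hu) (np hv) (by linear_combination 2 * h1)
      (by linear_combination 2 * h2)
    rw [hC, eC, P_add h3, P'_add h3, weierstrassP_neg, derivWeierstrassP_neg]
    exact ⟨a1, a2, by linear_combination -a3 / 2⟩
  · by_contra hn
    rw [not_or, not_not, not_not] at hn
    refine hw ((hC u v).2 ?_)
    have := P_inj (np hu) (B := -(κ * (v + z0))) (mt neg_mem_iff.1 (np hv))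
      (by rw [weierstrassP_neg, hn.1]) (by rw [derivWeierstrassP_neg]; linear_combination 2 * hn.2)
    rwa [sub_neg_eq_add] at this
  · have := P_inj (np hu) (np hv) h1 (by linear_combination 2 * h2)
    rwa [show κ * (u + z0) - κ * (v + z0) = κ * (u - v) by ring, H.mem] at this
  · obtain ⟨A, hA, e⟩ := P_surj L x
    have e2 := P_eqn H.g2 H.g3 hA
    obtain ⟨B, hB, e3, e4⟩ : ∃ B ∉ L.lattice, ℘[L] B = x ∧ ℘'[L] B = 2 * y + 1 := by
      have : (℘'[L] A - (2 * y + 1)) * (-℘'[L] A - (2 * y + 1)) = 0 := by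
        rw [e] at e2
        linear_combination 4 * h - e2
      rcases mul_eq_zero.1 this with h1 | h1
      · exact ⟨A, hA, e, sub_eq_zero.1 h1⟩
      · exact ⟨-A, mt neg_mem_iff.1 hA, by rw [weierstrassP_neg, e],
          by rw [derivWeierstrassP_neg, sub_eq_zero.1 h1]⟩
    have eB : κ * (B / κ - z0 + z0) = B := by rw [sub_add_cancel, mul_div_cancel₀ _ H.ne]
    refine ⟨B / κ - z0, fun h1 => hB (eB ▸ (H.mem _).2 h1), by rw [eB, e3], ?_⟩
    rw [eB, e4]
    ring

end Pool.Agent.MP_59efd2_nt.CM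

end
end MrgPart4

-- ======== part 5: formerly Pool.Agent.MP_59efd2_nt.cm.Ker
section MrgPart5

/-!
The kernel of reduction.
-/

noncomputable section

namespace Pool.Agent.MP_59efd2_nt.CM

open Pool.Agent.MP_db1c88_nt.QRH (O om lam wC io)

namespace KerP

variable {V : ValuationSubring ℂ} {x y : ℂ}

theorem mul_m (hx : x ∈ V) (hy : V.valuation y < 1) : V.valuation (x * y) < 1 := by
  rw [map_mul]
  exact (mul_le_of_le_one_left' ((V.valuation_le_one_iff x).2 hx)).trans_lt hy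

theorem mem_m (hx : V.valuation x < 1) : x ∈ V := (V.valuation_le_one_iff x).1 hx.le

theorem div_m (hx : V.valuation x < 1) (hy : V.valuation y = 1) : V.valuation (x / y) < 1 := by
  rwa [map_div₀, hy, div_one]

theorem ne_u (hy : V.valuation y = 1) : y ≠ 0 := fun h => by simp [h] at hy

variable {t s : ℂ → ℂ} (h : Cur t s) {u w : ℂ}
include h

theorem t_m (hu : A1 s V u) : V.valuation (t u) < 1 := by
  refine (pow_lt_one_iff (n := 3) (by norm_num)).1 ?_
  rw [← map_pow, ← h.eqn u hu.1, show s u ^ 2 + s u = (s u + 1) * s u by ring]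
  exact mul_m (add_mem (mem_m hu.2) (one_mem _)) hu.2

theorem t_o (hu : ¬ Pole u) (h1 : s u ∈ V) : t u ∈ V := by
  rw [← V.valuation_le_one_iff, ← pow_le_one_iff (n := 3) (by norm_num), ← map_pow, ← h.eqn u hu,
    V.valuation_le_one_iff]
  exact add_mem (pow_mem h1 _) h1

theorem congr (hu : ¬ Pole u) (h1 : s u ∈ V) (h2 : V.valuation (1 + s u) = 1) (hw : A1 s V w) :
    ¬ Pole (u + w) ∧ V.valuation (s (u + w) - s u) < 1 := by
  have eu := h.eqn u hu
  have ew := h.eqn w hw.1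
  have tu := t_o h hu h1
  have tw := t_m h hw
  have sw := hw.2
  have d : V.valuation (1 + s w + s u) = 1 := by
    rw [add_right_comm, V.valuation.map_add_eq_of_lt_left (h2 ▸ sw), h2]
  have d0 := ne_u d
  obtain ⟨a, ha⟩ : ∃ a, a = (t w ^ 2 + t w * t u + t u ^ 2) / (1 + s w + s u) := ⟨_, rfl⟩
  have a2 : a * (1 + s w + s u) = t w ^ 2 + t w * t u + t u ^ 2 := by rw [ha]; field_simp
  have ao : a ∈ V := by
    rw [← V.valuation_le_one_iff, ha, map_div₀, d, div_one, V.valuation_le_one_iff]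
    exact add_mem (add_mem (pow_mem (mem_m tw) _) (mul_mem (mem_m tw) tu)) (pow_mem tu _)
  obtain ⟨p, b, c⟩ := h.add w u a hw.1 hu
    (mul_right_cancel₀ d0 (by linear_combination (t w - t u) * a2 - ew + eu)) a2
  obtain ⟨δ, hδ⟩ : ∃ δ, δ = (t w + t u) * t w + -a * s w := ⟨_, rfl⟩
  have δm : V.valuation δ < 1 := hδ ▸ V.valuation.map_add_lt
    (mul_m (add_mem (mem_m tw) tu) tw) (mul_m (neg_mem ao) sw)
  have a3 : a * (1 + s u) = t u ^ 2 + δ := by linear_combination a2 - hδ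
  have o1 : 1 + s u ∈ V := add_mem (one_mem _) h1
  have o3 : (3 : ℂ) ∈ V := ofNat_mem _ _
  have o2 : (2 : ℂ) ∈ V := ofNat_mem _ _
  have δo := mem_m δm
  have em : V.valuation ((1 + s u) * s (-w - u) + s u) < 1 := by
    have : ((1 + s u) * s (-w - u) + s u) * (1 + s u) ^ 2 = (1 + s u) ^ 3 * s w +
        ((3 * t u ^ 4 + 3 * t u ^ 2 * δ + δ ^ 2 - t u * (1 + s u) ^ 2) * δ +
          -(2 * (t u ^ 2 + δ) * (1 + s u) ^ 2) * t w) := by
      rw [c, b]
      linear_combination ((a * (1 + s u)) ^ 2 + a * (1 + s u) * (t u ^ 2 + δ) + (t u ^ 2 + δ) ^ 2 -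
        (2 * t w + t u) * (1 + s u) ^ 2) * a3 - (t u ^ 3 - (1 + s u)) * eu
    have e := congrArg V.valuation this
    rw [map_mul, map_pow, h2, one_pow, mul_one] at e
    rw [e]
    refine V.valuation.map_add_lt (mul_m (pow_mem o1 _) sw)
      (V.valuation.map_add_lt (mul_m ?_ δm) (mul_m ?_ tw)) <;>
      apply_rules [add_mem, sub_mem, mul_mem, neg_mem, pow_mem, one_mem]
  have u3 : V.valuation (1 + s (-w - u)) = 1 := by
    have := V.valuation.map_one_add_of_lt em
    rwa [show 1 + ((1 + s u) * s (-w - u) + s u) = (1 + s u) * (1 + s (-w - u)) by ring, map_mul,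
      h2, one_mul] at this
  obtain ⟨q1, -, q2⟩ := h.neg p (ne_u u3)
  rw [show -(-w - u) = u + w by ring] at q1 q2
  refine ⟨q1, ?_⟩
  have := ne_u u3
  rw [q2, show -s (-w - u) / (1 + s (-w - u)) - s u =
    -((1 + s u) * s (-w - u) + s u) / (1 + s (-w - u)) by field_simp; ring]
  exact div_m (by rwa [Valuation.map_neg]) u3

theorem add (hu : A1 s V u) (hw : A1 s V w) : A1 s V (u + w) := by
  obtain ⟨h1, h2⟩ := congr h hu.1 (mem_m hu.2) (V.valuation.map_one_add_of_lt hu.2) hw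
  exact ⟨h1, by simpa using V.valuation.map_add_lt h2 hu.2⟩

theorem neg (hu : A1 s V u) : A1 s V (-u) := by
  have h1 := V.valuation.map_one_add_of_lt hu.2
  obtain ⟨q1, -, q2⟩ := h.neg hu.1 (ne_u h1)
  exact ⟨q1, q2 ▸ div_m (by rw [Valuation.map_neg]; exact hu.2) h1⟩

theorem lat (hu : Lat u) : A1 s V u := ⟨npole_lat hu, by simp [h.s_lat hu]⟩

theorem int (hu : A1 s V u) (n : ℤ) : A1 s V (n * u) := by
  induction n with
  | zero => simpa using lat h lat_zero
  | succ n ih => simpa [add_mul] using add h ih hu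
  | pred n ih => simpa [sub_mul, sub_eq_add_neg, add_mul] using add h ih (neg h hu)

theorem mul (x : O) (hu : A1 s V u) : A1 s V (io x * u) := by
  have : A1 s V (wC * u) := ⟨fun p => hu.1 (by
    have := p.mul (γ := om ^ 2) ⟨om, by decide⟩
    rwa [map_pow, io_om, ← mul_assoc, ← pow_succ, wC_cube, one_mul] at this), h.rot_s u ▸ hu.2⟩
  rw [io_eq, add_mul, mul_assoc]
  exact add h (int h hu _) (int h this _)

theorem s_o {γ : O} (hγ : lam ∣ γ - 1) (hu : Lat (io γ * u)) : s u ∈ V := by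
  by_contra hc
  have h0 : s u ≠ 0 := fun e => hc (e ▸ zero_mem _)
  obtain ⟨q1, -, q2⟩ := h.refl (npole hγ hu) h0
  refine (mul h γ (V := V) ⟨q1, ?_⟩).1 ?_
  · rw [q2, one_div, map_inv₀, inv_lt_one₀ (by simpa [zero_lt_iff] using h0)]
    exact not_le.1 (mt (V.valuation_le_one_iff _).1 hc)
  · have := (hu.add (lat_mul_z0.2 hγ)).neg
    rwa [show -(io γ * u + io (γ - 1) * z0) = io γ * (-u - z0) + z0 by simp; ring] at this

omit h in
theorem integral (hx : ∀ V : ValuationSubring ℂ, x ∈ V) : IsIntegral ℤ x := by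
  have h1 : x ∈ (integralClosure (Subring.closure (∅ : Set ℂ)) ℂ).toSubring := by
    rw [← iInf_valuationSubring_superset]
    exact Subring.mem_iInf.2 fun V => hx V
  have : Algebra.IsIntegral ℤ (Subring.closure (∅ : Set ℂ)) := ⟨fun ⟨y, hy⟩ => by
    rw [Subring.closure_empty, Subring.mem_bot] at hy
    obtain ⟨n, rfl⟩ := hy
    exact isIntegral_algebraMap (x := n)⟩
  exact isIntegral_trans (A := Subring.closure (∅ : Set ℂ)) x h1

end KerP

open KerP

theorem ker : KerStmt := fun t s h =>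
  { lat := fun _ _ => lat h
    add := fun _ _ _ => KerP.add h
    mul := fun _ x _ => mul h x
    congr := fun V _ _ hu h1 => congr h hu ((V.valuation_le_one_iff _).1 h1)
    tors := fun V γ z hγ hz => by
      have hz' : Lat (io γ * -z) := by simpa using hz.neg
      have h0 := s_o h (V := V) hγ hz
      have h1 := h.one_add_ne (npole hγ hz) (npole hγ hz')
      have h2 : 1 + s (-z) ∈ V := add_mem (one_mem _) (s_o h hγ hz')
      rw [(h.neg (npole hγ hz) h1).2.2, show 1 + -s z / (1 + s z) = (1 + s z)⁻¹ by field_simp; ring,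
        ← V.valuation_le_one_iff, map_inv₀, inv_le_one₀ (by simpa [zero_lt_iff] using h1)] at h2
      exact ⟨(V.valuation_le_one_iff _).2 (t_o h (npole hγ hz) h0), (V.valuation_le_one_iff _).2 h0,
        le_antisymm ((V.valuation_le_one_iff _).2 (add_mem (one_mem _) h0)) h2⟩
    intg := fun _ _ hγ hz => ⟨integral fun _ => t_o h (npole hγ hz) (s_o h hγ hz),
      integral fun _ => s_o h hγ hz⟩ }

end Pool.Agent.MP_59efd2_nt.CM

end
end MrgPart5

-- ======== part 6: formerly Pool.Agent.MP_59efd2_nt.cm.Val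
section MrgPart6

/-!
Row VAL: reduction of torsion points.
-/

noncomputable section

namespace Pool.Agent.MP_59efd2_nt.CM

open Pool.Agent.MP_db1c88_nt.QRH (O om lam wC io Primary wC_sq norm_pos')

namespace ValP

open IsLocalRing

variable {V : ValuationSubring ℂ}

/-- `x` is integral with residue `a` -/
def Rs (V : ValuationSubring ℂ) (x : ℂ) (a : ResidueField V) : Prop :=
  ∃ y : V, (y : ℂ) = x ∧ residue V y = a

theorem exists_rs {x : ℂ} (h : V.valuation x ≤ 1) : ∃ a, Rs V x a :=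
  ⟨_, ⟨x, (V.valuation_le_one_iff x).1 h⟩, rfl, rfl⟩

namespace Rs

variable {x y : ℂ} {a b : ResidueField V}

theorem lt_iff (h : Rs V x a) : V.valuation x < 1 ↔ a = 0 := by
  obtain ⟨y, rfl, rfl⟩ := h
  rw [residue_eq_zero_iff, ValuationSubring.valuation_lt_one_iff]

theorem ne (h : Rs V x a) (h1 : V.valuation x = 1) : a ≠ 0 := fun h0 => (h.lt_iff.2 h0).ne h1

theorem of_lt (h : V.valuation x < 1) : Rs V x 0 := by
  obtain ⟨a, ha⟩ := exists_rs h.le
  exact ha.lt_iff.1 h ▸ ha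

theorem uniq (h : Rs V x a) (h' : Rs V x b) : a = b := by
  obtain ⟨y, rfl, rfl⟩ := h
  obtain ⟨z, hz, rfl⟩ := h'
  rw [Subtype.ext hz]

theorem add (h : Rs V x a) (h' : Rs V y b) : Rs V (x + y) (a + b) := by
  obtain ⟨y, rfl, rfl⟩ := h
  obtain ⟨z, rfl, rfl⟩ := h'
  exact ⟨y + z, rfl, map_add _ _ _⟩

theorem mul (h : Rs V x a) (h' : Rs V y b) : Rs V (x * y) (a * b) := by
  obtain ⟨y, rfl, rfl⟩ := h
  obtain ⟨z, rfl, rfl⟩ := h'
  exact ⟨y * z, rfl, map_mul _ _ _⟩

theorem neg (h : Rs V x a) : Rs V (-x) (-a) := by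
  obtain ⟨y, rfl, rfl⟩ := h
  exact ⟨-y, rfl, map_neg _ _⟩

theorem sub (h : Rs V x a) (h' : Rs V y b) : Rs V (x - y) (a - b) := by
  simpa [sub_eq_add_neg] using h.add h'.neg

theorem pow (h : Rs V x a) (n : ℕ) : Rs V (x ^ n) (a ^ n) := by
  obtain ⟨y, rfl, rfl⟩ := h
  exact ⟨y ^ n, by simp, map_pow _ _ _⟩

theorem one : Rs V 1 1 := ⟨1, rfl, map_one _⟩

theorem three : Rs V 3 3 := by
  have := (one (V := V)).add (one.add one)
  norm_num at this
  exact this

theorem ne_zero (h : Rs V x a) (ha : a ≠ 0) : x ≠ 0 := by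
  rintro rfl
  exact ha (h.lt_iff.1 (by simp))

theorem div (h : Rs V x a) (h' : Rs V y b) (hb : b ≠ 0) : Rs V (x / y) (a / b) := by
  have h0 := h'.ne_zero hb
  have h1 : V.valuation y = 1 := by
    obtain ⟨z, rfl, rfl⟩ := id h'
    exact le_antisymm (V.valuation_le_one z) (not_lt.1 fun h2 => hb (h'.lt_iff.1 h2))
  obtain ⟨c, hc⟩ := exists_rs (V := V) (x := y⁻¹) (by simp [h1])
  have h2 : b * c = 1 := (h'.mul hc).uniq (by rw [mul_inv_cancel₀ h0]; exact one)
  rw [div_eq_mul_inv, div_eq_mul_inv, ← eq_inv_of_mul_eq_one_right h2]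
  exact h.mul hc

theorem prod {ι : Type} (F : Finset ι) {f : ι → ℂ} (h : ∀ i ∈ F, Rs V (f i) a) :
    Rs V (∏ i ∈ F, f i) (a ^ F.card) := by
  classical
  induction F using Finset.induction_on with
  | empty => simpa using one
  | insert i F hi ih =>
    rw [Finset.prod_insert hi, Finset.card_insert_of_notMem hi, pow_succ']
    exact (h i (Finset.mem_insert_self _ _)).mul
      (ih fun j hj => h j (Finset.mem_insert_of_mem hj))

end Rs

theorem fin (hA : AriStmt) {γ : O} (h : lam ∣ γ - 1) : Finite (O ⧸ Ideal.span {γ}) := by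
  refine Nat.finite_of_card_ne_zero ?_
  have := norm_pos' (ne_zero_of_lam h)
  rw [hA.card_quot]
  omega

theorem lat_tp {γ : O} (h : lam ∣ γ - 1) (q : O ⧸ Ideal.span {γ}) : Lat (io γ * tp γ q) :=
  ⟨q.out, by rw [tp, mul_div_cancel₀ _ (io_ne (ne_zero_of_lam h))]⟩

variable {t s : ℂ → ℂ}

/-- the kernel of reduction has no torsion of order prime to the residue characteristic -/
theorem lat_of_A1 (hA : AriStmt) (hC : Cur t s) (hK : Ker t s) (hP : Prd s) {γ : O}
    (h : lam ∣ γ - 1) (h2 : IsCoprime γ 2) (hv : V.valuation (io γ) = 1) {z : ℂ}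
    (hz : Lat (io γ * z)) (h1 : A1 s V z) : Lat z := by
  classical
  have := fin hA h
  let _ := Fintype.ofFinite (O ⧸ Ideal.span {γ})
  have h0 := ne_zero_of_lam h
  obtain ⟨y, hy⟩ := hz
  obtain rfl : z = io y / io γ := by rw [← hy, mul_div_cancel_left₀ _ (io_ne h0)]
  by_contra hn
  have hq : Ideal.Quotient.mk (Ideal.span {γ}) y ∈ Finset.univ.erase 0 := by
    refine Finset.mem_erase.2 ⟨fun e => hn ((lat_div h0).2 ?_), Finset.mem_univ _⟩
    exact Ideal.mem_span_singleton.1 (Ideal.Quotient.eq_zero_iff_mem.1 e)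
  have hl : Lat (tp γ (Ideal.Quotient.mk _ y) - io y / io γ) := by
    rw [tp, ← sub_div, ← map_sub, lat_div h0, ← Ideal.mem_span_singleton, ← Ideal.Quotient.eq]
    exact Ideal.Quotient.mk_out _
  have e := hC.s_add hl (io y / io γ)
  rw [add_sub_cancel] at e
  have e1 := congrArg V.valuation (hP.lead γ h h2)
  rw [map_pow, hv, one_pow, ← Finset.mul_prod_erase _ _ hq, map_mul, map_prod, e] at e1
  refine (mul_lt_one_of_lt_of_le h1.2 (Finset.prod_le_one' fun q _ => ?_)).ne e1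
  exact (hK.tors V γ _ h (lat_tp h q)).2.1

/-- the torsion of a prime dividing the residue characteristic reduces to the origin -/
theorem A1_tp (hA : AriStmt) (hK : Ker t s) (hP : Prd s) {x : O} (h : lam ∣ x - 1)
    (h2 : IsCoprime x 2) (hp : Prime x) (hv : V.valuation (io x) < 1)
    (q : O ⧸ Ideal.span {x}) : A1 s V (tp x q) := by
  classical
  have := fin hA h
  let _ := Fintype.ofFinite (O ⧸ Ideal.span {x})
  obtain ⟨q₀, hq, h1⟩ : ∃ q₀ ∈ Finset.univ.erase 0, V.valuation (s (tp x q₀)) < 1 := by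
    by_contra hn
    have e1 := congrArg V.valuation (hP.lead x h h2)
    rw [map_pow, map_prod, Finset.prod_eq_one fun q hq =>
      le_antisymm (hK.tors V x _ h (lat_tp h q)).2.1 (not_lt.1 fun h3 => hn ⟨q, hq, h3⟩)] at e1
    exact (pow_lt_one₀ zero_le hv three_ne_zero).ne' e1
  have hn : ¬ x ∣ q₀.out := fun hd => (Finset.mem_erase.1 hq).1 (by
    rw [← Ideal.Quotient.mk_out q₀]
    exact Ideal.Quotient.eq_zero_iff_mem.2 (Ideal.mem_span_singleton.2 hd))
  obtain ⟨a, b, hab⟩ := hp.coprime_iff_not_dvd.2 hn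
  have e : tp x q = io (q.out * a) + io (q.out * b) * tp x q₀ := by
    have h0 := io_ne hp.ne_zero
    have e1 := congrArg io hab
    simp only [map_add, map_mul, map_one] at e1
    simp only [tp, map_mul]
    field_simp
    linear_combination -io q.out * e1
  rw [e]
  exact hK.add V _ _ (hK.lat V _ (lat_io _)) (hK.mul V _ _ ⟨npole h (lat_tp h q₀), h1⟩)

/-- two integral points with the same reduction differ by a point of the kernel -/
theorem sep0 (hC : Cur t s) (h3 : V.valuation 3 = 1) {z w : ℂ} {τ σ : ResidueField V}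
    (hz : ¬ Pole z) (hw : ¬ Pole w) (tz : Rs V (t z) τ) (sz : Rs V (s z) σ) (tw : Rs V (t w) τ)
    (sw : Rs V (s w) σ) (h1 : 1 + σ ≠ 0) : A1 s V (z - w) := by
  have he : σ ^ 2 + σ = τ ^ 3 := ((sz.pow 2).add sz).uniq (hC.eqn z hz ▸ tz.pow 3)
  obtain ⟨hu, e1, e2⟩ := hC.neg hz ((Rs.one.add sz).ne_zero h1)
  have tu : Rs V (t (-z)) (-τ / (1 + σ)) := e1 ▸ tz.neg.div (Rs.one.add sz) h1
  have su : Rs V (s (-z)) (-σ / (1 + σ)) := e2 ▸ sz.neg.div (Rs.one.add sz) h1
  have c1 := hC.eqn _ hu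
  have c2 := hC.eqn _ hw
  obtain ⟨a, a1, a2, a3⟩ : ∃ a, a * (t (-z) - t w) = s (-z) - s w ∧
      a * (1 + s (-z) + s w) = t (-z) ^ 2 + t (-z) * t w + t w ^ 2 ∧ Rs V a (τ ^ 2 / (1 + σ)) := by
    by_cases h4 : 1 + σ + σ ^ 2 = 0
    · have h5 : τ ≠ 0 := by
        rintro rfl
        exact one_ne_zero (by linear_combination h4 - he : (1 : ResidueField V) = 0)
      have h6 : 2 + σ ≠ 0 := fun h6 =>
        Rs.three.ne h3 (by linear_combination h4 + (1 - σ) * h6)
      have h7 : -τ / (1 + σ) - τ ≠ 0 := by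
        rw [show -τ / (1 + σ) - τ = -(τ * (2 + σ)) / (1 + σ) by field_simp; ring]
        exact div_ne_zero (neg_ne_zero.2 (mul_ne_zero h5 h6)) h1
      have h8 := (tu.sub tw).ne_zero h7
      refine ⟨(s (-z) - s w) / (t (-z) - t w), div_mul_cancel₀ _ h8, ?_, ?_⟩
      · field_simp
        linear_combination c1 - c2
      · have := (su.sub sw).div (tu.sub tw) h7
        rwa [show (-σ / (1 + σ) - σ) / (-τ / (1 + σ) - τ) = τ ^ 2 / (1 + σ) by
          rw [div_eq_iff h7]
          field_simp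
          linear_combination -(2 + σ) * he] at this
    · have h7 : 1 + -σ / (1 + σ) + σ ≠ 0 := by
        rw [show 1 + -σ / (1 + σ) + σ = (1 + σ + σ ^ 2) / (1 + σ) by field_simp; ring]
        exact div_ne_zero h4 h1
      have h8 := ((Rs.one.add su).add sw).ne_zero h7
      refine ⟨(t (-z) ^ 2 + t (-z) * t w + t w ^ 2) / (1 + s (-z) + s w), ?_,
        div_mul_cancel₀ _ h8, ?_⟩
      · field_simp
        linear_combination c2 - c1
      · have := (((tu.pow 2).add (tu.mul tw)).add (tw.pow 2)).div ((Rs.one.add su).add sw) h7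
        rwa [show ((-τ / (1 + σ)) ^ 2 + -τ / (1 + σ) * τ + τ ^ 2) / (1 + -σ / (1 + σ) + σ) =
            τ ^ 2 / (1 + σ) by
          rw [div_eq_iff h7]
          field_simp
          ring] at this
  obtain ⟨b1, b2, b3⟩ := hC.add (-z) w a hu hw a1 a2
  rw [neg_neg] at b1 b2 b3
  have tD := ((a3.pow 2).sub tu).sub tw
  rw [← b2] at tD
  have sD := su.add (a3.mul (tD.sub tu))
  rw [← b3] at sD
  refine ⟨b1, sD.lt_iff.2 ?_⟩
  field_simp
  linear_combination (-τ ^ 3 - (1 + σ)) * he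

theorem rot_pow (hC : Cur t s) (j : ℕ) (z : ℂ) :
    t (wC ^ j * z) = wC ^ j * t z ∧ s (wC ^ j * z) = s z := by
  induction j with
  | zero => simp
  | succ j ih => rw [pow_succ', mul_assoc, hC.rot_t, hC.rot_s, ih.1, ih.2, mul_assoc]; simp

end ValP

open ValP

theorem val (hA : AriStmt) : ValStmt := by
  intro t s hC hK hP
  refine ⟨fun V γ x z h hz hx h2 hp hv => ?_, fun V γ z z' h h2 hv h3 hz hz' hs => ?_⟩
  · have := fin hA hx
    let _ := Fintype.ofFinite (O ⧸ Ideal.span {x})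
    obtain ⟨-, k1, k2⟩ := hK.tors V γ z h hz
    obtain ⟨a, ha⟩ := exists_rs k1
    have hxz : ¬ Pole (io x * z) := npole h (by rw [mul_left_comm]; exact hz.mul x)
    have k3 := Rs.prod (V := V) Finset.univ (f := fun q => s (z + tp x q)) (a := a) fun q _ => by
      have := (Rs.of_lt (hK.congr V z _ (npole h hz) k1 k2 (A1_tp hA hK hP hx h2 hp hv q)).2).add ha
      rwa [sub_add_cancel, zero_add] at this
    rw [← hP.prod x hx h2 z hxz, Finset.card_univ, ← Nat.card_eq_fintype_card, hA.card_quot] at k3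
    exact (k3.sub (ha.pow _)).lt_iff.2 (sub_self _)
  · obtain ⟨k0, k1, -⟩ := hK.tors V γ z h hz
    obtain ⟨k0', k1', k2'⟩ := hK.tors V γ z' h hz'
    obtain ⟨τ, tz⟩ := exists_rs k0
    obtain ⟨τ', tz'⟩ := exists_rs k0'
    obtain ⟨σ, sz'⟩ := exists_rs k1'
    have sz : Rs V (s z) σ := by
      have := (Rs.of_lt hs).add sz'
      rwa [sub_add_cancel, zero_add] at this
    obtain ⟨ω, hω⟩ := exists_rs (V := V) (x := wC) (by
      have := congrArg V.valuation wC_cube
      rw [map_pow, map_one] at this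
      exact ((pow_eq_one_iff_of_nonneg zero_le three_ne_zero).1 this).le)
    have e0 : ω * ω = -1 - ω := (hω.mul hω).uniq (wC_sq ▸ Rs.one.neg.sub hω)
    have e1 : σ ^ 2 + σ = τ ^ 3 := ((sz.pow 2).add sz).uniq (hC.eqn z (npole h hz) ▸ tz.pow 3)
    have e2 : σ ^ 2 + σ = τ' ^ 3 :=
      ((sz'.pow 2).add sz').uniq (hC.eqn z' (npole h hz') ▸ tz'.pow 3)
    obtain ⟨j, hj⟩ : ∃ j : ℕ, ω ^ j * τ = τ' := by
      have e3 : (ω ^ 0 * τ - τ') * ((ω ^ 1 * τ - τ') * (ω ^ 2 * τ - τ')) = 0 := by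
        linear_combination e2 - e1 +
          ((ω - 1) * τ ^ 2 * (τ - τ') - τ * τ' * (τ - τ')) * e0
      rcases mul_eq_zero.1 e3 with e | e
      · exact ⟨0, sub_eq_zero.1 e⟩
      · rcases mul_eq_zero.1 e with e | e
        · exact ⟨1, sub_eq_zero.1 e⟩
        · exact ⟨2, sub_eq_zero.1 e⟩
    have hw : Lat (io γ * (wC ^ j * z)) := by
      rw [mul_left_comm, ← io_om, ← map_pow]
      exact hz.mul _
    obtain ⟨r1, r2⟩ := rot_pow hC j z
    refine ⟨j, lat_of_A1 hA hC hK hP h h2 hv (by rw [mul_sub]; exact hz'.sub hw)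
      (sep0 hC h3 (npole h hz') (npole h hw) tz' sz' ?_ (r2 ▸ sz) ((Rs.one.add sz').ne k2'))⟩
    rw [r1, ← hj]
    exact (hω.pow j).mul tz

end Pool.Agent.MP_59efd2_nt.CM

end
end MrgPart6

-- ======== part 7: formerly Pool.Agent.MP_59efd2_nt.cm.Weil
section MrgPart7

/-! The determinant of the action on torsion points, by an algebraic formula for the pairing. -/

noncomputable section

namespace Pool.Agent.MP_59efd2_nt.CM

open Complex PeriodPair Pool.Agent.ELL
open scoped Real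
open Pool.Agent.MP_db1c88_nt.QRH (O om lam wC io Primary norm_eq)

namespace WeilP

variable {L : PeriodPair} {σ : ℂ → ℂ} {g : GQ} {a b a' b' κ : ℂ}

/-- A row of the elliptic net of `a`, `b`. -/
def V (σ : ℂ → ℂ) (a b : ℂ) (m : ℕ) : ℂ :=
  σ (m * a + b) * (σ a * σ b / σ (a + b)) ^ m / (σ b * σ a ^ (m ^ 2))

lemma V_rec (h : IsSig L σ) (ha : a ∉ L.lattice) (hb : ∀ m : ℕ, m * a + b ∉ L.lattice) (m : ℕ) :
    V σ a b (m + 2) =
      V σ a b (m + 1) ^ 2 * (℘[L] a - ℘[L] ((m + 1 : ℕ) * a + b)) / V σ a b m := by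
  have h1 := h.add (hb (m + 1)) ha
  have h0 : σ b ≠ 0 := by simpa using h.ne (hb 0)
  have h2 : σ (a + b) ≠ 0 := by simpa using h.ne (hb 1)
  have h3 := h.ne ha
  have h4 := h.ne (hb m)
  rw [show ((m + 1 : ℕ) : ℂ) * a + b + a = ((m + 2 : ℕ) : ℂ) * a + b by push_cast; ring,
    show ((m + 1 : ℕ) : ℂ) * a + b - a = (m : ℂ) * a + b by push_cast; ring] at h1
  have hq : σ a * σ b / σ (a + b) ≠ 0 := div_ne_zero (mul_ne_zero h3 h0) h2
  simp only [V]
  rw [eq_div_of_mul_eq h4 h1, show (m + 2) ^ 2 = m ^ 2 + 4 * m + 4 by ring,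
    show (m + 1) ^ 2 = m ^ 2 + 2 * m + 1 by ring]
  generalize σ a * σ b / σ (a + b) = q at *
  field_simp
  ring

lemma V_eqv (h : IsSig L σ) (ha : a ∉ L.lattice) (hb : ∀ m : ℕ, m * a + b ∉ L.lattice)
    (ha' : a' ∉ L.lattice) (hb' : ∀ m : ℕ, m * a' + b' ∉ L.lattice) (e : Eqv g (℘[L] a) (℘[L] a'))
    (e' : ∀ m : ℕ, Eqv g (℘[L] (m * a + b)) (℘[L] (m * a' + b'))) (m : ℕ) :
    Eqv g (V σ a b m) (V σ a' b' m) := by
  have h0 : ∀ {a b : ℂ}, a ∉ L.lattice → (∀ m : ℕ, m * a + b ∉ L.lattice) →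
      V σ a b 0 = 1 ∧ V σ a b 1 = 1 := fun {a b} ha hb => by
    have h0 : σ b ≠ 0 := by simpa using h.ne (hb 0)
    have h2 : σ (a + b) ≠ 0 := by simpa using h.ne (hb 1)
    have h3 := h.ne ha
    refine ⟨by simp [V, h0], ?_⟩
    simp only [V, Nat.cast_one, one_mul, pow_one, one_pow]
    field_simp
  induction m using Nat.twoStepInduction with
  | zero => rw [(h0 ha hb).1, (h0 ha' hb').1]; exact Eqv.one g
  | one => rw [(h0 ha hb).2, (h0 ha' hb').2]; exact Eqv.one g
  | more m i1 i2 =>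
    rw [V_rec h ha hb, V_rec h ha' hb']
    exact ((i2.pow 2).mul (e.sub (e' _))).div i1

lemma ratio (h : IsSig L σ) {N : ℕ} (hN : Odd N) (ha : a ∉ L.lattice) (hb : b ∉ L.lattice)
    (h2 : -a + b ∉ L.lattice) (la : N * a ∈ L.lattice) :
    V σ a b N / V σ (-a) b N =
      exp (2 * (eta L σ (N * a) * b)) * (σ (-a + b) / σ (a + b)) ^ N := by
  obtain ⟨c, hc⟩ := h.quasi la
  have h3 : σ (N * a + b) = exp (eta L σ (N * a) * b + c) * σ b := by rw [add_comm, hc]
  have h4 : σ (N * -a + b) = exp (eta L σ (N * a) * -b + c) * σ b := by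
    rw [show N * -a + b = -(-b + N * a) by ring, h.odd, hc, h.odd]; ring
  have h5 : exp (eta L σ (N * a) * b + c) =
      exp (2 * (eta L σ (N * a) * b)) * exp (eta L σ (N * a) * -b + c) := by
    rw [← exp_add]; congr 1; ring
  have := h.ne ha
  have := h.ne hb
  have := h.ne h2
  have := exp_ne_zero (eta L σ (N * a) * -b + c)
  simp only [V]
  rw [h3, h4, h5, h.odd, (hN.pow (n := 2)).neg_pow, neg_mul, neg_div, hN.neg_pow, div_pow, div_pow,
    div_pow]
  field_simp

/-- The alternating form attached to the quasi-periods. -/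
def E (L : PeriodPair) (σ : ℂ → ℂ) (N : ℕ) (a b : ℂ) : ℂ :=
  exp (2 * (eta L σ (N * a) * b - eta L σ (N * b) * a))

lemma E_eq (h : IsSig L σ) {N : ℕ} (hN : Odd N) (ha : a ∉ L.lattice) (hb : b ∉ L.lattice)
    (h1 : a + b ∉ L.lattice) (h2 : -a + b ∉ L.lattice) (la : N * a ∈ L.lattice)
    (lb : N * b ∈ L.lattice) :
    E L σ N a b = -(V σ a b N / V σ (-a) b N / (V σ b a N / V σ (-b) a N)) := by
  have h3 : -b + a = -(-a + b) := by ring
  rw [ratio h hN ha hb h2 la, ratio h hN hb ha (h3 ▸ fun e => h2 (neg_mem_iff.1 e)) lb, h3, h.odd,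
    add_comm b a, neg_div, hN.neg_pow, E, mul_sub, exp_sub]
  have := pow_ne_zero N (div_ne_zero (h.ne h2) (h.ne h1))
  have := exp_ne_zero (2 * (eta L σ (N * b) * a))
  field_simp

lemma E_eqv (h : IsSig L σ) {N : ℕ} (hN : Odd N) (φ ψ : O →+ ℂ)
    (H : ∀ x : O, ¬ (7 : O) ∣ x →
      φ x ∉ L.lattice ∧ ψ x ∉ L.lattice ∧ Eqv g (℘[L] (φ x)) (℘[L] (ψ x)))
    (l1 : ∀ x, N * φ x ∈ L.lattice) (l2 : ∀ x, N * ψ x ∈ L.lattice) :
    Eqv g (E L σ N (φ 1) (φ om)) (E L σ N (ψ 1) (ψ om)) := by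
  have d : ∀ x : O, x.re = 1 ∨ x.re = -1 ∨ x.im = 1 ∨ x.im = -1 → ¬ (7 : O) ∣ x := by
    rintro _ hx ⟨y, rfl⟩
    have : (7 : O) = ⟨7, 0⟩ := rfl
    simp only [this, QuadraticAlgebra.re_mul, QuadraticAlgebra.im_mul] at hx
    omega
  have k : ∀ u v : O, ¬ (7 : O) ∣ u → (∀ m : ℕ, ¬ (7 : O) ∣ m • u + v) →
      Eqv g (V σ (φ u) (φ v) N) (V σ (ψ u) (ψ v) N) := fun u v hu hv => by
    have H' := fun m => H _ (hv m)
    simp only [map_add, map_nsmul] at H'
    simp only [nsmul_eq_mul] at H'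
    exact V_eqv h (H u hu).1 (fun m => (H' m).1) (H u hu).2.1 (fun m => (H' m).2.1) (H u hu).2.2
      (fun m => (H' m).2.2) N
  have d1 := H 1 (d _ (by decide))
  have d2 := H om (d _ (by decide))
  have d3 := H (1 + om) (d _ (by decide))
  have d4 := H (-1 + om) (d _ (by decide))
  simp only [map_add, map_neg] at d3 d4
  rw [E_eq h hN d1.1 d2.1 d3.1 d4.1 (l1 _) (l1 _),
    E_eq h hN d1.2.1 d2.2.1 d3.2.1 d4.2.1 (l2 _) (l2 _), ← map_neg, ← map_neg, ← map_neg, ← map_neg]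
  have o1 : (1 : O) = ⟨1, 0⟩ := rfl
  exact (((k _ _ (d _ (by decide)) fun m => d _ (by simp [om, o1])).div
    (k _ _ (d _ (by decide)) fun m => d _ (by simp [om, o1]))).div
      ((k _ _ (d _ (by decide)) fun m => d _ (by simp [om, o1])).div
        (k _ _ (d _ (by decide)) fun m => d _ (by simp [om, o1])))).neg

/-- The Legendre relation up to a nonzero integer. -/
lemma leg (h : IsSig L σ) :
    ∃ m : ℤ, m ≠ 0 ∧ eta L σ L.ω₁ * L.ω₂ - eta L σ L.ω₂ * L.ω₁ = m * (2 * π * I) := by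
  obtain ⟨c, hc⟩ := h.quasi L.ω₁_mem_lattice
  obtain ⟨c', hc'⟩ := h.quasi L.ω₂_mem_lattice
  have h1 := hc (L.ω₁ / 2 + L.ω₂)
  rw [add_right_comm, hc', hc', hc, ← mul_assoc, ← mul_assoc, ← exp_add, ← exp_add] at h1
  obtain ⟨m, hm⟩ := exp_eq_exp_iff_exists_int.1
    (mul_right_cancel₀ (h.ne L.ω₁_div_two_notMem_lattice) h1).symm
  refine ⟨m, fun h0 => h.leg_ne ?_, by linear_combination hm⟩
  rw [h0] at hm
  push_cast at hm
  linear_combination -hm

lemma E_val (h : IsSig L σ) (H : Hex L κ) {m : ℤ} {N : ℕ} (hN : (N : ℂ) ≠ 0)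
    (hm : eta L σ L.ω₁ * L.ω₂ - eta L σ L.ω₂ * L.ω₁ = m * (2 * π * I)) (x y : O) :
    E L σ N (κ * (io x / N)) (κ * (io y / N)) =
      exp (2 * m * (2 * π * I) / N) ^ (x.re * y.im - x.im * y.re) := by
  have e : ∀ x : O, N * (κ * (io x / N)) = x.re * L.ω₁ + x.im * L.ω₂ := fun x => by
    rw [H.w1, H.w2, io_eq]; field_simp
  rw [E, e, e, h.eta_comb, h.eta_comb, eq_div_of_mul_eq hN ((mul_comm _ _).trans (e x)),
    eq_div_of_mul_eq hN ((mul_comm _ _).trans (e y)), ← exp_int_mul, mul_assoc 2, ← hm]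
  congr 1
  push_cast
  field_simp
  ring

lemma pt (H : Hex L κ) (C : Cur (tt L κ) (ss L κ)) {z : ℂ} (h1 : ¬ Pole z) (h2 : ss L κ z ≠ 0) :
    κ * z ∉ L.lattice ∧ ℘[L] (κ * z) = tt L κ z / ss L κ z := by
  refine ⟨fun e => h2 (C.s_lat ((H.mem z).1 e)), ?_⟩
  rw [← (C.refl h1 h2).2.1, tt, sub_add_cancel, mul_neg, weierstrassP_neg]

/-- Roots of unity and the cyclotomic character. -/
lemma chi_dvd {k : ℕ} {m d : ℤ} (e : Eqv g (exp (m * (2 * π * I) / (7 ^ k : ℕ)))
    (exp (m * (2 * π * I) / (7 ^ k : ℕ)) ^ d)) :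
    (7 : ℤ) ^ k ∣ m * ((PadicInt.toZModPow k (chi 7 g : ℤ_[7])).val - d) := by
  obtain ⟨α, h1, h2⟩ := e
  have h7 : ((7 ^ k : ℕ) : ℂ) ≠ 0 := Nat.cast_ne_zero.2 (by positivity)
  have h3 : α ^ 7 ^ k = 1 := iota.injective (by
    rw [map_pow, h1, ← exp_nat_mul, mul_div_cancel₀ _ h7, exp_int_mul_two_pi_mul_I, map_one])
  have h4 : iota (g α) = iota (α ^ (PadicInt.toZModPow k (chi 7 g : ℤ_[7])).val) :=
    congrArg iota (cyclotomicCharacter.spec 7 (n := k) (g : Qb ≃+* Qb) α h3)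
  rw [map_pow, h1, ← exp_nat_mul] at h4
  rw [← exp_int_mul] at h2
  obtain ⟨j, hj⟩ := exp_eq_exp_iff_exists_int.1 (h4.symm.trans h2)
  refine ⟨j, ?_⟩
  have h5 : (2 * π * I : ℂ) ≠ 0 := two_pi_I_ne_zero
  apply Int.cast_injective (α := ℂ)
  field_simp at hj
  push_cast at hj ⊢
  linear_combination hj

end WeilP

open WeilP in
theorem weil : WeilStmt := by
  intro L κ H C
  obtain ⟨σ, h⟩ := exists_sigma L
  obtain ⟨m, hm0, hm⟩ := leg h
  obtain ⟨c, m', rfl, hm'⟩ : ∃ (c : ℕ) (m' : ℤ), m = 7 ^ c * m' ∧ ¬ 7 ∣ m' :=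
    ⟨_, (Int.finiteMultiplicity_iff.2 ⟨by norm_num, hm0⟩).exists_eq_pow_mul_and_not_dvd⟩
  refine ⟨c, fun g n r A => ?_⟩
  rcases n with _ | n
  · simp
  set k := n + 1 + c with hk
  have h7 : ((7 ^ k : ℕ) : ℂ) ≠ 0 := Nat.cast_ne_zero.2 (by positivity)
  have c7 : ((7 ^ k : ℕ) : ℂ) = 7 ^ k := by push_cast; rfl
  let φ : O →+ ℂ := .mk' (fun x => κ * (io x / (7 ^ k : ℕ))) fun x y => by rw [map_add]; ring
  let ψ : O →+ ℂ := .mk' (fun x => κ * (io (r * cj g x) / (7 ^ k : ℕ))) fun x y => by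
    rw [cj_map_add, mul_add, map_add]; ring
  have l : ∀ x : O, (7 ^ k : ℕ) * (κ * (io x / (7 ^ k : ℕ))) ∈ L.lattice := fun x => by
    rw [mul_left_comm, mul_div_cancel₀ _ h7]; exact (H.mem _).2 (lat_io x)
  have e := E_eqv (g := g) h (Odd.pow (by decide) : Odd (7 ^ k)) φ ψ (fun x hx => by
    have s1 : ss L κ (io x / 7 ^ k) ≠ 0 := fun e => hx (by
      have := C.lat_of_s (npole_seven k x) e
      rw [← map_ofNat io, ← map_pow, lat_div (pow_ne_zero _ (by decide))] at this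
      exact (dvd_pow_self _ (by omega)).trans this)
    have p1 := pt H C (npole_seven k x) s1
    have p2 := pt H C (npole_seven k (r * cj g x)) (mt (A x).2.eq_zero_iff.1 s1)
    simp only [φ, ψ, AddMonoidHom.mk'_apply, c7]
    exact ⟨p1.1, p2.1, p1.2 ▸ p2.2 ▸ (A x).1.div (A x).2⟩) l fun x => l _
  simp only [φ, ψ, AddMonoidHom.mk'_apply] at e
  rw [E_val h H h7 hm, E_val h H h7 hm, show (1 : O).re * om.im - (1 : O).im * om.re = 1 by decide,
    zpow_one, show (r * cj g 1).re * (r * cj g om).im - (r * cj g 1).im * (r * cj g om).re =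
      sg g * r.norm by
        rw [cj_map_one, mul_one, norm_eq, cj, sg]
        split_ifs <;> simp [om, QuadraticAlgebra.re_mul, QuadraticAlgebra.im_mul] <;> ring,
    show (2 : ℂ) * ((7 ^ c * m' : ℤ) : ℂ) = ((7 ^ c * (2 * m') : ℤ) : ℂ) by push_cast; ring] at e
  have h1 := chi_dvd e
  rw [hk, pow_add, mul_comm, mul_assoc, mul_dvd_mul_iff_left (by positivity)] at h1
  have p7 : Prime (7 : ℤ) := Int.prime_iff_natAbs_prime.2 (by norm_num)
  obtain ⟨j, hj⟩ := p7.pow_dvd_of_dvd_mul_left _ (by omega) h1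
  have h2 : (chi 7 g : ℤ_[7]) - ((PadicInt.toZModPow k (chi 7 g : ℤ_[7])).val : ℕ) ∈
      RingHom.ker (PadicInt.toZModPow k) := by simp [RingHom.mem_ker]
  rw [PadicInt.ker_toZModPow, Ideal.mem_span_singleton] at h2
  have h3 := congrArg (Int.cast : ℤ → ℤ_[7]) hj
  rw [Int.cast_sub, Int.cast_natCast, Int.cast_mul _ j, Int.cast_pow, Int.cast_ofNat] at h3
  have h4 := ((pow_dvd_pow _ (show n + 1 ≤ k by omega)).trans h2).add (Dvd.intro _ h3.symm)
  rwa [sub_add_sub_cancel] at h4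

end Pool.Agent.MP_59efd2_nt.CM

end
end MrgPart7

-- ======== part 8: formerly Pool.Agent.MP_59efd2_nt.cm.Chr
section MrgPart8

/-!
The induced representation.
-/

noncomputable section

namespace Pool.Agent.MP_59efd2_nt.CM

open Filter Topology
open Pool.Agent.MP_db1c88_nt.QRH (O)

namespace ChrP

theorem eq_of_dvd {x y : ℤ_[7]} (h : ∀ n, (7 : ℤ_[7]) ^ n ∣ x - y) : x = y :=
  PadicInt.ext_of_toZModPow.1 fun n => by
    rw [← sub_eq_zero, ← map_sub, ← RingHom.mem_ker, PadicInt.ker_toZModPow,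
      Ideal.mem_span_singleton]
    exact_mod_cast h n

variable {t s : ℂ → ℂ}

theorem lim (hG : Gl t s) (ψ : O →+* ℤ_[7]) (g : GQ) :
    ∃ x : ℤ_[7], ∀ n r, Act t s g n r → (7 : ℤ_[7]) ^ n ∣ x - ψ r := by
  choose r hr using hG.ex g
  have d : ∀ {n a b}, Act t s g n a → Act t s g n b → (7 : ℤ_[7]) ^ n ∣ ψ a - ψ b :=
    fun h1 h2 => by simpa [map_ofNat] using map_dvd ψ (hG.uniq g _ _ _ h1 h2)
  have k : ∀ {n : ℕ} {a b : ℤ_[7]}, a ≡ b [SMOD (IsLocalRing.maximalIdeal ℤ_[7] ^ n • ⊤ :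
      Submodule ℤ_[7] ℤ_[7])] ↔ (7 : ℤ_[7]) ^ n ∣ a - b := by
    intro n a b
    rw [SModEq.sub_mem, smul_eq_mul, Ideal.mul_top, PadicInt.maximalIdeal_eq_span_p,
      Ideal.span_singleton_pow, Ideal.mem_span_singleton, Nat.cast_ofNat]
  obtain ⟨x, hx⟩ := IsPrecomplete.prec' (I := IsLocalRing.maximalIdeal ℤ_[7]) (fun n => ψ (r n))
    fun {m n} hmn => k.2 (d (hr m) (by
      have : ∀ j a, Act t s g (m + j) a → Act t s g m a := fun j a => by
        induction j with
        | zero => exact id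
        | succ j ih => exact fun h => ih (hG.down g _ a h)
      obtain ⟨j, rfl⟩ := Nat.exists_eq_add_of_le hmn
      exact this j _ (hr _)))
  exact ⟨x, fun n a ha => by simpa using (d (hr n) ha).sub (k.1 (hx n))⟩

open Classical in
/-- the action on the two embeddings -/
def sw (g : GQ) (i : Fin 2) : Fin 2 := if Fix g then i else i.rev

theorem sw_mul (g h : GQ) (i : Fin 2) : sw (g * h) i = sw h (sw g i) := by
  by_cases h1 : Fix g <;> by_cases h2 : Fix h <;> simp [sw, fix_mul, h1, h2]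

end ChrP

open ChrP

theorem chr : ChrStmt := by
  intro t s hG φ
  let ψ : Fin 2 → O →+* ℤ_[7] := ![φ.comp (starRingEnd O), φ]
  have hψ : ∀ g i r, ψ i (cj g r) = ψ (sw g i) r := fun g i r => by
    by_cases h1 : Fix g <;> fin_cases i <;> simp [ψ, cj, sw, h1, starRingEnd_apply, Fin.rev]
  choose E hE using fun i => lim hG (ψ i)
  have m : ∀ i g h, E i (g * h) = E i g * E (sw g i) h := fun i g h => eq_of_dvd fun n => by
    obtain ⟨a, ha⟩ := hG.ex g n
    obtain ⟨b, hb⟩ := hG.ex h n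
    convert ((hE i _ n _ (hG.mul g h n a b ha hb)).sub
      ((hE i g n a ha).mul_right (E (sw g i) h))).sub
        ((hE (sw g i) h n b hb).mul_left (ψ i a)) using 1
    rw [map_mul, hψ]
    ring
  have o : ∀ i, E i 1 = 1 := fun i => eq_of_dvd fun n => by simpa using hE i 1 n 1 (hG.one n)
  have u : ∀ i g, E i g * E (sw g i) g⁻¹ = 1 := fun i g => by rw [← m, mul_inv_cancel, o]
  let e : Fin 2 → GQ → ℤ_[7]ˣ := fun i g => Units.mkOfMulEqOne _ _ (u i g)
  have em : ∀ i g h, e i (g * h) = e i g * e (sw g i) h := fun i g h => Units.ext (m i g h)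
  have c : ∀ i, Continuous (E i) := fun i => continuous_iff_continuousAt.2 fun g =>
    Metric.tendsto_nhds.2 fun ε hε => by
      obtain ⟨n, hn⟩ := PadicInt.exists_pow_neg_lt 7 hε
      obtain ⟨a, ha⟩ := hG.ex g n
      filter_upwards [hG.loc g n a ha] with h hh
      rw [dist_eq_norm]
      refine ((PadicInt.norm_le_pow_iff_mem_span_pow _ n).2
        (Ideal.mem_span_singleton.2 ?_)).trans_lt hn
      simpa using (hE i h n a hh).sub (hE i g n a ha)
  let M : GQ →* Matrix (Fin 2) (Fin 2) ℤ_[7] :=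
    { toFun := fun g => Matrix.of fun i j =>
        if j = sw g i then (((e i g ^ 3)⁻¹ : ℤ_[7]ˣ) : ℤ_[7]) else 0
      map_one' := by
        ext i j
        have : e i 1 = 1 := Units.ext (o i)
        simp [sw, fix_one, this, Matrix.one_apply, eq_comm]
      map_mul' := fun g h => by
        ext i j
        simp only [Matrix.mul_apply, Matrix.of_apply, ite_mul, zero_mul, Finset.sum_ite_eq',
          Finset.mem_univ, if_true]
        simp only [em, sw_mul, mul_pow, mul_inv, Units.val_mul, mul_ite, mul_zero] }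
  have cM : Continuous M := continuous_matrix fun i j => continuous_iff_continuousAt.2 fun g => by
    have : Continuous fun h : GQ => if j = sw g i then E (sw g i) h⁻¹ ^ 3 else 0 := by
      split_ifs <;> fun_prop
    refine this.continuousAt.congr ((ev_fix g).mono fun h hh => ?_)
    have h1 : sw g i = sw h i := by classical exact if_congr hh.symm rfl rfl
    simp only [M, h1, MonoidHom.coe_mk, OneHom.coe_mk, Matrix.of_apply, ← inv_pow]
    rfl
  refine ⟨M.toHomUnits, e, Units.continuous_iff.2 ⟨cM, ?_⟩, hE 0, hE 1,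
    fun i g h hg => by simpa [sw, hg] using em i g h, fun g hg => ?_, fun g hg => ?_⟩
  · simp only [← map_inv]
    exact cM.comp continuous_inv
  · ext i j
    simp [M, sw, hg, Matrix.diagonal_apply, eq_comm]
  · ext i j
    fin_cases i <;> fin_cases j <;> simp [M, sw, hg, Fin.rev]

end Pool.Agent.MP_59efd2_nt.CM

end
end MrgPart8

-- ======== part 9: formerly Pool.Agent.MP_59efd2_nt.cm.Cyc
section MrgPart9

/-!
Inertia and Frobenius elements on roots of unity.
-/

noncomputable section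

namespace Pool.Agent.MP_59efd2_nt.CM

open Pool.Agent.MP_db1c88_nt.QRH (O om wC io)
open scoped Pointwise

namespace Cyc

variable {W : ValuationSubring Qb} {l m : ℕ} {x y : Qb}

theorem val_root (hm : m ≠ 0) (hx : x ^ m = 1) : W.valuation x = 1 :=
  (pow_eq_one_iff_of_nonneg zero_le hm).1 (by rw [← map_pow, hx, map_one])

theorem mem_root (hm : m ≠ 0) (hx : x ^ m = 1) : x ∈ W :=
  (W.valuation_le_one_iff x).1 (val_root hm hx).le

theorem not_lt (h : Above W l) (hc : l.Coprime m) : ¬ W.valuation (m : Qb) < 1 := fun h' => by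
  obtain ⟨a, b, e⟩ := Nat.isCoprime_iff_coprime.2 hc
  have e' : (a : Qb) * l + b * m = 1 := by exact_mod_cast e
  have k : ∀ (c : ℤ) (z : Qb), W.valuation z < 1 → W.valuation (c * z) < 1 := fun c z hz => by
    rw [map_mul]
    exact mul_lt_one_of_nonneg_of_lt_one_right ((W.valuation_le_one_iff _).2 (intCast_mem W c))
      zero_le hz
  have := W.valuation.map_add_lt (k a _ h) (k b _ h')
  rw [e', map_one] at this
  exact lt_irrefl _ this

/-- Roots of unity of order prime to `l` are distinct modulo a place above `l`. -/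
theorem sep (h : Above W l) (hc : l.Coprime m) (hm : m ≠ 0) (hx : x ^ m = 1) (hy : y ^ m = 1)
    (hv : W.valuation (x - y) < 1) : x = y := by
  have hy0 : y ≠ 0 := fun e => by simp [e, hm] at hy
  have hz : (x / y) ^ m = 1 := by rw [div_pow, hx, hy, div_one]
  have h1 : W.valuation (x / y - 1) < 1 := by
    rwa [div_sub_one hy0, map_div₀, val_root hm hy, div_one]
  by_contra hne
  have h2 : ∑ i ∈ Finset.range m, (x / y) ^ i = 0 := by
    have := mul_geom_sum (x / y) m
    rw [hz, sub_self] at this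
    exact (mul_eq_zero.1 this).resolve_left (sub_ne_zero.2 fun e => hne (by
      rwa [div_eq_one_iff_eq hy0] at e))
  have h3 : ∀ i : ℕ, W.valuation (1 - (x / y) ^ i) < 1 := fun i => by
    induction i with
    | zero => simp
    | succ i ih =>
      rw [show 1 - (x / y) ^ (i + 1) = x / y * (1 - (x / y) ^ i) - (x / y - 1) by ring]
      exact W.valuation.map_sub_lt (by rwa [map_mul, val_root hm hz, one_mul]) h1
  refine not_lt h hc ?_
  have h4 : (m : Qb) = ∑ i ∈ Finset.range m, (1 - (x / y) ^ i) := by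
    simp [Finset.sum_sub_distrib, h2]
  rw [h4]
  exact W.valuation.map_sum_lt one_ne_zero fun i _ => h3 i

theorem frob {g : GQ} (h : Above W l) (hc : l.Coprime m) (hm : m ≠ 0) (hg : IsFrob W l g)
    (hx : x ^ m = 1) : g x = x ^ l :=
  sep h hc hm (by rw [← map_pow, hx, map_one]) (by rw [← pow_mul, mul_comm, pow_mul, hx, one_pow])
    (hg.2 x (mem_root hm hx))

theorem inertia_lt (W : ValuationSubring Qb) (g : W.decompositionSubgroup ℚ)
    (hg : g ∈ W.inertiaSubgroup ℚ) (a : Qb) (ha : a ∈ W) : W.valuation ((g : GQ) a - a) < 1 := by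
  have h1 : g • IsLocalRing.residue W ⟨a, ha⟩ = IsLocalRing.residue W ⟨a, ha⟩ :=
    DFunLike.congr_fun (MonoidHom.mem_ker.1 hg) _
  rw [← IsLocalRing.ResidueField.residue_smul, ← sub_eq_zero, ← map_sub,
    IsLocalRing.residue_eq_zero_iff] at h1
  exact (W.valuation_lt_one_iff _).1 h1

theorem extend (W : ValuationSubring Qb) : ∃ V : ValuationSubring ℂ, ∀ a : Qb,
    (V.valuation (iota a) < 1 ↔ W.valuation a < 1) ∧
      (V.valuation (iota a) = 1 ↔ W.valuation a = 1) := by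
  obtain ⟨V, h, hl⟩ := IsLocalRing.exists_factor_valuationRing (iota.comp W.subtype)
  have k : ∀ a ∈ W, (V.valuation (iota a) < 1 ↔ W.valuation a < 1) ∧
      (V.valuation (iota a) = 1 ↔ W.valuation a = 1) := fun a ha => by
    have h1 : V.valuation (iota a) = 1 ↔ W.valuation a = 1 :=
      (V.valuation_eq_one_iff ⟨iota a, h ⟨a, ha⟩⟩).symm.trans
        ((isUnit_map_iff ((iota.comp W.subtype).codRestrict V.toSubring h) ⟨a, ha⟩).trans
          (W.valuation_eq_one_iff ⟨a, ha⟩))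
    have h2 := (V.valuation_le_one_iff (iota a)).2 (h ⟨a, ha⟩)
    have h3 := (W.valuation_le_one_iff a).2 ha
    exact ⟨by rw [h2.lt_iff_ne, h3.lt_iff_ne, Ne, Ne, h1], h1⟩
  refine ⟨V, fun a => ?_⟩
  by_cases ha : a ∈ W
  · exact k a ha
  have h1 : 1 < W.valuation a := not_le.1 fun e => ha ((W.valuation_le_one_iff a).1 e)
  have h0 : a ≠ 0 := fun e => ha (e ▸ zero_mem W)
  have h2 := (k a⁻¹ ((W.mem_or_inv_mem a).resolve_left ha)).1.2 (by
    rw [map_inv₀]; exact inv_lt_one_of_one_lt₀ h1)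
  rw [map_inv₀, map_inv₀, inv_lt_one₀ (zero_lt_iff.2 (by simpa using h0))] at h2
  exact ⟨iff_of_false h2.not_gt h1.not_gt, iff_of_false h2.ne' h1.ne'⟩

theorem seven : ∃ W : ValuationSubring Qb, Above W 7 ∧ W.valuation (1 + 3 * zq) < 1 ∧
    ∀ g ∈ W.decompositionSubgroup ℚ, Fix g := by
  have e : iota (1 + 3 * zq) = io pi7 := by simp [iota_zq, pi7, io_mk, map_ofNat]
  let p : io.range.comap iota := ⟨1 + 3 * zq, pi7, e.symm⟩
  obtain ⟨W, -, hW⟩ := (Ideal.span {p}).image_subset_nonunits_valuationSubring (by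
    rw [Ne, Ideal.span_singleton_eq_top, isUnit_iff_exists_inv]
    rintro ⟨⟨u, x, hx⟩, hu⟩
    have h1 : (1 + 3 * zq) * u = 1 := congrArg Subtype.val hu
    have h2 : pi7 * x = 1 := io_injective (by rw [map_mul, hx, ← e, ← map_mul, h1, map_one, map_one])
    have := congrArg QuadraticAlgebra.norm h2
    rw [map_mul, map_one, show pi7.norm = 7 by decide] at this
    omega)
  have hp : W.valuation (1 + 3 * zq) < 1 :=
    W.mem_nonunits_iff.1 (hW ⟨p, Ideal.mem_span_singleton_self p, rfl⟩)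
  have hz : zq ∈ W := mem_root (m := 3) (by norm_num) zq_cube
  refine ⟨W, ?_, hp, fun g hg => ?_⟩
  · rw [Above, show ((7 : ℕ) : Qb) = (1 + 3 * zq) * (1 + 3 * zq ^ 2) by
      push_cast; linear_combination -3 * zq_eq - 9 * zq_cube, map_mul]
    exact mul_lt_one_of_nonneg_of_lt_one_left zero_le hp ((W.valuation_le_one_iff _).2
      (add_mem (one_mem W) (mul_mem (natCast_mem W 3) (pow_mem hz 2))))
  · by_contra hf
    have h1 : g (1 + 3 * zq) = 1 + 3 * zq ^ 2 := by simp [not_fix.1 hf, map_ofNat]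
    have h2 : ∀ a, g a ∈ W ↔ a ∈ W := fun a => by
      have := ValuationSubring.smul_mem_pointwise_smul_iff (g := g) (S := W) (x := a)
      rwa [MulAction.mem_stabilizer_iff.1 hg] at this
    have h3 : W.valuation (1 + 3 * zq ^ 2) < 1 := by
      rw [← W.mem_nonunits_iff, W.mem_nonunits_iff_or] at hp ⊢
      rwa [← h1, ← map_inv₀, h2, map_eq_zero]
    have h4 := W.valuation.map_add_lt hp h3
    rw [show 1 + 3 * zq + (1 + 3 * zq ^ 2) = -1 by linear_combination 3 * zq_eq,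
      Valuation.map_neg, map_one] at h4
    exact lt_irrefl _ h4

end Cyc

open Cyc in
theorem cyc : CycStmt where
  inertia_fix W l hl h3 h g hg :=
    sep h ((Nat.coprime_primes hl Nat.prime_three).2 h3) (by norm_num)
      (by rw [← map_pow, zq_cube, map_one]) zq_cube
      (inertia_lt W g hg zq (mem_root (m := 3) (by norm_num) zq_cube))
  frob_fix W l hl h3 h g hg := by
    have hc := (Nat.coprime_primes hl Nat.prime_three).2 h3
    rw [Fix, frob h hc (by norm_num) hg zq_cube, pow_eq_pow_mod l zq_cube]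
    have h0 : l % 3 ≠ 0 := fun e =>
      h3 ((Nat.prime_dvd_prime_iff_eq Nat.prime_three hl).1 (Nat.dvd_of_mod_eq_zero e)).symm
    obtain e | e : l % 3 = 1 ∨ l % 3 = 2 := by omega
    · simp [e]
    · simp [e, zq_ne]
  chi_frob W l hl h7 h g hg := by
    refine PadicInt.ext_of_toZModPow.1 fun n => ?_
    obtain ⟨ζ, hζ⟩ := HasEnoughRootsOfUnity.exists_primitiveRoot Qb (7 ^ n)
    have h1 := cyclotomicCharacter.spec 7 (n := n) (g : Qb ≃+* Qb) ζ hζ.pow_eq_one
    have h2 := frob h (((Nat.coprime_primes hl (by norm_num)).2 h7).pow_right n) (by positivity) hg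
      hζ.pow_eq_one
    have h3 := ((hζ.isOfFinOrder (by positivity)).pow_eq_pow_iff_modEq).1 (h1.symm.trans h2)
    rw [← hζ.eq_orderOf, ← ZMod.natCast_eq_natCast_iff, ZMod.natCast_zmod_val] at h3
    rw [map_natCast]
    exact h3
  extend := extend
  inertia_lt := inertia_lt
  seven := seven

end Pool.Agent.MP_59efd2_nt.CM

end
end MrgPart9

-- ======== part 10: formerly Pool.Agent.MP_59efd2_nt.cm.Frb
section MrgPart10

/-!
Inertia and Frobenius elements on the torsion points.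
-/

noncomputable section

namespace Pool.Agent.MP_59efd2_nt.CM

open Pool.Agent.MP_db1c88_nt.QRH (O om lam wC io Primary norm_eq wC_sq mul_star')

namespace FrbP

theorem le_one (V : ValuationSubring ℂ) {x : ℂ} (h : IsIntegral ℤ x) : V.valuation x ≤ 1 := by
  have h1 : IsIntegral V x := h.tower_top
  obtain ⟨y, rfl⟩ := IsIntegrallyClosed.isIntegral_iff.1 h1
  exact V.valuation_le_one y

theorem unit (V : ValuationSubring ℂ) {x y : O} (h : IsCoprime x y)
    (hx : V.valuation (io x) < 1) : V.valuation (io y) = 1 := by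
  refine le_antisymm (le_one V (io_int y)) (not_lt.1 fun hy => ?_)
  obtain ⟨a, b, e⟩ := h
  have e1 := congrArg (fun z => V.valuation (io z)) e
  simp only [map_add, map_one] at e1
  refine absurd e1 (ne_of_lt (V.valuation.map_add_lt ?_ ?_)) <;> rw [map_mul, map_mul]
  · exact mul_lt_one_of_nonneg_of_lt_one_right (le_one V (io_int a)) zero_le hx
  · exact mul_lt_one_of_nonneg_of_lt_one_right (le_one V (io_int b)) zero_le hy

theorem lat_q {γ : O} (h : lam ∣ γ - 1) (a : O) : Lat (io γ * (io a / io γ)) :=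
  ⟨a, mul_div_cancel₀ _ (io_ne (ne_zero_of_lam h))⟩

/-- congruent coordinates give congruent cubes -/
theorem core {s : ℂ → ℂ} (hV : Val s) (V : ValuationSubring ℂ) {γ a b : O} (h : lam ∣ γ - 1)
    (h2 : IsCoprime γ 2) (hγ : V.valuation (io γ) = 1) (h3 : V.valuation (io 3) = 1)
    (hs : V.valuation (s (io b / io γ) - s (io a / io γ)) < 1) : γ ∣ b ^ 3 - a ^ 3 := by
  obtain ⟨j, hj⟩ := hV.sep V γ _ _ h h2 hγ (by rwa [map_ofNat] at h3) (lat_q h a) (lat_q h b)
    (by rwa [Valuation.map_sub_swap])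
  have h4 : γ ∣ b - om ^ j * a := (lat_div (ne_zero_of_lam h)).1 (by
    rwa [map_sub, map_mul, map_pow, io_om, sub_div, mul_div_assoc])
  have h5 := h4.trans (sub_dvd_pow_sub_pow b (om ^ j * a) 3)
  rwa [mul_pow, ← pow_mul, mul_comm j 3, pow_mul, om_cube, one_pow, one_mul] at h5

/-- the action on the point `1 / γ` -/
theorem pt {t s : ℂ → ℂ} {g : GQ} {n : ℕ} {r γ x : O} (hA : Act t s g n r) (e : γ * x = 7 ^ n)
    (hx : cj g x = x) : Eqv g (s (io 1 / io γ)) (s (io r / io γ)) := by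
  have h7 : (7 : ℂ) ^ n = io γ * io x := by rw [← map_mul, e, map_pow, map_ofNat]
  have h0 : io x ≠ 0 := fun h => by simp [h] at h7
  have := (hA x).2
  rwa [hx, h7, map_mul, mul_div_mul_right _ _ h0, show io x / (io γ * io x) = io 1 / io γ by
    rw [← mul_div_mul_right (io 1) _ h0, map_one, one_mul]] at this

/-- the two places agree on algebraic numbers -/
def Ext (W : ValuationSubring Qb) (V : ValuationSubring ℂ) : Prop :=
  ∀ a : Qb, (V.valuation (iota a) < 1 ↔ W.valuation a < 1) ∧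
    (V.valuation (iota a) = 1 ↔ W.valuation a = 1)

theorem Ext.mem {W V} (h : Ext W V) {a : Qb} (ha : IsIntegral ℤ (iota a)) : a ∈ W := by
  rw [← W.valuation_le_one_iff]
  rcases (le_one V ha).lt_or_eq with h1 | h1
  · exact ((h a).1.1 h1).le
  · exact ((h a).2.1 h1).le

theorem Ext.above {W V} (h : Ext W V) (l : ℕ) : V.valuation (io l) < 1 ↔ Above W l := by
  simpa [Above] using (h l).1

theorem Ext.pi {W V} (h : Ext W V) (h7 : W.valuation (1 + 3 * zq) < 1) :
    V.valuation (io pi7) < 1 := by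
  have := (h _).1.2 h7
  rwa [map_add, map_mul, map_one, map_ofNat, iota_zq,
    show 1 + 3 * wC = io pi7 by simp [pi7, io_mk]] at this

variable {t s : ℂ → ℂ} {W : ValuationSubring Qb} {V : ValuationSubring ℂ} {γ x r : O} {n : ℕ}

theorem ine (hC : CycStmt) (hI : Intg t s) (hV : Val s) (hE : Ext W V) (h : lam ∣ γ - 1)
    (h2 : IsCoprime γ 2) (hγ : V.valuation (io γ) = 1) (h3 : V.valuation (io 3) = 1)
    {g : W.decompositionSubgroup ℚ} (hg : g ∈ W.inertiaSubgroup ℚ) (hA : Act t s g n r)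
    (e : γ * x = 7 ^ n) (hx : cj g x = x) : γ ∣ r ^ 3 - 1 := by
  obtain ⟨a, h4, h5⟩ := pt hA e hx
  have h6 := (hE _).1.2 (hC.inertia_lt W g hg a (hE.mem (h4 ▸ (hI γ _ h (lat_q h 1)).2)))
  rw [map_sub, h4, h5] at h6
  simpa using core hV V h h2 hγ h3 h6

theorem fro (hI : Intg t s) (hV : Val s) (hE : Ext W V) (h : lam ∣ γ - 1)
    (h2 : IsCoprime γ 2) (hγ : V.valuation (io γ) = 1) (h3 : V.valuation (io 3) = 1)
    {g : GQ} {l : ℕ} (hg : IsFrob W l g) (hA : Act t s g n r)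
    (e : γ * x = 7 ^ n) (hx : cj g x = x) {y : O} (y1 : lam ∣ y - 1) (y2 : IsCoprime y 2)
    (y3 : Prime y) (y4 : V.valuation (io y) < 1) (y5 : y.norm = l) : γ ∣ r ^ 3 - y ^ 3 := by
  obtain ⟨a, h4, h5⟩ := pt hA e hx
  have h6 := (hE _).1.2 (hg.2 a (hE.mem (h4 ▸ (hI γ _ h (lat_q h 1)).2)))
  rw [map_sub, map_pow, h4, h5] at h6
  have h7 := hV.frob V γ y _ h (lat_q h 1) y1 y2 y3 y4
  rw [y5, Int.toNat_natCast, ← mul_div_assoc, ← map_mul, mul_one] at h7
  refine core hV V h h2 hγ h3 ?_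
  simpa using V.valuation.map_sub_lt h6 h7

theorem cop {l m : ℕ} (hl : l.Prime) (hm : m.Prime) (h : l ≠ m) : IsCoprime (l : O) (m : O) := by
  simpa using (Nat.isCoprime_iff_coprime.2 ((Nat.coprime_primes hl hm).2 h)).map (Int.castRingHom O)

theorem cop72 (n : ℕ) : IsCoprime ((7 : O) ^ n) 2 :=
  IsCoprime.pow_left (by simpa using cop (l := 7) (m := 2) (by norm_num) (by norm_num) (by norm_num))

theorem v7 {l : ℕ} (hl : l.Prime) (h7 : l ≠ 7) (h : V.valuation (io l) < 1) (n : ℕ) :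
    V.valuation (io (7 ^ n)) = 1 :=
  unit V (IsCoprime.pow_right (by simpa using cop hl (m := 7) (by norm_num) h7)) h

theorem v3 {l : ℕ} (hl : l.Prime) (h3 : l ≠ 3) (h : V.valuation (io l) < 1) :
    V.valuation (io 3) = 1 :=
  unit V (by simpa using cop hl (m := 3) (by norm_num) h3) h

theorem ab7 (hE : Ext W V) (h : V.valuation (io pi7) < 1) : Above W 7 := by
  refine (hE.above 7).1 ?_
  rw [Nat.cast_ofNat, ← pi7_mul, map_mul, map_mul]
  exact mul_lt_one_of_nonneg_of_lt_one_left zero_le h (le_one V (io_int _))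

theorem pr7 : Primary pi7 := ⟨om, by decide⟩

theorem s1 (n : ℕ) : lam ∣ star pi7 ^ n - 1 :=
  lam_pow (lam_dvd_three.trans ⟨⟨-1, -1⟩, by decide⟩) n

theorem s2 (hA : AriStmt) (n : ℕ) : IsCoprime (star pi7 ^ n) 2 :=
  (hA.cop_two _ (by decide)).pow_left

theorem s3 (h : V.valuation (io pi7) < 1) (n : ℕ) : V.valuation (io (star pi7 ^ n)) = 1 :=
  unit V (IsCoprime.pow_right ⟨-1, -1, by decide⟩) h

theorem s4 (h : V.valuation (io pi7) < 1) : V.valuation (io 3) = 1 :=
  unit V ⟨1, -om, by decide⟩ h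

theorem s5 (n : ℕ) : star pi7 ^ n * pi7 ^ n = 7 ^ n := by rw [← mul_pow, mul_comm, pi7_mul]

end FrbP

open FrbP in
theorem frb (hA : AriStmt) (hC : CycStmt) : FrbStmt := by
  intro t s _ hI hV
  refine ⟨fun W l hl h3 h7 hW g hg n r hr => ?_, fun W l x hl h7 hx hn hW g hg => ?_,
    fun W hW g hg n r hr => ?_, fun W hW g hg n r hr => ?_⟩ <;>
    obtain ⟨V, hE : Ext W V⟩ := hC.extend W
  · have hv := (hE.above l).2 hW
    exact ine hC hI hV hE (lam_seven n) (cop72 n) (v7 hl h7 hv n) (v3 hl h3 hv) hg hr (mul_one _)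
      (cj_map_one _)
  · have hv := (hE.above l).2 hW
    have hm := hA.norm_mod x (lam_of_primary hx)
    have hodd : Odd (l : ℤ) := (Int.odd_coe_nat l).2 (hl.odd_of_ne_two (by omega))
    have key : ∀ y : O, Primary y → y.norm = l → V.valuation (io y) < 1 →
        ∀ n r, Act t s g n r → (7 : O) ^ n ∣ r ^ 3 - y ^ 3 := fun y y1 y2 y3 n r hr =>
      fro hI hV hE (lam_seven n) (cop72 n) (v7 hl h7 hv n) (v3 hl (by omega) hv) hg hr (mul_one _)
        (cj_map_one _) (lam_of_primary y1) (hA.cop_two y (y2 ▸ hodd)) (hA.prime_of_norm y l hl y2)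
        y3 y2
    by_cases h1 : V.valuation (io x) < 1
    · exact ⟨x, .inl rfl, key x hx hn h1⟩
    · refine ⟨star x, .inr rfl, key _ (hA.star_primary x hx)
        (by rw [QuadraticAlgebra.norm_star, hn]) ?_⟩
      have e : (l : O) = x * star x := by rw [mul_star', hn, Int.cast_natCast]
      rwa [e, map_mul, map_mul, le_antisymm (le_one V (io_int x)) (not_lt.1 h1), one_mul] at hv
  · have hv := hE.pi hW
    exact ine hC hI hV hE (s1 n) (s2 hA n) (s3 hv n) (s4 hv) hg hr (s5 n)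
      (cj_fix (hC.inertia_fix W 7 (by norm_num) (by norm_num) (ab7 hE hv) g hg) _)
  · have hv := hE.pi hW
    exact fro hI hV hE (s1 n) (s2 hA n) (s3 hv n) (s4 hv) hg hr (s5 n)
      (cj_fix ((hC.frob_fix W 7 (by norm_num) (by norm_num) (ab7 hE hv) g hg).2 rfl) _)
      (lam_of_primary pr7) (hA.cop_two _ (by decide))
      (hA.prime_of_norm pi7 7 (by norm_num) (by decide)) hv (by decide)

end Pool.Agent.MP_59efd2_nt.CM

end
end MrgPart10

-- marker of a merged file
example : 731051 + 554363 = 731051 + 554363 := rfl
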