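import Pool.Agent.MP_59efd2_nt.cm.Rep
import Pool.Agent.MP_59efd2_nt.cm.Frb

/-!
The instance of level 9, weight 4, prime 7.
-/

namespace Pool.Agent.MP_59efd2_nt.CM

theorem inst : InstanceStmt :=
  inst_of ari (mod (tha ari) (ths ari (tha ari))) new (lval ari (tha ari) (ths ari (tha ari)))
    (rep_of hex add prd ker (val ari) gal weil (frb ari cyc) (rep ari cyc chr))

end Pool.Agent.MP_59efd2_nt.CM
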